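import Mathlib
import Pool.Agent.Helper923.PNT

set_option autoImplicit false

/-! A prime digit not dividing the base. -/

namespace Pool.Agent.V11294.RP

open Finset Filter Topology

theorem exists_digit : ∃ y0 : ℝ, 3 ≤ y0 ∧ ∀ (b : ℕ) (y : ℝ), 1 ≤ b → y0 ≤ y → 4 * Real.log b < y →
    ∃ d : ℕ, d.Prime ∧ ¬ d ∣ b ∧ y / 3 ≤ d ∧ (d : ℝ) ≤ y - 1 := by
  have h1 := Pool.Agent.Helper923.PNT.theta_div_tendsto
  rw [Metric.tendsto_nhds] at h1
  obtain ⟨x1, hx1⟩ := eventually_atTop.1 ((h1 (1 / 100) (by norm_num)).and (eventually_gt_atTop 0))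
  refine ⟨max (3 * x1) (max (x1 + 1) 3), by simp, ?_⟩
  intro b y hb hy hby
  have hy1 : 3 * x1 ≤ y := (le_max_left _ _).trans hy
  have hy2 : x1 + 1 ≤ y := ((le_max_left _ _).trans (le_max_right _ _)).trans hy
  have hy3 : 3 ≤ y := ((le_max_right _ _).trans (le_max_right _ _)).trans hy
  by_contra hcon
  push Not at hcon
  obtain ⟨a1, a2⟩ := hx1 (y - 1) (by linarith)
  obtain ⟨a3, a4⟩ := hx1 (y / 3) (by linarith)
  rw [Real.dist_eq, abs_lt] at a1 a3
  have b1 : 99 / 100 * (y - 1) ≤ Chebyshev.theta (y - 1) := by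
    have : 99 / 100 ≤ Chebyshev.theta (y - 1) / (y - 1) := by linarith [a1.1]
    rwa [le_div_iff₀ a2] at this
  have b2 : Chebyshev.theta (y / 3) ≤ 101 / 100 * (y / 3) := by
    have : Chebyshev.theta (y / 3) / (y / 3) ≤ 101 / 100 := by linarith [a3.2]
    rwa [div_le_iff₀ a4] at this
  -- the primes in between divide b
  set S := ((Ioc 0 ⌊y - 1⌋₊).filter Nat.Prime) with hS
  set S' := ((Ioc 0 ⌊y / 3⌋₊).filter Nat.Prime) with hS'
  have c1 : Chebyshev.theta (y - 1) = ∑ p ∈ S, Real.log p := rfl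
  have c2 : Chebyshev.theta (y / 3) = ∑ p ∈ S', Real.log p := rfl
  have hsub : S' ⊆ S := by
    intro p hp
    rw [hS', mem_filter, mem_Ioc] at hp
    rw [hS, mem_filter, mem_Ioc]
    refine ⟨⟨hp.1.1, hp.1.2.trans ?_⟩, hp.2⟩
    apply Nat.floor_le_floor
    linarith
  have c3 := sum_sdiff (f := fun p : ℕ => Real.log p) hsub
  have hdvd : (∏ p ∈ S \ S', p) ∣ b := by
    apply Finset.prod_primes_dvd
    · intro p hp
      rw [Finset.mem_sdiff, hS, mem_filter] at hp
      exact hp.1.2.prime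
    · intro p hp
      rw [Finset.mem_sdiff, hS, hS', mem_filter, mem_filter, mem_Ioc, mem_Ioc] at hp
      obtain ⟨⟨⟨h2, h3⟩, h4⟩, h5⟩ := hp
      by_contra hpb
      have h6 : y / 3 ≤ p := by
        by_contra h7
        apply h5
        refine ⟨⟨h2, ?_⟩, h4⟩
        apply Nat.le_floor
        exact (not_le.1 h7).le
      have h8 := hcon p h4 hpb h6
      have h9 : (p : ℝ) ≤ y - 1 := by
        rw [Nat.le_floor_iff (by linarith)] at h3
        exact h3
      linarith
  have hle : (∏ p ∈ S \ S', p) ≤ b := Nat.le_of_dvd (by omega) hdvd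
  have hlog : ∑ p ∈ S \ S', Real.log p ≤ Real.log b := by
    rw [← Real.log_prod]
    · apply Real.log_le_log
      · apply prod_pos
        intro p hp
        rw [Finset.mem_sdiff, hS, mem_filter] at hp
        exact_mod_cast hp.1.2.pos
      · have : ((∏ p ∈ S \ S', p : ℕ) : ℝ) ≤ b := by exact_mod_cast hle
        push_cast at this
        exact this
    · intro p hp
      rw [Finset.mem_sdiff, hS, mem_filter] at hp
      exact_mod_cast hp.1.2.ne_zero
  linarith

end Pool.Agent.V11294.RP
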