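import Mathlib

set_option autoImplicit false

/-! Digit reversal in base `b` with a fixed number of digits, and its exponential sums. -/

namespace Pool.Agent.V11294.RP

open Finset

/-- the additive character -/
noncomputable def e (x : ℝ) : ℂ := Complex.exp (2 * Real.pi * Complex.I * x)

lemma e_add (x y : ℝ) : e (x + y) = e x * e y := by
  unfold e
  rw [← Complex.exp_add]
  congr 1
  push_cast
  ring

lemma e_zero : e 0 = 1 := by simp [e]

lemma e_int (n : ℤ) : e n = 1 := by
  unfold e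
  rw [Complex.exp_eq_one_iff]
  exact ⟨n, by push_cast; ring⟩

lemma e_nat (n : ℕ) : e n = 1 := by
  have := e_int n
  simpa using this

lemma norm_e (x : ℝ) : ‖e x‖ = 1 := by
  unfold e
  rw [Complex.norm_exp]
  simp

lemma e_add_int (x : ℝ) (n : ℤ) : e (x + n) = e x := by
  rw [e_add, e_int, mul_one]

lemma e_neg (x : ℝ) : e (-x) = (starRingEnd ℂ) (e x) := by
  unfold e
  rw [← Complex.exp_conj]
  congr 1
  have h2 : (starRingEnd ℂ) (2 : ℂ) = 2 := map_ofNat _ 2
  simp [h2]

/-- reversal of `n` as a string of `L` digits in base `b` -/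
def revL (b : ℕ) : ℕ → ℕ → ℕ
  | 0, _ => 0
  | L + 1, n => (n % b) * b ^ L + revL b L (n / b)

lemma revL_lt {b : ℕ} (hb : 0 < b) : ∀ L n, revL b L n < b ^ L
  | 0, n => by simp [revL]
  | L + 1, n => by
    have h1 := revL_lt hb L (n / b)
    have h2 : n % b < b := Nat.mod_lt n hb
    have h3 : (n % b + 1) * b ^ L ≤ b * b ^ L := Nat.mul_le_mul_right _ h2
    rw [revL, pow_succ]
    nlinarith

noncomputable def phi (b : ℕ) (x : ℝ) : ℂ := ∑ t ∈ range b, e (t * x)

noncomputable def F (b L : ℕ) (α β : ℝ) : ℂ :=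
  ∑ n ∈ range (b ^ L), e (α * revL b L n + β * n)

/-- splitting off the last digit -/
lemma sum_range_digit {M : Type*} [AddCommMonoid M] (b N : ℕ) (f : ℕ → M) :
    ∑ n ∈ range (b * N), f n = ∑ t ∈ range b, ∑ m ∈ range N, f (t + b * m) := by
  rw [← Finset.sum_product']
  symm
  rcases Nat.eq_zero_or_pos b with hb | hb
  · subst hb; simp
  refine Finset.sum_nbij' (fun p => p.1 + b * p.2) (fun n => (n % b, n / b)) ?_ ?_ ?_ ?_ ?_
  · intro p hp
    simp only [mem_product, mem_range] at hp ⊢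
    have : b * (p.2 + 1) ≤ b * N := Nat.mul_le_mul_left _ hp.2
    nlinarith
  · intro n hn
    simp only [mem_product, mem_range] at hn ⊢
    exact ⟨Nat.mod_lt _ hb, Nat.div_lt_of_lt_mul hn⟩
  · intro p hp
    simp only [mem_product, mem_range] at hp
    ext
    · simp [Nat.add_mul_mod_self_left, Nat.mod_eq_of_lt hp.1]
    · simp only
      rw [Nat.add_mul_div_left _ _ hb, Nat.div_eq_of_lt hp.1, zero_add]
  · intro n _
    simp only
    exact Nat.mod_add_div n b
  · intro p _
    rfl

lemma F_succ {b : ℕ} (hb : 0 < b) (L : ℕ) (α β : ℝ) :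
    F b (L + 1) α β = phi b (α * b ^ L + β) * F b L α (b * β) := by
  unfold F phi
  rw [pow_succ, mul_comm (b ^ L) b, sum_range_digit, Finset.sum_mul_sum]
  refine sum_congr rfl fun t ht => sum_congr rfl fun m _ => ?_
  have ht' := mem_range.1 ht
  rw [← e_add]
  congr 1
  rw [revL, Nat.add_mul_mod_self_left, Nat.mod_eq_of_lt ht', Nat.add_mul_div_left _ _ hb,
    Nat.div_eq_of_lt ht', zero_add]
  push_cast
  ring

/-- the product of the digit sums -/
noncomputable def P (b : ℕ) (θ : ℕ → ℝ) (β : ℝ) (K : ℕ) : ℝ :=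
  ∏ i ∈ range K, ‖phi b (θ i + b ^ i * β)‖

lemma norm_F {b : ℕ} (hb : 0 < b) (α : ℝ) : ∀ (L : ℕ) (β : ℝ),
    ‖F b L α β‖ = P b (fun i => α * b ^ (L - 1 - i)) β L
  | 0, β => by simp [F, P, revL, norm_e]
  | L + 1, β => by
    rw [F_succ hb, norm_mul, norm_F hb α L (b * β)]
    unfold P
    rw [prod_range_succ']
    rw [mul_comm]
    congr 1
    · refine prod_congr rfl fun i hi => ?_
      have := mem_range.1 hi
      have h1 : L + 1 - 1 - (i + 1) = L - 1 - i := by omega
      simp only [h1]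
      congr 3
      rw [pow_succ]
      ring
    · simp

lemma norm_phi_le (b : ℕ) (x : ℝ) : ‖phi b x‖ ≤ b := by
  unfold phi
  refine (norm_sum_le _ _).trans ?_
  simp [norm_e]

lemma phi_add_int (b : ℕ) (x : ℝ) (k : ℤ) : phi b (x + k) = phi b x := by
  unfold phi
  refine sum_congr rfl fun t _ => ?_
  rw [mul_add]
  have : (t : ℝ) * (k : ℝ) = (((t : ℤ) * k : ℤ) : ℝ) := by push_cast; ring
  rw [this, e_add_int]

/-- the reversal modulo `b ^ 2 - 1` -/
lemma revL_modEq {b : ℕ} (hb : 1 ≤ b) : ∀ L n, n < b ^ L →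
    b * revL b L n ≡ b ^ L * n [MOD (b ^ 2 - 1)]
  | 0, n, hn => by
    have : n = 0 := by simpa using hn
    subst this
    simp [revL, Nat.ModEq]
  | L + 1, n, hn => by
    have hb2 : b ^ 2 ≡ 1 [MOD (b ^ 2 - 1)] := by
      have h1 : 1 ≤ b ^ 2 := Nat.one_le_pow _ _ hb
      exact ((Nat.modEq_iff_dvd' h1).2 dvd_rfl).symm
    have hlt : n / b < b ^ L := by
      rw [pow_succ] at hn
      exact Nat.div_lt_of_lt_mul (by rwa [mul_comm] at hn)
    have ih := revL_modEq hb L (n / b) hlt
    have hn' : n = b * (n / b) + n % b := (Nat.div_add_mod n b).symm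
    rw [revL]
    calc b * ((n % b) * b ^ L + revL b L (n / b))
        = b ^ (L + 1) * (n % b) + b * revL b L (n / b) := by rw [pow_succ]; ring
      _ ≡ b ^ (L + 1) * (n % b) + b ^ L * (n / b) [MOD (b ^ 2 - 1)] :=
          Nat.ModEq.add_left _ ih
      _ ≡ b ^ (L + 1) * (n % b) + b ^ 2 * (b ^ L * (n / b)) [MOD (b ^ 2 - 1)] := by
          refine Nat.ModEq.add_left _ ?_
          have := (hb2.symm.mul_right (b ^ L * (n / b)))
          rwa [one_mul] at this
      _ = b ^ (L + 1) * n := by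
          conv_rhs => rw [hn']
          rw [pow_succ]
          ring

end Pool.Agent.V11294.RP
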