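import Mathlib
import Pool.Agent.V11294.RP.Basic

set_option autoImplicit false

/-! Bounds for the digit sum `phi`. -/

namespace Pool.Agent.V11294.RP

open Finset

lemma norm_e_sub (x y : ℝ) : ‖e x - e y‖ ≤ 7 * |x - y| := by
  have h1 : e x - e y = e y * (Complex.exp (Complex.I * ((2 * Real.pi * (x - y) : ℝ) : ℂ)) - 1) := by
    have h2 : e x = e y * e (x - y) := by rw [← e_add]; congr 1; ring
    rw [h2]
    have h3 : e (x - y) = Complex.exp (Complex.I * ((2 * Real.pi * (x - y) : ℝ) : ℂ)) := by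
      unfold e
      congr 1
      push_cast
      ring
    rw [h3]
    ring
  rw [h1, norm_mul, norm_e, one_mul]
  refine (Real.norm_exp_I_mul_ofReal_sub_one_le (x := 2 * Real.pi * (x - y))).trans ?_
  rw [Real.norm_eq_abs, abs_mul, abs_mul, abs_of_pos Real.pi_pos, abs_of_pos (by norm_num : (0:ℝ) < 2)]
  have : 2 * Real.pi ≤ 7 := by linarith [Real.pi_lt_d2]
  exact mul_le_mul_of_nonneg_right this (abs_nonneg _)

lemma phi_lip (b : ℕ) (x y : ℝ) : ‖phi b x‖ ≤ ‖phi b y‖ + 7 * b ^ 2 * |x - y| := by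
  have h1 : ‖phi b x - phi b y‖ ≤ 7 * b ^ 2 * |x - y| := by
    unfold phi
    rw [← sum_sub_distrib]
    refine (norm_sum_le _ _).trans ?_
    calc ∑ t ∈ range b, ‖e (t * x) - e (t * y)‖ ≤ ∑ t ∈ range b, 7 * (b * |x - y|) := by
          refine sum_le_sum fun t ht => ?_
          refine (norm_e_sub _ _).trans ?_
          have : |(t : ℝ) * x - t * y| = t * |x - y| := by
            rw [← mul_sub, abs_mul, abs_of_nonneg (Nat.cast_nonneg t)]
          rw [this]
          have ht' : (t : ℝ) ≤ b := by exact_mod_cast (mem_range.1 ht).le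
          have := mul_le_mul_of_nonneg_right ht' (abs_nonneg (x - y))
          linarith
      _ = 7 * b ^ 2 * |x - y| := by
          rw [sum_const, card_range, nsmul_eq_mul]
          ring
  have h2 : ‖phi b x‖ ≤ ‖phi b y‖ + ‖phi b x - phi b y‖ := by
    have := norm_add_le (phi b y) (phi b x - phi b y)
    rwa [add_sub_cancel] at this
  linarith

/-- sums of `e` over complete residue systems -/
lemma sum_e (n : ℕ) (hn : 0 < n) (h : ℤ) :
    ∑ k ∈ range n, e (h * k / n) = if (n : ℤ) ∣ h then (n : ℂ) else 0 := by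
  have hn' : (n : ℝ) ≠ 0 := by positivity
  split_ifs with hd
  · obtain ⟨c, rfl⟩ := hd
    have : ∀ k ∈ range n, e (((n * c : ℤ) : ℝ) * k / n) = 1 := by
      intro k _
      have : (((n * c : ℤ) : ℝ) * k / n) = ((c * k : ℤ) : ℝ) := by
        push_cast
        field_simp
      rw [this, e_int]
    rw [sum_congr rfl this]
    simp
  · have hpow : ∀ k : ℕ, e (h * k / n) = (e (h / n)) ^ k := by
      intro k
      unfold e
      rw [← Complex.exp_nat_mul]
      congr 1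
      push_cast
      ring
    simp_rw [hpow]
    have hne : e ((h : ℝ) / n) ≠ 1 := by
      intro h1
      unfold e at h1
      rw [Complex.exp_eq_one_iff] at h1
      obtain ⟨m, hm⟩ := h1
      have hpi : (2 * Real.pi * Complex.I : ℂ) ≠ 0 := Complex.two_pi_I_ne_zero
      have h2 : (((h : ℝ) / n : ℝ) : ℂ) = m := by
        have : (2 * Real.pi * Complex.I : ℂ) * (((h : ℝ) / n : ℝ) : ℂ) =
          (2 * Real.pi * Complex.I : ℂ) * m := by rw [hm]; ring
        exact mul_left_cancel₀ hpi this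
      have h3 : ((h : ℝ) / n : ℝ) = (m : ℝ) := by exact_mod_cast h2
      rw [div_eq_iff hn'] at h3
      have h4 : h = m * n := by exact_mod_cast h3
      exact hd ⟨m, by rw [h4]; ring⟩
    rw [geom_sum_eq hne]
    have : e ((h : ℝ) / n) ^ n = 1 := by
      rw [← hpow]
      have : ((h : ℝ) * n / n) = (h : ℝ) := by field_simp
      rw [this, e_int]
    rw [this]
    simp

lemma phi_sq (b : ℕ) (x : ℝ) : ((‖phi b x‖ ^ 2 : ℝ) : ℂ) =
    ∑ s ∈ range b, ∑ t ∈ range b, e (((s : ℤ) - t : ℤ) * x) := by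
  have h1 : ((‖phi b x‖ ^ 2 : ℝ) : ℂ) = phi b x * (starRingEnd ℂ) (phi b x) := by
    rw [Complex.mul_conj, Complex.normSq_eq_norm_sq]
  rw [h1]
  unfold phi
  rw [map_sum, sum_mul_sum]
  refine sum_congr rfl fun s _ => sum_congr rfl fun t _ => ?_
  rw [← e_neg, ← e_add]
  congr 1
  push_cast
  ring

/-- twisted mean squares over equally spaced points -/
lemma sum_phi_sq (b n : ℕ) (hn : 0 < n) (x : ℝ) (h : ℤ) :
    ∑ k ∈ range n, ((‖phi b (x + k / n)‖ ^ 2 : ℝ) : ℂ) * e (-(h * k / n)) =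
      ∑ s ∈ range b, ∑ t ∈ range b,
        if (n : ℤ) ∣ ((s : ℤ) - t - h) then (n : ℂ) * e (((s : ℤ) - t : ℤ) * x) else 0 := by
  simp_rw [phi_sq, sum_mul]
  rw [sum_comm]
  refine sum_congr rfl fun s _ => ?_
  rw [sum_comm]
  refine sum_congr rfl fun t _ => ?_
  have h1 : ∀ k ∈ range n, e (((s : ℤ) - t : ℤ) * (x + k / n)) * e (-(h * k / n)) =
      e (((s : ℤ) - t : ℤ) * x) * e (((s : ℤ) - t - h : ℤ) * k / n) := by
    intro k _
    rw [← e_add, ← e_add]
    congr 1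
    push_cast
    ring
  rw [sum_congr rfl h1, ← mul_sum, sum_e n hn]
  split_ifs <;> ring

lemma sum_phi_sq_b {b : ℕ} (hb : 0 < b) (x : ℝ) :
    ∑ k ∈ range b, ‖phi b (x + k / b)‖ ^ 2 = (b : ℝ) ^ 2 := by
  have h := sum_phi_sq b b hb x 0
  have h1 : ∀ s ∈ range b, ∀ t ∈ range b,
      (if (b : ℤ) ∣ ((s : ℤ) - t - 0) then (b : ℂ) * e (((s : ℤ) - t : ℤ) * x) else 0) =
      if s = t then (b : ℂ) else 0 := by
    intro s hs t ht
    have hs' := mem_range.1 hs
    have ht' := mem_range.1 ht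
    by_cases hst : s = t
    · subst hst; simp [e_zero]
    · rw [if_neg hst, if_neg]
      intro hd
      have : ((s : ℤ) - t - 0) = 0 := Int.eq_zero_of_abs_lt_dvd hd (by rw [abs_lt]; omega)
      omega
  rw [sum_congr rfl fun s hs => sum_congr rfl (h1 s hs)] at h
  simp only [Int.cast_zero, zero_mul, zero_div, neg_zero, e_zero, mul_one] at h
  have h2 : ∑ s ∈ range b, ∑ t ∈ range b, (if s = t then (b : ℂ) else 0) = (b : ℂ) ^ 2 := by
    have : ∀ s ∈ range b, ∑ t ∈ range b, (if s = t then (b : ℂ) else 0) = b := by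
      intro s hs
      rw [sum_ite_eq, if_pos hs]
    rw [sum_congr rfl this, sum_const, card_range, nsmul_eq_mul, pow_two]
  rw [h2] at h
  exact_mod_cast h

lemma sum_phi_sq_b2 {b : ℕ} (hb : 2 ≤ b) (x : ℝ) :
    ∑ k ∈ range (b ^ 2), ‖phi b (x + k / ((b ^ 2 : ℕ) : ℝ))‖ ^ 2 = (b : ℝ) ^ 3 := by
  have hpos : 0 < b ^ 2 := by positivity
  have h := sum_phi_sq b (b ^ 2) hpos x 0
  have h1 : ∀ s ∈ range b, ∀ t ∈ range b,
      (if ((b ^ 2 : ℕ) : ℤ) ∣ ((s : ℤ) - t - 0) then ((b ^ 2 : ℕ) : ℂ) *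
        e (((s : ℤ) - t : ℤ) * x) else 0) = if s = t then ((b ^ 2 : ℕ) : ℂ) else 0 := by
    intro s hs t ht
    have hs' := mem_range.1 hs
    have ht' := mem_range.1 ht
    by_cases hst : s = t
    · subst hst; simp [e_zero]
    · rw [if_neg hst, if_neg]
      intro hd
      have hb' : (b : ℤ) ≤ ((b ^ 2 : ℕ) : ℤ) := by push_cast; nlinarith
      have : ((s : ℤ) - t - 0) = 0 := Int.eq_zero_of_abs_lt_dvd hd (by rw [abs_lt]; omega)
      omega
  rw [sum_congr rfl fun s hs => sum_congr rfl (h1 s hs)] at h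
  simp only [Int.cast_zero, zero_mul, zero_div, neg_zero, e_zero, mul_one] at h
  have h2 : ∑ s ∈ range b, ∑ t ∈ range b, (if s = t then ((b ^ 2 : ℕ) : ℂ) else 0) = (b : ℂ) ^ 3 := by
    have : ∀ s ∈ range b, ∑ t ∈ range b, (if s = t then ((b ^ 2 : ℕ) : ℂ) else 0) =
        ((b ^ 2 : ℕ) : ℂ) := by
      intro s hs
      rw [sum_ite_eq, if_pos hs]
    rw [sum_congr rfl this, sum_const, card_range, nsmul_eq_mul]
    push_cast
    ring
  rw [h2] at h
  exact_mod_cast h

/-- the first twisted mean does not vanish -/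
lemma sum_phi_twist {b : ℕ} (hb : 2 ≤ b) (x : ℝ) :
    ∑ k ∈ range (b ^ 2), ((‖phi b (x + k / ((b ^ 2 : ℕ) : ℝ))‖ ^ 2 : ℝ) : ℂ) *
      e (-((1 : ℤ) * k / ((b ^ 2 : ℕ) : ℝ))) = ((b : ℂ) ^ 2 * (b - 1)) * e x := by
  have hpos : 0 < b ^ 2 := by positivity
  rw [sum_phi_sq b (b ^ 2) hpos x 1]
  have h1 : ∀ s ∈ range b, ∀ t ∈ range b,
      (if ((b ^ 2 : ℕ) : ℤ) ∣ ((s : ℤ) - t - 1) then ((b ^ 2 : ℕ) : ℂ) *
        e (((s : ℤ) - t : ℤ) * x) else 0) =
        if s = t + 1 then ((b ^ 2 : ℕ) : ℂ) * e x else 0 := by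
    intro s hs t ht
    have hs' := mem_range.1 hs
    have ht' := mem_range.1 ht
    by_cases hst : s = t + 1
    · subst hst
      simp
    · rw [if_neg hst, if_neg]
      intro hd
      have hb' : (b : ℤ) < ((b ^ 2 : ℕ) : ℤ) := by push_cast; nlinarith
      have : ((s : ℤ) - t - 1) = 0 := Int.eq_zero_of_abs_lt_dvd hd (by rw [abs_lt]; omega)
      omega
  rw [sum_congr rfl fun s hs => sum_congr rfl (h1 s hs), sum_comm]
  have h2 : ∀ t ∈ range b, ∑ s ∈ range b, (if s = t + 1 then ((b ^ 2 : ℕ) : ℂ) * e x else 0) =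
      if t + 1 < b then ((b ^ 2 : ℕ) : ℂ) * e x else 0 := by
    intro t _
    rw [sum_ite_eq']
    simp
  rw [sum_congr rfl h2, ← sum_filter]
  have h3 : (range b).filter (fun t => t + 1 < b) = range (b - 1) := by
    ext t; simp; omega
  rw [h3, sum_const, card_range, nsmul_eq_mul]
  have h4 : ((b - 1 : ℕ) : ℂ) = (b : ℂ) - 1 := by
    rw [Nat.cast_sub (by omega)]; simp
  rw [h4]
  push_cast
  ring

end Pool.Agent.V11294.RP
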