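import Mathlib
import Pool.Agent.V11294.RP.Phi

set_option autoImplicit false

/-! Two-digit averages. -/

namespace Pool.Agent.V11294.RP

open Finset

lemma sum_phi_le {b : ℕ} (hb : 2 ≤ b) (x : ℝ) :
    2 * Real.sqrt b * ∑ k ∈ range (b ^ 2), ‖phi b (x + k / ((b ^ 2 : ℕ) : ℝ))‖ ≤
      2 * (b : ℝ) ^ 3 - 1 / 4 := by
  set v : ℕ → ℝ := fun k => ‖phi b (x + k / ((b ^ 2 : ℕ) : ℝ))‖ with hv
  set r := Real.sqrt b with hr
  have hb' : (2 : ℝ) ≤ b := by exact_mod_cast hb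
  have hrr : r * r = b := Real.mul_self_sqrt (by linarith)
  have hr0 : 0 ≤ r := Real.sqrt_nonneg _
  have hrb : r ≤ b := by nlinarith
  have hv0 : ∀ k, 0 ≤ v k := fun k => norm_nonneg _
  have hvb : ∀ k, v k ≤ b := fun k => norm_phi_le b _
  have hpos : 0 < b ^ 2 := by positivity
  -- L1 deviation
  have h1 : (b : ℝ) ^ 2 * (b - 1) ≤ ∑ k ∈ range (b ^ 2), |v k ^ 2 - b| := by
    have e1 := sum_phi_twist hb x
    have e2 : ∑ k ∈ range (b ^ 2), e (-((1 : ℤ) * k / ((b ^ 2 : ℕ) : ℝ))) = 0 := by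
      have e3 := sum_e (b ^ 2) hpos (-1)
      rw [if_neg] at e3
      · rw [← e3]
        refine sum_congr rfl fun k _ => ?_
        congr 1
        push_cast
        ring
      · intro hd
        have := Int.eq_zero_of_abs_lt_dvd hd (by
          have : (4 : ℤ) ≤ ((b ^ 2 : ℕ) : ℤ) := by push_cast; nlinarith
          rw [abs_neg, abs_one]; omega)
        omega
    have e4 : ∑ k ∈ range (b ^ 2), (((v k ^ 2 - b : ℝ) : ℂ)) *
        e (-((1 : ℤ) * k / ((b ^ 2 : ℕ) : ℝ))) = ((b : ℂ) ^ 2 * (b - 1)) * e x := by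
      have : ∀ k ∈ range (b ^ 2), (((v k ^ 2 - b : ℝ) : ℂ)) *
          e (-((1 : ℤ) * k / ((b ^ 2 : ℕ) : ℝ))) =
          ((‖phi b (x + k / ((b ^ 2 : ℕ) : ℝ))‖ ^ 2 : ℝ) : ℂ) *
            e (-((1 : ℤ) * k / ((b ^ 2 : ℕ) : ℝ))) - b * e (-((1 : ℤ) * k / ((b ^ 2 : ℕ) : ℝ))) := by
        intro k _
        rw [hv]
        push_cast
        ring
      rw [sum_congr rfl this, sum_sub_distrib, e1, ← mul_sum, e2]
      ring
    have e5 : ‖((b : ℂ) ^ 2 * (b - 1)) * e x‖ = (b : ℝ) ^ 2 * (b - 1) := by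
      rw [norm_mul, norm_e, mul_one]
      have : ((b : ℂ) ^ 2 * (b - 1)) = (((b : ℝ) ^ 2 * (b - 1) : ℝ) : ℂ) := by push_cast; ring
      rw [this, Complex.norm_real, Real.norm_eq_abs, abs_of_nonneg]
      have : 0 ≤ (b : ℝ) - 1 := by linarith
      positivity
    rw [← e5, ← e4]
    refine (norm_sum_le _ _).trans (le_of_eq (sum_congr rfl fun k _ => ?_))
    rw [norm_mul, norm_e, mul_one, Complex.norm_real, Real.norm_eq_abs]
  have h2 : ∑ k ∈ range (b ^ 2), |v k ^ 2 - b| ≤ 2 * b * ∑ k ∈ range (b ^ 2), |v k - r| := by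
    rw [mul_sum]
    refine sum_le_sum fun k _ => ?_
    have : v k ^ 2 - b = (v k - r) * (v k + r) := by rw [← hrr]; ring
    rw [this, abs_mul, abs_of_nonneg (add_nonneg (hv0 k) hr0), mul_comm]
    exact mul_le_mul_of_nonneg_right (by linarith [hvb k]) (abs_nonneg _)
  have h3 : (b : ℝ) * (b - 1) / 2 ≤ ∑ k ∈ range (b ^ 2), |v k - r| := by
    have hbpos : (0 : ℝ) < 2 * b := by linarith
    have := h1.trans h2
    have h4 : (2 * (b : ℝ)) * (b * (b - 1) / 2) = (b : ℝ) ^ 2 * (b - 1) := by ring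
    rw [← h4] at this
    exact le_of_mul_le_mul_left this hbpos
  have h5 : (∑ k ∈ range (b ^ 2), |v k - r|) ^ 2 ≤ (b : ℝ) ^ 2 * ∑ k ∈ range (b ^ 2), (v k - r) ^ 2 := by
    have := sq_sum_le_card_mul_sum_sq (s := range (b ^ 2)) (f := fun k => |v k - r|)
    simp only [card_range, sq_abs] at this
    push_cast at this
    exact this
  have h6 : 1 / 4 ≤ ∑ k ∈ range (b ^ 2), (v k - r) ^ 2 := by
    have h7 : ((b : ℝ) * (b - 1) / 2) ^ 2 ≤ (∑ k ∈ range (b ^ 2), |v k - r|) ^ 2 := by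
      apply pow_le_pow_left₀ _ h3
      have : 0 ≤ (b : ℝ) - 1 := by linarith
      positivity
    have h8 : (b : ℝ) ^ 2 * (1 / 4) ≤ ((b : ℝ) * (b - 1) / 2) ^ 2 := by
      have : (1 : ℝ) ≤ (b - 1) ^ 2 := by nlinarith
      nlinarith [sq_nonneg (b : ℝ)]
    have h9 : (0 : ℝ) < (b : ℝ) ^ 2 := by positivity
    exact le_of_mul_le_mul_left (h8.trans (h7.trans h5)) h9
  have h10 : ∑ k ∈ range (b ^ 2), (v k - r) ^ 2 =
      2 * (b : ℝ) ^ 3 - 2 * r * ∑ k ∈ range (b ^ 2), v k := by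
    have : ∀ k ∈ range (b ^ 2), (v k - r) ^ 2 = v k ^ 2 - 2 * r * v k + b := by
      intro k _
      rw [← hrr]; ring
    rw [sum_congr rfl this, sum_add_distrib, sum_sub_distrib, ← mul_sum, sum_const, card_range,
      nsmul_eq_mul]
    have := sum_phi_sq_b2 hb x
    rw [hv]
    simp only
    rw [this]
    push_cast
    ring
  linarith

/-- the two-digit average -/
lemma two_digit {b : ℕ} (hb : 2 ≤ b) (x y : ℝ) :
    ∑ k ∈ range (b ^ 2), ‖phi b (x + k / ((b ^ 2 : ℕ) : ℝ))‖ * ‖phi b (y + k / b)‖ ≤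
      (b : ℝ) ^ 3 - 1 / 16 := by
  have hb' : (2 : ℝ) ≤ b := by exact_mod_cast hb
  have hb0 : 0 < b := by omega
  have hbne : (b : ℝ) ≠ 0 := by positivity
  set r := Real.sqrt b with hr
  have hrr : r * r = b := Real.mul_self_sqrt (by linarith)
  have hr0 : 0 < r := Real.sqrt_pos.2 (by linarith)
  set G : ℕ → ℝ := fun t => ∑ m ∈ range b, ‖phi b (x + t / ((b ^ 2 : ℕ) : ℝ) + m / b)‖ with hG
  have hG0 : ∀ t, 0 ≤ G t := fun t => sum_nonneg fun _ _ => norm_nonneg _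
  have hGle : ∀ t, G t ≤ b * r := by
    intro t
    have h1 := sq_sum_le_card_mul_sum_sq (s := range b)
      (f := fun m => ‖phi b (x + t / ((b ^ 2 : ℕ) : ℝ) + (m : ℕ) / b)‖)
    rw [card_range, sum_phi_sq_b hb0] at h1
    have h2 : (b : ℝ) * (b : ℝ) ^ 2 = (b * r) ^ 2 := by
      rw [mul_pow, pow_two r, hrr]; ring
    rw [h2] at h1
    exact abs_le_of_sq_le_sq' h1 (by positivity) |>.2
  have hsplit : ∀ (f : ℕ → ℝ), ∑ k ∈ range (b ^ 2), f k =
      ∑ t ∈ range b, ∑ m ∈ range b, f (t + b * m) := by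
    intro f
    rw [pow_two, sum_range_digit]
  have hx : ∀ t m : ℕ, x + ((t + b * m : ℕ) : ℝ) / ((b ^ 2 : ℕ) : ℝ) =
      x + t / ((b ^ 2 : ℕ) : ℝ) + m / b := by
    intro t m
    push_cast
    field_simp
    ring
  have hy : ∀ t m : ℕ, phi b (y + ((t + b * m : ℕ) : ℝ) / b) = phi b (y + t / b) := by
    intro t m
    have : y + ((t + b * m : ℕ) : ℝ) / b = (y + t / b) + ((m : ℤ) : ℝ) := by
      push_cast
      field_simp
      ring
    rw [this, phi_add_int]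
  have h1 : ∑ k ∈ range (b ^ 2), ‖phi b (x + k / ((b ^ 2 : ℕ) : ℝ))‖ * ‖phi b (y + k / b)‖ =
      ∑ t ∈ range b, ‖phi b (y + t / b)‖ * G t := by
    rw [hsplit]
    refine sum_congr rfl fun t _ => ?_
    rw [hG]
    simp only
    rw [mul_sum]
    refine sum_congr rfl fun m _ => ?_
    rw [hx, hy]
    ring
  have h2 : ∑ t ∈ range b, G t = ∑ k ∈ range (b ^ 2), ‖phi b (x + k / ((b ^ 2 : ℕ) : ℝ))‖ := by
    rw [hsplit]
    refine sum_congr rfl fun t _ => ?_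
    rw [hG]
    refine sum_congr rfl fun m _ => ?_
    rw [hx]
  have h3 : (∑ t ∈ range b, ‖phi b (y + t / b)‖ * G t) ^ 2 ≤
      (∑ t ∈ range b, ‖phi b (y + t / b)‖ ^ 2) * ∑ t ∈ range b, G t ^ 2 :=
    sum_mul_sq_le_sq_mul_sq _ _ _
  rw [sum_phi_sq_b hb0] at h3
  have h4 : ∑ t ∈ range b, G t ^ 2 ≤ (b * r) * ∑ t ∈ range b, G t := by
    rw [mul_sum]
    refine sum_le_sum fun t _ => ?_
    rw [pow_two]
    exact mul_le_mul_of_nonneg_right (hGle t) (hG0 t)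
  have h5 := sum_phi_le hb x
  rw [← h2] at h5
  have h6 : (b * r) * ∑ t ∈ range b, G t ≤ b * ((b : ℝ) ^ 3 - 1 / 8) := by
    have : r * ∑ t ∈ range b, G t ≤ (b : ℝ) ^ 3 - 1 / 8 := by linarith
    calc (b * r) * ∑ t ∈ range b, G t = b * (r * ∑ t ∈ range b, G t) := by ring
      _ ≤ _ := mul_le_mul_of_nonneg_left this (by linarith)
  rw [h1]
  have h7 : (∑ t ∈ range b, ‖phi b (y + t / b)‖ * G t) ^ 2 ≤ ((b : ℝ) ^ 3 - 1 / 16) ^ 2 := by
    have h8 : (b : ℝ) ^ 2 * ∑ t ∈ range b, G t ^ 2 ≤ (b : ℝ) ^ 2 * (b * ((b : ℝ) ^ 3 - 1 / 8)) :=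
      mul_le_mul_of_nonneg_left (h4.trans h6) (by positivity)
    refine h3.trans (h8.trans ?_)
    nlinarith
  have h9 : (0 : ℝ) ≤ (b : ℝ) ^ 3 - 1 / 16 := by
    have : (2 : ℝ) ^ 3 ≤ (b : ℝ) ^ 3 := pow_le_pow_left₀ (by norm_num) hb' 3
    linarith
  exact (abs_le_of_sq_le_sq' h7 h9).2

/-- away from the integers `phi` is smaller -/
lemma phi_far {b : ℕ} (hb : 2 ≤ b) {x η : ℝ} (hη : 0 ≤ η) (hx : η ≤ |x - round x|) :
    ‖phi b x‖ ≤ b - 4 * η ^ 2 := by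
  set δ := x - round x with hδ
  have hδ2 : |δ| ≤ 1 / 2 := abs_sub_round x
  have h1 : ‖e 0 + e x‖ ^ 2 = 2 + 2 * Real.cos (2 * Real.pi * δ) := by
    have hxe : e x = e δ := by
      have : x = δ + (round x : ℤ) := by rw [hδ]; ring
      rw [this, e_add_int]
    rw [hxe, e_zero]
    have h2 : e δ = Complex.exp (((2 * Real.pi * δ : ℝ) : ℂ) * Complex.I) := by
      unfold e
      congr 1
      push_cast
      ring
    rw [h2, Complex.exp_mul_I, ← Complex.normSq_eq_norm_sq, Complex.normSq_apply]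
    simp only [Complex.add_re, Complex.one_re, Complex.mul_re, Complex.I_re, Complex.I_im,
      Complex.add_im, Complex.one_im, Complex.mul_im, ← Complex.ofReal_cos, ← Complex.ofReal_sin,
      Complex.ofReal_re, Complex.ofReal_im]
    have := Real.sin_sq_add_cos_sq (2 * Real.pi * δ)
    nlinarith
  have h3 : Real.cos (2 * Real.pi * δ) ≤ 1 - 8 * δ ^ 2 := by
    have h4 : Real.cos (2 * Real.pi * δ) = 1 - 2 * Real.sin (Real.pi * |δ|) ^ 2 := by
      have h5 : Real.cos (2 * Real.pi * δ) = Real.cos (2 * (Real.pi * |δ|)) := by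
        rcases abs_cases δ with h | h
        · rw [h.1]; ring_nf
        · rw [h.1, ← Real.cos_neg]; ring_nf
      rw [h5, Real.cos_two_mul]
      have := Real.sin_sq_add_cos_sq (Real.pi * |δ|)
      linarith
    have h6 : 2 * |δ| ≤ Real.sin (Real.pi * |δ|) := by
      have h7 := Real.mul_le_sin (x := Real.pi * |δ|) (by positivity)
        (by nlinarith [Real.pi_pos])
      have h8 : 2 / Real.pi * (Real.pi * |δ|) = 2 * |δ| := by
        field_simp
      rwa [h8] at h7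
    have h9 : (2 * |δ|) ^ 2 ≤ Real.sin (Real.pi * |δ|) ^ 2 :=
      pow_le_pow_left₀ (by positivity) h6 2
    rw [mul_pow, sq_abs] at h9
    rw [h4]
    linarith
  have h10 : ‖e 0 + e x‖ ≤ 2 - 4 * η ^ 2 := by
    have h11 : η ^ 2 ≤ δ ^ 2 := by
      rw [← sq_abs δ]
      exact pow_le_pow_left₀ hη hx 2
    have h12 : ‖e 0 + e x‖ ^ 2 ≤ (2 - 4 * η ^ 2) ^ 2 := by
      rw [h1]
      nlinarith [sq_nonneg (η ^ 2)]
    have h13 : 0 ≤ 2 - 4 * η ^ 2 := by
      have : δ ^ 2 ≤ (1 / 2) ^ 2 := by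
        rw [← sq_abs δ]
        exact pow_le_pow_left₀ (abs_nonneg _) hδ2 2
      nlinarith
    exact (abs_le_of_sq_le_sq' h12 h13).2
  have h14 : phi b x = (e 0 + e x) + ∑ t ∈ Ico 2 b, e (t * x) := by
    unfold phi
    rw [← sum_range_add_sum_Ico _ hb, sum_range_succ, sum_range_one]
    simp
  rw [h14]
  refine (norm_add_le _ _).trans ?_
  have h15 : ‖∑ t ∈ Ico 2 b, e (t * x)‖ ≤ (b : ℝ) - 2 := by
    refine (norm_sum_le _ _).trans ?_
    simp only [norm_e, sum_const, Nat.card_Ico, nsmul_eq_mul, mul_one]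
    rw [Nat.cast_sub hb]
    norm_num
  linarith

end Pool.Agent.V11294.RP
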