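import Mathlib
import Pool.Agent.V11294.RP.Phi2

set_option autoImplicit false

/-! Decay of the digit products over windows of digits. -/

namespace Pool.Agent.V11294.RP

open Finset

/-- among `w + 2` consecutive arguments one is far from the integers -/
lemma exists_far {b : ℕ} (hb : 2 ≤ b) {s : ℕ} (hs : 0 < s) {δ : ℝ} {x : ℕ → ℝ} {w i0 : ℕ}
    (hw : s ≤ b ^ w)
    (hδ : ∀ n : ℤ, 1 / (s : ℝ) ≤ |(b : ℝ) ^ i0 * δ - n|)
    (hrec : ∀ i, i0 ≤ i → i ≤ i0 + w → b * x (i + 1) - x i = (b : ℝ) ^ i * δ) :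
    ∃ j, i0 ≤ j ∧ j ≤ i0 + w + 1 ∧ 1 / (4 * (b : ℝ) ^ 2) ≤ |x j - round (x j)| := by
  by_contra hcon
  push Not at hcon
  have hb' : (2 : ℝ) ≤ b := by exact_mod_cast hb
  set η : ℝ := 1 / (4 * (b : ℝ) ^ 2) with hη
  have hη0 : 0 < η := by positivity
  set n : ℕ → ℤ := fun i => b * round (x (i + 1)) - round (x i) with hn
  have hclose : ∀ i, i0 ≤ i → i ≤ i0 + w → |(b : ℝ) ^ i * δ - n i| < (b + 1) * η := by
    intro i h1 h2
    have a1 := hcon i h1 (by omega)
    have a2 := hcon (i + 1) (by omega) (by omega)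
    rw [← hrec i h1 h2, hn]
    have e1 : (b : ℝ) * x (i + 1) - x i - ((b * round (x (i + 1)) - round (x i) : ℤ) : ℝ) =
        b * (x (i + 1) - round (x (i + 1))) - (x i - round (x i)) := by
      push_cast
      ring
    rw [e1]
    have e2 : |(b : ℝ) * (x (i + 1) - round (x (i + 1))) - (x i - round (x i))| ≤
        b * |x (i + 1) - round (x (i + 1))| + |x i - round (x i)| := by
      refine (abs_sub _ _).trans ?_
      rw [abs_mul, abs_of_nonneg (by linarith : (0:ℝ) ≤ b)]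
    have e3 : (b : ℝ) * |x (i + 1) - round (x (i + 1))| ≤ b * η :=
      mul_le_mul_of_nonneg_left a2.le (by linarith)
    linarith
  have hsmall : (b + 1) * ((b + 1) * η) < 1 := by
    rw [hη]
    have : (b + 1 : ℝ) * ((b + 1) * (1 / (4 * (b : ℝ) ^ 2))) = (b + 1) ^ 2 / (4 * b ^ 2) := by
      field_simp
    rw [this, div_lt_one (by positivity)]
    nlinarith
  have hstep : ∀ i, i0 ≤ i → i + 1 ≤ i0 + w → n (i + 1) = b * n i := by
    intro i h1 h2
    have a1 := hclose i h1 (by omega)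
    have a2 := hclose (i + 1) (by omega) h2
    have e1 : ((n (i + 1) - b * n i : ℤ) : ℝ) =
        b * ((b : ℝ) ^ i * δ - n i) - ((b : ℝ) ^ (i + 1) * δ - n (i + 1)) := by
      push_cast
      rw [pow_succ]
      ring
    have e2 : |((n (i + 1) - b * n i : ℤ) : ℝ)| < 1 := by
      rw [e1]
      refine lt_of_le_of_lt (abs_sub _ _) ?_
      rw [abs_mul, abs_of_nonneg (by linarith : (0:ℝ) ≤ b)]
      have e3 : (b : ℝ) * |(b : ℝ) ^ i * δ - n i| ≤ b * ((b + 1) * η) :=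
        mul_le_mul_of_nonneg_left a1.le (by linarith)
      nlinarith
    have e4 : |n (i + 1) - b * n i| < 1 := by exact_mod_cast e2
    have e5 := Int.abs_lt_one_iff.1 e4
    linarith
  have hpow : ∀ t, t ≤ w → (b : ℝ) ^ (i0 + t) * δ - n (i0 + t) =
      (b : ℝ) ^ t * ((b : ℝ) ^ i0 * δ - n i0) := by
    intro t
    induction t with
    | zero => intro _; simp
    | succ t ih =>
      intro ht
      have a1 := ih (by omega)
      have a2 := hstep (i0 + t) (by omega) (by omega)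
      rw [← add_assoc, a2, pow_succ, pow_succ]
      push_cast
      have : (b : ℝ) ^ (i0 + t) * b * δ - b * n (i0 + t) =
        b * ((b : ℝ) ^ (i0 + t) * δ - n (i0 + t)) := by ring
      rw [this, a1]
      ring
  have h1 := hclose (i0 + w) (by omega) le_rfl
  rw [hpow w le_rfl, abs_mul, abs_of_nonneg (by positivity : (0:ℝ) ≤ (b:ℝ)^w)] at h1
  have h2 := hδ (n i0)
  have h3 : (s : ℝ) ≤ (b : ℝ) ^ w := by exact_mod_cast hw
  have hs' : (0 : ℝ) < s := by exact_mod_cast hs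
  have h4 : 1 ≤ (b : ℝ) ^ w * |(b : ℝ) ^ i0 * δ - n i0| := by
    calc (1 : ℝ) = s * (1 / s) := by field_simp
      _ ≤ (b : ℝ) ^ w * |(b : ℝ) ^ i0 * δ - n i0| := mul_le_mul h3 h2 (by positivity) (by positivity)
  nlinarith

/-- product over `v` windows -/
lemma window_prod {b : ℕ} (hb : 2 ≤ b) {s : ℕ} (hs : 0 < s) {δ : ℝ} {x : ℕ → ℝ} {w L : ℕ}
    (hw : s ≤ b ^ w)
    (hδ : ∀ i, 1 ≤ i → ∀ n : ℤ, 1 / (s : ℝ) ≤ |(b : ℝ) ^ i * δ - n|)
    (hrec : ∀ i, i + 1 < L → b * x (i + 1) - x i = (b : ℝ) ^ i * δ) (i0 : ℕ) (hi0 : 1 ≤ i0) :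
    ∀ v : ℕ, i0 + v * (w + 2) ≤ L →
      ∏ i ∈ Ico i0 (i0 + v * (w + 2)), ‖phi b (x i)‖ ≤
        ((b : ℝ) ^ (w + 2) * (1 - 1 / (4 * (b : ℝ) ^ 5))) ^ v := by
  have hb' : (2 : ℝ) ≤ b := by exact_mod_cast hb
  intro v
  induction v with
  | zero => intro _; simp
  | succ v ih =>
    intro hv
    have hv' : i0 + v * (w + 2) ≤ L := by
      have : (v + 1) * (w + 2) = v * (w + 2) + (w + 2) := by ring
      omega
    set a := i0 + v * (w + 2) with ha
    have haw : i0 + (v + 1) * (w + 2) = a + (w + 2) := by rw [ha]; ring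
    rw [haw] at hv ⊢
    rw [← prod_Ico_consecutive _ (show i0 ≤ a by omega) (show a ≤ a + (w + 2) by omega), pow_succ]
    obtain ⟨j, hj1, hj2, hj3⟩ := exists_far hb hs hw (hδ a (by omega))
      (fun i h1 h2 => hrec i (by omega))
    have hj : j ∈ Ico a (a + (w + 2)) := mem_Ico.2 ⟨hj1, by omega⟩
    have h1 : ∏ i ∈ Ico a (a + (w + 2)), ‖phi b (x i)‖ ≤
        (b : ℝ) ^ (w + 2) * (1 - 1 / (4 * (b : ℝ) ^ 5)) := by
      rw [← mul_prod_erase _ _ hj]
      have h2 := phi_far hb (by positivity) hj3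
      have h3 : ∏ i ∈ (Ico a (a + (w + 2))).erase j, ‖phi b (x i)‖ ≤ (b : ℝ) ^ (w + 1) := by
        calc ∏ i ∈ (Ico a (a + (w + 2))).erase j, ‖phi b (x i)‖
            ≤ ∏ _i ∈ (Ico a (a + (w + 2))).erase j, (b : ℝ) :=
              prod_le_prod (fun _ _ => norm_nonneg _) fun i _ => norm_phi_le b _
          _ = (b : ℝ) ^ (w + 1) := by
              rw [prod_const, card_erase_of_mem hj, Nat.card_Ico]
              congr 1
              omega
      have h4 : (b : ℝ) - 4 * (1 / (4 * (b : ℝ) ^ 2)) ^ 2 = b * (1 - 1 / (4 * (b : ℝ) ^ 5)) := by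
        field_simp
      rw [h4] at h2
      have h5 : (0 : ℝ) ≤ 1 - 1 / (4 * (b : ℝ) ^ 5) := by
        have : 1 / (4 * (b : ℝ) ^ 5) ≤ 1 := by
          rw [div_le_one (by positivity)]
          have : (1 : ℝ) ≤ (b : ℝ) ^ 5 := one_le_pow₀ (by linarith)
          linarith
        linarith
      calc ‖phi b (x j)‖ * ∏ i ∈ (Ico a (a + (w + 2))).erase j, ‖phi b (x i)‖
          ≤ (b * (1 - 1 / (4 * (b : ℝ) ^ 5))) * (b : ℝ) ^ (w + 1) :=
            mul_le_mul h2 h3 (prod_nonneg fun _ _ => norm_nonneg _) (by positivity)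
        _ = (b : ℝ) ^ (w + 2) * (1 - 1 / (4 * (b : ℝ) ^ 5)) := by
            rw [pow_succ (b : ℝ) (w + 1)]; ring
    have h6 : (0 : ℝ) ≤ ((b : ℝ) ^ (w + 2) * (1 - 1 / (4 * (b : ℝ) ^ 5))) ^ v := by
      apply pow_nonneg
      apply mul_nonneg (by positivity)
      have : 1 / (4 * (b : ℝ) ^ 5) ≤ 1 := by
        rw [div_le_one (by positivity)]
        have : (1 : ℝ) ≤ (b : ℝ) ^ 5 := one_le_pow₀ (by linarith)
        linarith
      linarith
    exact mul_le_mul (ih hv') h1 (prod_nonneg fun _ _ => norm_nonneg _) h6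

end Pool.Agent.V11294.RP
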