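import Mathlib
import Pool.Agent.V11294.RP.Phi2

set_option autoImplicit false

/-! The sum of the digit products over well spaced points. -/

namespace Pool.Agent.V11294.RP

open Finset

noncomputable def H (b : ℕ) (θ : ℕ → ℝ) (K j : ℕ) : ℝ :=
  ∏ i ∈ range K, (‖phi b (θ i + b ^ i * ((j : ℝ) / b ^ K))‖ + 7 * b ^ 2 * ((b : ℝ) ^ i / b ^ K))

noncomputable def T (b : ℕ) (θ : ℕ → ℝ) (K : ℕ) : ℝ := ∑ j ∈ range (b ^ K), H b θ K j

lemma H_nonneg (b : ℕ) (θ : ℕ → ℝ) (K j : ℕ) : 0 ≤ H b θ K j := by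
  unfold H
  exact prod_nonneg fun i _ => by positivity

lemma T_nonneg (b : ℕ) (θ : ℕ → ℝ) (K : ℕ) : 0 ≤ T b θ K :=
  sum_nonneg fun _ _ => H_nonneg _ _ _ _

lemma inner_le {b : ℕ} (hb : 2 ≤ b) (x y u : ℝ) (hu0 : 0 ≤ u) (hu1 : u ≤ 1) :
    ∑ k ∈ range (b ^ 2), (‖phi b (x + k / ((b ^ 2 : ℕ) : ℝ))‖ + 7 * u) *
      (‖phi b (y + k / b)‖ + 7 * b * u) ≤ (b : ℝ) ^ 3 - 1 / 16 + 35 * b ^ 4 * u := by
  have hb' : (2 : ℝ) ≤ b := by exact_mod_cast hb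
  have h1 : ∀ k ∈ range (b ^ 2), (‖phi b (x + k / ((b ^ 2 : ℕ) : ℝ))‖ + 7 * u) *
      (‖phi b (y + k / b)‖ + 7 * b * u) ≤
      ‖phi b (x + k / ((b ^ 2 : ℕ) : ℝ))‖ * ‖phi b (y + k / b)‖ + 35 * b ^ 2 * u := by
    intro k _
    have a1 := norm_phi_le b (x + k / ((b ^ 2 : ℕ) : ℝ))
    have a2 := norm_phi_le b (y + k / b)
    have a3 := norm_nonneg (phi b (x + k / ((b ^ 2 : ℕ) : ℝ)))
    have a4 := norm_nonneg (phi b (y + k / b))
    set p := ‖phi b (x + k / ((b ^ 2 : ℕ) : ℝ))‖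
    set q := ‖phi b (y + k / b)‖
    have b1 : (p + 7 * u) * (q + 7 * b * u) = p * q + (p * (7 * b) + 7 * q + 49 * b * u) * u := by
      ring
    rw [b1]
    have b2 : p * (7 * b) + 7 * q + 49 * b * u ≤ 35 * b ^ 2 := by
      have c1 : p * (7 * b) ≤ b * (7 * b) := mul_le_mul_of_nonneg_right a1 (by linarith)
      have c2 : 49 * b * u ≤ 49 * b := by
        have : 49 * (b : ℝ) * u ≤ 49 * b * 1 := mul_le_mul_of_nonneg_left hu1 (by linarith)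
        linarith
      nlinarith
    have b3 := mul_le_mul_of_nonneg_right b2 hu0
    linarith
  refine (sum_le_sum h1).trans ?_
  rw [sum_add_distrib, sum_const, card_range, nsmul_eq_mul]
  have h2 := two_digit hb x y
  push_cast at h2 ⊢
  nlinarith

lemma T_succ {b : ℕ} (hb : 2 ≤ b) (K : ℕ) (C : ℝ) (hC : ∀ θ, T b θ K ≤ C) (θ : ℕ → ℝ) :
    T b θ (K + 2) ≤ ((b : ℝ) ^ 3 - 1 / 16 + 35 * b ^ 4 * (1 / b ^ K)) * C := by
  have hb' : (2 : ℝ) ≤ b := by exact_mod_cast hb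
  have hb0 : (b : ℝ) ≠ 0 := by positivity
  unfold T
  rw [pow_add, sum_range_digit]
  have hH : ∀ t m : ℕ, H b θ (K + 2) (t + b ^ K * m) =
      (‖phi b ((θ 0 + t / b ^ (K + 2)) + m / ((b ^ 2 : ℕ) : ℝ))‖ + 7 * (1 / b ^ K)) *
      (‖phi b ((θ 1 + t / b ^ (K + 1)) + m / b)‖ + 7 * b * (1 / b ^ K)) *
        H b (fun i => θ (i + 2)) K t := by
    intro t m
    unfold H
    rw [prod_range_succ', prod_range_succ', mul_comm, mul_comm (∏ k ∈ range K, _), ← mul_assoc]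
    congr 1
    · congr 1
      · congr 1
        · congr 2
          push_cast
          field_simp
          ring
        · field_simp
          ring
      · congr 1
        · congr 2
          push_cast
          field_simp
          ring
        · push_cast
          field_simp
          ring
    · refine prod_congr rfl fun i _ => ?_
      congr 1
      · have : θ (i + 1 + 1) + (b : ℝ) ^ (i + 1 + 1) * (((t + b ^ K * m : ℕ) : ℝ) / b ^ (K + 2)) =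
            (θ (i + 2) + (b : ℝ) ^ i * ((t : ℝ) / b ^ K)) + (((b ^ i * m : ℕ) : ℤ) : ℝ) := by
          push_cast
          field_simp
          ring
        rw [this, phi_add_int]
      · field_simp
        ring
  have h1 : ∀ t ∈ range (b ^ K), ∑ m ∈ range (b ^ 2), H b θ (K + 2) (t + b ^ K * m) ≤
      ((b : ℝ) ^ 3 - 1 / 16 + 35 * b ^ 4 * (1 / b ^ K)) * H b (fun i => θ (i + 2)) K t := by
    intro t _
    rw [sum_congr rfl fun m _ => hH t m, ← sum_mul]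
    refine mul_le_mul_of_nonneg_right ?_ (H_nonneg _ _ _ _)
    have hu0 : (0 : ℝ) ≤ 1 / b ^ K := by positivity
    have hu1 : (1 : ℝ) / b ^ K ≤ 1 := by
      rw [div_le_one (by positivity)]
      exact one_le_pow₀ (by linarith)
    exact inner_le hb _ _ _ hu0 hu1
  refine (sum_le_sum h1).trans ?_
  rw [← mul_sum]
  refine mul_le_mul_of_nonneg_left (hC _) ?_
  have : (2 : ℝ) ^ 3 ≤ (b : ℝ) ^ 3 := pow_le_pow_left₀ (by norm_num) hb' 3
  have h2 : (0 : ℝ) ≤ 35 * b ^ 4 * (1 / b ^ K) := by positivity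
  linarith

lemma T_le {b : ℕ} (hb : 2 ≤ b) (k : ℕ) (θ : ℕ → ℝ) :
    T b θ (2 * k) ≤ Real.exp (70 * b ^ 4) * ((b : ℝ) ^ 3 - 1 / 16) ^ k := by
  have hb' : (2 : ℝ) ≤ b := by exact_mod_cast hb
  have hρ : (1 : ℝ) ≤ (b : ℝ) ^ 3 - 1 / 16 := by
    have : (2 : ℝ) ^ 3 ≤ (b : ℝ) ^ 3 := pow_le_pow_left₀ (by norm_num) hb' 3
    linarith
  have key : ∀ k : ℕ, ∀ θ, T b θ (2 * k) ≤
      Real.exp (35 * b ^ 4 * ∑ i ∈ range k, (1 / 2 : ℝ) ^ i) * ((b : ℝ) ^ 3 - 1 / 16) ^ k := by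
    intro k
    induction k with
    | zero => intro θ; simp [T, H]
    | succ k ih =>
      intro θ
      have h1 := T_succ hb (2 * k) _ ih θ
      rw [show 2 * (k + 1) = 2 * k + 2 by ring]
      refine h1.trans ?_
      rw [sum_range_succ, mul_add, Real.exp_add, pow_succ]
      have h2 : (b : ℝ) ^ 3 - 1 / 16 + 35 * b ^ 4 * (1 / b ^ (2 * k)) ≤
          ((b : ℝ) ^ 3 - 1 / 16) * Real.exp (35 * b ^ 4 * (1 / 2 : ℝ) ^ k) := by
        have h3 : 1 + 35 * (b : ℝ) ^ 4 * (1 / 2 : ℝ) ^ k ≤ Real.exp (35 * b ^ 4 * (1 / 2 : ℝ) ^ k) := by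
          rw [add_comm]; exact Real.add_one_le_exp _
        have h4 : (1 : ℝ) / b ^ (2 * k) ≤ (1 / 2) ^ k := by
          rw [one_div_pow]
          apply one_div_le_one_div_of_le (by positivity)
          calc (2 : ℝ) ^ k ≤ (b : ℝ) ^ k := pow_le_pow_left₀ (by norm_num) hb' k
            _ ≤ (b : ℝ) ^ (2 * k) := pow_le_pow_right₀ (by linarith) (by omega)
        have h5 : (0 : ℝ) ≤ 35 * b ^ 4 := by positivity
        have h6 : (0 : ℝ) ≤ 35 * b ^ 4 * (1 / 2 : ℝ) ^ k := by positivity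
        calc (b : ℝ) ^ 3 - 1 / 16 + 35 * b ^ 4 * (1 / b ^ (2 * k))
            ≤ ((b : ℝ) ^ 3 - 1 / 16) + 35 * b ^ 4 * (1 / 2) ^ k := by
              have := mul_le_mul_of_nonneg_left h4 h5
              linarith
          _ ≤ ((b : ℝ) ^ 3 - 1 / 16) + ((b : ℝ) ^ 3 - 1 / 16) * (35 * b ^ 4 * (1 / 2) ^ k) := by
              have := mul_le_mul_of_nonneg_right hρ h6
              linarith
          _ = ((b : ℝ) ^ 3 - 1 / 16) * (1 + 35 * b ^ 4 * (1 / 2) ^ k) := by ring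
          _ ≤ _ := mul_le_mul_of_nonneg_left h3 (by linarith)
      calc ((b : ℝ) ^ 3 - 1 / 16 + 35 * b ^ 4 * (1 / b ^ (2 * k))) *
            (Real.exp (35 * b ^ 4 * ∑ i ∈ range k, (1 / 2 : ℝ) ^ i) * ((b : ℝ) ^ 3 - 1 / 16) ^ k)
          ≤ (((b : ℝ) ^ 3 - 1 / 16) * Real.exp (35 * b ^ 4 * (1 / 2 : ℝ) ^ k)) *
            (Real.exp (35 * b ^ 4 * ∑ i ∈ range k, (1 / 2 : ℝ) ^ i) * ((b : ℝ) ^ 3 - 1 / 16) ^ k) := by
            refine mul_le_mul_of_nonneg_right h2 ?_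
            have : (0 : ℝ) ≤ ((b : ℝ) ^ 3 - 1 / 16) ^ k := pow_nonneg (by linarith) _
            positivity
        _ = _ := by ring
  refine (key k θ).trans ?_
  refine mul_le_mul_of_nonneg_right ?_ (pow_nonneg (by linarith) _)
  rw [Real.exp_le_exp]
  have h1 : ∑ i ∈ range k, (1 / 2 : ℝ) ^ i ≤ 2 := by
    have := geom_sum_eq (x := (1 / 2 : ℝ)) (by norm_num) k
    rw [this]
    have h2 : (0 : ℝ) ≤ (1 / 2) ^ k := by positivity
    have h3 : ((1 / 2 : ℝ) ^ k - 1) / (1 / 2 - 1) = 2 - 2 * (1 / 2) ^ k := by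
      field_simp
      ring
    rw [h3]
    linarith
  have h5 : (0 : ℝ) ≤ 35 * b ^ 4 := by positivity
  nlinarith

lemma P_le_H {b : ℕ} (hb : 2 ≤ b) (θ : ℕ → ℝ) (K : ℕ) {β : ℝ} (h0 : 0 ≤ β) :
    P b θ β K ≤ H b θ K ⌊(b : ℝ) ^ K * β⌋₊ := by
  have hb' : (2 : ℝ) ≤ b := by exact_mod_cast hb
  have hK : (0 : ℝ) < (b : ℝ) ^ K := by positivity
  unfold P H
  refine prod_le_prod (fun _ _ => norm_nonneg _) fun i _ => ?_
  refine (phi_lip b _ (θ i + b ^ i * ((⌊(b : ℝ) ^ K * β⌋₊ : ℝ) / b ^ K))).trans ?_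
  have h1 : |θ i + (b : ℝ) ^ i * β - (θ i + b ^ i * ((⌊(b : ℝ) ^ K * β⌋₊ : ℝ) / b ^ K))| ≤
      (b : ℝ) ^ i / b ^ K := by
    have e1 : θ i + (b : ℝ) ^ i * β - (θ i + b ^ i * ((⌊(b : ℝ) ^ K * β⌋₊ : ℝ) / b ^ K)) =
        (b : ℝ) ^ i / b ^ K * ((b : ℝ) ^ K * β - ⌊(b : ℝ) ^ K * β⌋₊) := by
      field_simp
      ring
    rw [e1, abs_mul, abs_of_pos (by positivity)]
    have h2 := Nat.floor_le (show 0 ≤ (b : ℝ) ^ K * β by positivity)
    have h3 := Nat.lt_floor_add_one ((b : ℝ) ^ K * β)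
    have h4 : |(b : ℝ) ^ K * β - ⌊(b : ℝ) ^ K * β⌋₊| ≤ 1 := by
      rw [abs_le]; constructor <;> linarith
    calc (b : ℝ) ^ i / b ^ K * |(b : ℝ) ^ K * β - ⌊(b : ℝ) ^ K * β⌋₊|
        ≤ (b : ℝ) ^ i / b ^ K * 1 := mul_le_mul_of_nonneg_left h4 (by positivity)
      _ = _ := mul_one _
  have h5 : (0 : ℝ) ≤ 7 * b ^ 2 := by positivity
  have := mul_le_mul_of_nonneg_left h1 h5
  linarith

lemma sum_points {b : ℕ} (hb : 2 ≤ b) (θ : ℕ → ℝ) (K : ℕ) {ι : Type*} (S : Finset ι)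
    (β : ι → ℝ) (h01 : ∀ i ∈ S, 0 ≤ β i ∧ β i < 1)
    (hsep : ∀ i ∈ S, ∀ j ∈ S, i ≠ j → 1 / (b : ℝ) ^ K ≤ |β i - β j|) :
    ∑ i ∈ S, P b θ (β i) K ≤ T b θ K := by
  classical
  have hK : (0 : ℝ) < (b : ℝ) ^ K := by positivity
  have hinj : Set.InjOn (fun i => ⌊(b : ℝ) ^ K * β i⌋₊) (S : Set ι) := by
    intro i hi j hj hij
    by_contra hne
    have h1 := hsep i hi j hj hne
    have h2 : ⌊(b : ℝ) ^ K * β i⌋₊ = ⌊(b : ℝ) ^ K * β j⌋₊ := hij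
    have a1 := Nat.floor_le (show 0 ≤ (b : ℝ) ^ K * β i from mul_nonneg hK.le (h01 i hi).1)
    have a2 := Nat.lt_floor_add_one ((b : ℝ) ^ K * β i)
    have a3 := Nat.floor_le (show 0 ≤ (b : ℝ) ^ K * β j from mul_nonneg hK.le (h01 j hj).1)
    have a4 := Nat.lt_floor_add_one ((b : ℝ) ^ K * β j)
    rw [h2] at a1 a2
    have h3 : |(b : ℝ) ^ K * β i - (b : ℝ) ^ K * β j| < 1 := by
      rw [abs_lt]; constructor <;> linarith
    rw [← mul_sub, abs_mul, abs_of_pos hK] at h3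
    have h4 := mul_le_mul_of_nonneg_left h1 hK.le
    rw [mul_one_div_cancel hK.ne'] at h4
    linarith
  calc ∑ i ∈ S, P b θ (β i) K ≤ ∑ i ∈ S, H b θ K ⌊(b : ℝ) ^ K * β i⌋₊ :=
        sum_le_sum fun i hi => P_le_H hb θ K (h01 i hi).1
    _ = ∑ j ∈ S.image (fun i => ⌊(b : ℝ) ^ K * β i⌋₊), H b θ K j := (sum_image hinj).symm
    _ ≤ T b θ K := by
        unfold T
        refine sum_le_sum_of_subset_of_nonneg ?_ fun _ _ _ => H_nonneg _ _ _ _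
        intro j hj
        obtain ⟨i, hi, rfl⟩ := mem_image.1 hj
        rw [mem_range]
        rw [Nat.floor_lt (mul_nonneg hK.le (h01 i hi).1)]
        push_cast
        calc (b : ℝ) ^ K * β i < (b : ℝ) ^ K * 1 := mul_lt_mul_of_pos_left (h01 i hi).2 hK
          _ = _ := mul_one _

end Pool.Agent.V11294.RP
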