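import Mathlib
import Pool.Agent.V11294.RP.B1
import Pool.Agent.V11294.RP.B2

set_option autoImplicit false

/-! The sum of the exponential sums over the fractions with denominators in a `b`-adic block. -/

namespace Pool.Agent.V11294.RP

open Finset

/-- the reduced fractions `r / s` with `b ^ (k - 1) ≤ s < b ^ k`, `s > 1` prime to `b (b ^ 2 - 1)` -/
def PT (b k : ℕ) : Finset (ℕ × ℕ) :=
  ((Ico (b ^ (k - 1)) (b ^ k)) ×ˢ range (b ^ k)).filter
    (fun p => 1 < p.1 ∧ p.2 < p.1 ∧ Nat.Coprime p.2 p.1 ∧ Nat.Coprime p.1 (b * (b ^ 2 - 1)))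

lemma frac_sep {r s r' s' : ℕ} (hs : 0 < s) (hs' : 0 < s') (h : Nat.Coprime r s)
    (h' : Nat.Coprime r' s') (hne : (s, r) ≠ (s', r')) :
    1 / ((s : ℝ) * s') ≤ |(r : ℝ) / s - r' / s'| := by
  have hs1 : (0 : ℝ) < s := by exact_mod_cast hs
  have hs2 : (0 : ℝ) < s' := by exact_mod_cast hs'
  have h1 : (r : ℝ) / s - r' / s' = ((r * s' - r' * s : ℤ) : ℝ) / (s * s') := by
    push_cast
    field_simp
  rw [h1, abs_div, abs_of_pos (mul_pos hs1 hs2)]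
  apply div_le_div_of_nonneg_right _ (mul_pos hs1 hs2).le
  have h2 : (r * s' - r' * s : ℤ) ≠ 0 := by
    intro h0
    apply hne
    have h3 : r * s' = r' * s := by
      have : (r : ℤ) * s' = r' * s := by linarith
      exact_mod_cast this
    have h4 : s ∣ s' := by
      have : s ∣ r * s' := ⟨r', by rw [h3]; ring⟩
      exact (h.symm).dvd_of_dvd_mul_left this
    have h5 : s' ∣ s := by
      have : s' ∣ r' * s := ⟨r, by rw [← h3]; ring⟩
      exact (h'.symm).dvd_of_dvd_mul_left this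
    have h6 : s = s' := Nat.dvd_antisymm h4 h5
    subst h6
    have h7 : r = r' := Nat.eq_of_mul_eq_mul_right hs h3
    rw [h7]
  have h3 : 1 ≤ |(r * s' - r' * s : ℤ)| := Int.one_le_abs h2
  have h4 : ((1 : ℤ) : ℝ) ≤ ((|(r * s' - r' * s : ℤ)| : ℤ) : ℝ) := by exact_mod_cast h3
  rw [Int.cast_abs] at h4
  exact_mod_cast h4

/-- the pointwise bound -/
lemma norm_F_le {b : ℕ} (hb : 2 ≤ b) {k L v : ℕ} (hk : 1 ≤ k) (hv : 2 * k + v * (k + 2) ≤ L)
    (α γ : ℝ) (hγ : ∃ m : ℤ, (b : ℝ) * (b ^ 2 - 1) * γ = m) {r s : ℕ} (hs1 : 1 < s)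
    (hsb : s < b ^ k) (hrs : Nat.Coprime r s) (hsB : Nat.Coprime s (b * (b ^ 2 - 1))) :
    ‖F b L α ((r : ℝ) / s + γ)‖ ≤
      P b (fun i => α * b ^ (L - 1 - i) + b ^ i * γ) ((r : ℝ) / s) (2 * k) *
        ((b : ℝ) ^ (L - 2 * k) * (1 - 1 / (4 * (b : ℝ) ^ 5)) ^ v) := by
  have hb' : (2 : ℝ) ≤ b := by exact_mod_cast hb
  have hs0 : (0 : ℝ) < s := by positivity
  obtain ⟨m, hm⟩ := hγ
  rw [norm_F (by omega)]
  unfold P
  have hkL : 2 * k ≤ L := by omega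
  rw [← prod_range_mul_prod_Ico _ hkL]
  have h1 : ∏ i ∈ range (2 * k), ‖phi b (α * b ^ (L - 1 - i) + b ^ i * ((r : ℝ) / s + γ))‖ =
      ∏ i ∈ range (2 * k), ‖phi b (α * b ^ (L - 1 - i) + b ^ i * γ + b ^ i * ((r : ℝ) / s))‖ := by
    refine prod_congr rfl fun i _ => ?_
    congr 2
    ring
  rw [h1]
  refine mul_le_mul_of_nonneg_left ?_ (prod_nonneg fun _ _ => norm_nonneg _)
  set x : ℕ → ℝ := fun i => α * b ^ (L - 1 - i) + b ^ i * ((r : ℝ) / s + γ) with hx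
  set δ : ℝ := ((b : ℝ) ^ 2 - 1) * ((r : ℝ) / s + γ) with hδ
  have hrec : ∀ i, i + 1 < L → b * x (i + 1) - x i = (b : ℝ) ^ i * δ := by
    intro i hi
    rw [hx, hδ]
    simp only
    have e1 : L - 1 - i = (L - 1 - (i + 1)) + 1 := by omega
    rw [e1, pow_succ, pow_succ]
    ring
  have hδ' : ∀ i, 1 ≤ i → ∀ n : ℤ, 1 / (s : ℝ) ≤ |(b : ℝ) ^ i * δ - n| := by
    intro i hi n
    obtain ⟨j, rfl⟩ : ∃ j, i = j + 1 := ⟨i - 1, by omega⟩
    have e1 : (b : ℝ) ^ (j + 1) * δ - n =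
        ((b ^ (j + 1) * (b ^ 2 - 1) * r + (b ^ j * m - n) * s : ℤ) : ℝ) / s := by
      rw [hδ]
      push_cast
      rw [← hm]
      field_simp
      ring
    rw [e1, abs_div, abs_of_pos hs0]
    apply div_le_div_of_nonneg_right _ hs0.le
    have h2 : (b ^ (j + 1) * (b ^ 2 - 1) * r + (b ^ j * m - n) * s : ℤ) ≠ 0 := by
      intro h0
      have h3 : (s : ℤ) ∣ b ^ (j + 1) * (b ^ 2 - 1) * r := by
        refine ⟨-(b ^ j * m - n), ?_⟩
        linarith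
      have hb2 : 1 ≤ b ^ 2 := Nat.one_le_pow _ _ (by omega)
      have h4 : s ∣ b ^ (j + 1) * (b ^ 2 - 1) * r := by
        have : ((b ^ (j + 1) * (b ^ 2 - 1) * r : ℕ) : ℤ) = b ^ (j + 1) * (b ^ 2 - 1) * r := by
          push_cast [Nat.cast_sub hb2]
          ring
        rw [← this] at h3
        exact_mod_cast h3
      have c1 : Nat.Coprime s b := Nat.Coprime.coprime_mul_right_right hsB
      have c2 : Nat.Coprime s (b ^ 2 - 1) := Nat.Coprime.coprime_mul_left_right hsB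
      have c3 : Nat.Coprime s (b ^ (j + 1) * (b ^ 2 - 1) * r) :=
        Nat.Coprime.mul_right (Nat.Coprime.mul_right (Nat.Coprime.pow_right _ c1) c2) hrs.symm
      have : s = 1 := Nat.Coprime.eq_one_of_dvd c3 h4
      omega
    have h3 := Int.one_le_abs h2
    have h4 : ((1 : ℤ) : ℝ) ≤ ((|(b ^ (j + 1) * (b ^ 2 - 1) * r + (b ^ j * m - n) * s : ℤ)| : ℤ) : ℝ) := by
      exact_mod_cast h3
    rw [Int.cast_abs] at h4
    exact_mod_cast h4
  have hw := window_prod hb (by omega : 0 < s) hsb.le hδ' hrec (2 * k) (by omega) v hv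
  have hsplit : ∏ i ∈ Ico (2 * k) L, ‖phi b (x i)‖ =
      (∏ i ∈ Ico (2 * k) (2 * k + v * (k + 2)), ‖phi b (x i)‖) *
        ∏ i ∈ Ico (2 * k + v * (k + 2)) L, ‖phi b (x i)‖ :=
    (prod_Ico_consecutive _ (by omega) hv).symm
  change ∏ i ∈ Ico (2 * k) L, ‖phi b (x i)‖ ≤ _
  rw [hsplit]
  have h2 : ∏ i ∈ Ico (2 * k + v * (k + 2)) L, ‖phi b (x i)‖ ≤
      (b : ℝ) ^ (L - (2 * k + v * (k + 2))) := by
    calc ∏ i ∈ Ico (2 * k + v * (k + 2)) L, ‖phi b (x i)‖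
        ≤ ∏ _i ∈ Ico (2 * k + v * (k + 2)) L, (b : ℝ) :=
          prod_le_prod (fun _ _ => norm_nonneg _) fun i _ => norm_phi_le b _
      _ = _ := by rw [prod_const, Nat.card_Ico]
  have h5 : (0 : ℝ) ≤ 1 - 1 / (4 * (b : ℝ) ^ 5) := by
    have : 1 / (4 * (b : ℝ) ^ 5) ≤ 1 := by
      rw [div_le_one (by positivity)]
      have : (1 : ℝ) ≤ (b : ℝ) ^ 5 := one_le_pow₀ (by linarith)
      linarith
    linarith
  calc (∏ i ∈ Ico (2 * k) (2 * k + v * (k + 2)), ‖phi b (x i)‖) *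
        ∏ i ∈ Ico (2 * k + v * (k + 2)) L, ‖phi b (x i)‖
      ≤ ((b : ℝ) ^ (k + 2) * (1 - 1 / (4 * (b : ℝ) ^ 5))) ^ v *
        (b : ℝ) ^ (L - (2 * k + v * (k + 2))) :=
        mul_le_mul hw h2 (prod_nonneg fun _ _ => norm_nonneg _) (by positivity)
    _ = (b : ℝ) ^ (L - 2 * k) * (1 - 1 / (4 * (b : ℝ) ^ 5)) ^ v := by
        rw [mul_pow, ← pow_mul]
        have e1 : L - 2 * k = (k + 2) * v + (L - (2 * k + v * (k + 2))) := by
          have : v * (k + 2) = (k + 2) * v := by ring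
          omega
        rw [e1, pow_add]
        have e2 : L - (2 * k + v * (k + 2)) =
          (k + 2) * v + (L - (2 * k + v * (k + 2))) - (k + 2) * v := by omega
        ring

/-- the block sum -/
lemma block_sum {b : ℕ} (hb : 2 ≤ b) {k L v : ℕ} (hk : 1 ≤ k) (hv : 2 * k + v * (k + 2) ≤ L)
    (α γ : ℝ) (hγ : ∃ m : ℤ, (b : ℝ) * (b ^ 2 - 1) * γ = m) :
    ∑ p ∈ PT b k, ‖F b L α ((p.2 : ℝ) / p.1 + γ)‖ ≤
      Real.exp (70 * b ^ 4) * ((b : ℝ) ^ 3 - 1 / 16) ^ k *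
        ((b : ℝ) ^ (L - 2 * k) * (1 - 1 / (4 * (b : ℝ) ^ 5)) ^ v) := by
  have hb' : (2 : ℝ) ≤ b := by exact_mod_cast hb
  have h5 : (0 : ℝ) ≤ 1 - 1 / (4 * (b : ℝ) ^ 5) := by
    have : 1 / (4 * (b : ℝ) ^ 5) ≤ 1 := by
      rw [div_le_one (by positivity)]
      have : (1 : ℝ) ≤ (b : ℝ) ^ 5 := one_le_pow₀ (by linarith)
      linarith
    linarith
  have h1 : ∀ p ∈ PT b k, ‖F b L α ((p.2 : ℝ) / p.1 + γ)‖ ≤
      P b (fun i => α * b ^ (L - 1 - i) + b ^ i * γ) ((p.2 : ℝ) / p.1) (2 * k) *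
        ((b : ℝ) ^ (L - 2 * k) * (1 - 1 / (4 * (b : ℝ) ^ 5)) ^ v) := by
    intro p hp
    obtain ⟨hp1, hp2, hp3, hp4, hp5⟩ := mem_filter.1 hp
    have hp6 := mem_Ico.1 (mem_product.1 hp1).1
    exact norm_F_le hb hk hv α γ hγ hp2 hp6.2 hp4 hp5
  refine (sum_le_sum h1).trans ?_
  rw [← sum_mul]
  refine mul_le_mul_of_nonneg_right ?_ (by positivity)
  refine (sum_points hb _ (2 * k) (PT b k) (fun p => (p.2 : ℝ) / p.1) ?_ ?_).trans (T_le hb k _)
  · intro p hp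
    obtain ⟨hp1, hp2, hp3, hp4, hp5⟩ := mem_filter.1 hp
    have : (0 : ℝ) < p.1 := by
      have : 0 < p.1 := by omega
      exact_mod_cast this
    refine ⟨by positivity, ?_⟩
    rw [div_lt_one this]
    exact_mod_cast hp3
  · intro p hp q hq hne
    obtain ⟨hp1, hp2, hp3, hp4, hp5⟩ := mem_filter.1 hp
    obtain ⟨hq1, hq2, hq3, hq4, hq5⟩ := mem_filter.1 hq
    have hp6 := (mem_Ico.1 (mem_product.1 hp1).1).2
    have hq6 := (mem_Ico.1 (mem_product.1 hq1).1).2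
    have hne' : (p.1, p.2) ≠ (q.1, q.2) := hne
    refine le_trans ?_ (frac_sep (by omega) (by omega) hp4 hq4 hne')
    apply one_div_le_one_div_of_le
    · have a1 : (0 : ℝ) < p.1 := by
        have : 0 < p.1 := by omega
        exact_mod_cast this
      have a2 : (0 : ℝ) < q.1 := by
        have : 0 < q.1 := by omega
        exact_mod_cast this
      positivity
    · have a1 : (p.1 : ℝ) ≤ (b : ℝ) ^ k := by exact_mod_cast hp6.le
      have a2 : (q.1 : ℝ) ≤ (b : ℝ) ^ k := by exact_mod_cast hq6.le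
      calc (p.1 : ℝ) * q.1 ≤ (b : ℝ) ^ k * (b : ℝ) ^ k :=
            mul_le_mul a1 a2 (Nat.cast_nonneg _) (by positivity)
        _ = (b : ℝ) ^ (2 * k) := by rw [← pow_add]; congr 1; ring

end Pool.Agent.V11294.RP
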