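import Mathlib
import Pool.Agent.Helper601.BT

set_option autoImplicit false

/-! Bounds for the Selberg weights. -/

namespace Pool.Agent.V11294.RP

open Finset Nat ArithmeticFunction BoundingSieve
open Pool.Agent.Helper601
open scoped ArithmeticFunction.Moebius

theorem abs_selW_le_one (s : BoundingSieve) {R : ℝ} (hR : 1 ≤ R) {d : ℕ} (hd : d ∣ s.prodPrimes) :
    |selW s R d| ≤ 1 := by
  have hP0 : s.prodPrimes ≠ 0 := prodPrimes_ne_zero
  have hsqd : Squarefree d := s.prodPrimes_squarefree.squarefree_of_dvd hd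
  have hd0 : 0 < d := Nat.pos_of_ne_zero hsqd.ne_zero
  have hS := selS_pos s R hR
  set D := (divisors s.prodPrimes).filter (fun l : ℕ => d ∣ l ∧ (l : ℝ) ≤ R) with hD
  have hgd : 0 < s.selbergTerms d := selbergTerms_pos hd
  have hnu : 0 < s.nu d := nu_pos_of_dvd_prodPrimes hd
  have hident := sum_divisors_selbergTerms_eq_selbergTerms_mul_nu_inv (s := s) hd
  rw [← Finset.sum_filter, Nat.divisors_filter_dvd_of_dvd hP0 hd] at hident
  -- main inequality
  have hmain : (s.nu d)⁻¹ * ∑ l ∈ D, s.selbergTerms l ≤ selS s R := by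
    have e1 : (s.nu d)⁻¹ = (s.selbergTerms d)⁻¹ * ∑ l ∈ divisors d, s.selbergTerms l := by
      rw [hident]; field_simp
    have e2 : (s.nu d)⁻¹ * ∑ l ∈ D, s.selbergTerms l =
        ∑ p ∈ (divisors d) ×ˢ D, s.selbergTerms (p.1 * (p.2 / d)) := by
      rw [e1, mul_comm (s.selbergTerms d)⁻¹, mul_assoc, Finset.mul_sum, Finset.sum_mul_sum,
        Finset.sum_product]
      refine Finset.sum_congr rfl fun l' hl' => Finset.sum_congr rfl fun l hl => ?_
      rw [hD, Finset.mem_filter, Nat.mem_divisors] at hl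
      obtain ⟨m, hm⟩ := hl.2.1
      have hdm : l / d = m := by rw [hm]; exact Nat.mul_div_cancel_left m hd0
      have hsql : Squarefree l := s.prodPrimes_squarefree.squarefree_of_dvd hl.1.1
      have hcop : Nat.Coprime d m := by rw [hm] at hsql; exact coprime_of_squarefree_mul hsql
      have hcop' : Nat.Coprime l' m := Nat.Coprime.coprime_dvd_left (Nat.dvd_of_mem_divisors hl') hcop
      rw [hdm, hm, selbergTerms_isMultiplicative.map_mul_of_coprime hcop,
        selbergTerms_isMultiplicative.map_mul_of_coprime hcop']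
      field_simp
    rw [e2]
    have hinj : Set.InjOn (fun p : ℕ × ℕ => p.1 * (p.2 / d)) ((divisors d) ×ˢ D : Finset (ℕ × ℕ)) := by
      rintro ⟨a, l⟩ hp ⟨a', l'⟩ hp' h
      simp only [coe_product, Set.mem_prod, Finset.mem_coe] at hp hp'
      simp only at h
      have hl := hp.2
      have hl' := hp'.2
      rw [hD, Finset.mem_filter, Nat.mem_divisors] at hl hl'
      obtain ⟨m, hm⟩ := hl.2.1
      obtain ⟨m', hm'⟩ := hl'.2.1
      have hdm : l / d = m := by rw [hm]; exact Nat.mul_div_cancel_left m hd0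
      have hdm' : l' / d = m' := by rw [hm']; exact Nat.mul_div_cancel_left m' hd0
      have hsql : Squarefree l := s.prodPrimes_squarefree.squarefree_of_dvd hl.1.1
      have hsql' : Squarefree l' := s.prodPrimes_squarefree.squarefree_of_dvd hl'.1.1
      have hcop : Nat.Coprime d m := by rw [hm] at hsql; exact coprime_of_squarefree_mul hsql
      have hcop' : Nat.Coprime d m' := by rw [hm'] at hsql'; exact coprime_of_squarefree_mul hsql'
      rw [hdm, hdm'] at h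
      have h1 : Nat.gcd (a * m) d = a := by
        rw [Nat.Coprime.gcd_mul_right_cancel a hcop.symm]
        exact Nat.gcd_eq_left (Nat.dvd_of_mem_divisors hp.1)
      have h2 : Nat.gcd (a' * m') d = a' := by
        rw [Nat.Coprime.gcd_mul_right_cancel a' hcop'.symm]
        exact Nat.gcd_eq_left (Nat.dvd_of_mem_divisors hp'.1)
      have h3 : a = a' := by rw [← h1, ← h2, h]
      subst h3
      have ha0 : 0 < a := Nat.pos_of_mem_divisors hp.1
      have h4 : m = m' := Nat.eq_of_mul_eq_mul_left ha0 h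
      rw [hm, hm', h4]
    rw [← Finset.sum_image (f := fun n => s.selbergTerms n) hinj]
    unfold selS
    apply Finset.sum_le_sum_of_subset_of_nonneg
    · intro n hn
      obtain ⟨⟨a, l⟩, hp, rfl⟩ := Finset.mem_image.1 hn
      rw [Finset.mem_product] at hp
      have hl := hp.2
      rw [hD, Finset.mem_filter, Nat.mem_divisors] at hl
      simp only
      have hle : a * (l / d) ∣ l := by
        calc a * (l / d) ∣ d * (l / d) := Nat.mul_dvd_mul_right (Nat.dvd_of_mem_divisors hp.1) _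
          _ = l := Nat.mul_div_cancel' hl.2.1
      have hl0 : 0 < l := Nat.pos_of_ne_zero (ne_zero_of_dvd_ne_zero hP0 hl.1.1)
      rw [Finset.mem_filter, Nat.mem_divisors]
      refine ⟨⟨hle.trans hl.1.1, hP0⟩, ?_⟩
      have : ((a * (l / d) : ℕ) : ℝ) ≤ l := by exact_mod_cast Nat.le_of_dvd hl0 hle
      exact this.trans hl.2.2
    · intro l hl _
      rw [Finset.mem_filter, Nat.mem_divisors] at hl
      exact (selbergTerms_pos hl.1.1).le
  have h0 : 0 ≤ ∑ l ∈ D, s.selbergTerms l := by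
    apply Finset.sum_nonneg
    intro l hl
    rw [hD, Finset.mem_filter, Nat.mem_divisors] at hl
    exact (selbergTerms_pos hl.1.1).le
  have hμ : |((μ d : ℤ) : ℝ)| ≤ 1 := by
    have : |μ d| ≤ 1 := abs_moebius_le_one
    exact_mod_cast this
  unfold selW
  rw [abs_mul, abs_mul, abs_mul, abs_of_nonneg h0, abs_of_pos (inv_pos.mpr hnu),
    abs_of_pos (inv_pos.mpr hS)]
  calc (s.nu d)⁻¹ * |((μ d : ℤ) : ℝ)| * (selS s R)⁻¹ * ∑ l ∈ D, s.selbergTerms l
      = |((μ d : ℤ) : ℝ)| * ((selS s R)⁻¹ * ((s.nu d)⁻¹ * ∑ l ∈ D, s.selbergTerms l)) := by ring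
    _ ≤ 1 * ((selS s R)⁻¹ * selS s R) := by
        apply mul_le_mul hμ _ (by positivity) zero_le_one
        exact mul_le_mul_of_nonneg_left hmain (inv_pos.mpr hS).le
    _ = 1 := by rw [one_mul]; exact inv_mul_cancel₀ hS.ne'

/-- harmonic sums -/
noncomputable def Hz (z : ℕ) : ℝ := ∑ n ∈ Finset.Icc 1 z, (n : ℝ)⁻¹

lemma Hz_nonneg (z : ℕ) : 0 ≤ Hz z := Finset.sum_nonneg fun _ _ => by positivity

lemma sum_dvd_le (z d : ℕ) (hd : 0 < d) :
    ∑ n ∈ (Finset.Icc 1 z).filter (fun n => d ∣ n), (n : ℝ)⁻¹ ≤ (d : ℝ)⁻¹ * Hz z := by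
  have hsub : (Finset.Icc 1 z).filter (fun n => d ∣ n) ⊆ (Finset.Icc 1 z).image (fun m => d * m) := by
    intro n hn
    rw [Finset.mem_filter, Finset.mem_Icc] at hn
    obtain ⟨m, rfl⟩ := hn.2
    rw [Finset.mem_image]
    refine ⟨m, ?_, rfl⟩
    rw [Finset.mem_Icc]
    have hm : 0 < m := by
      rcases Nat.eq_zero_or_pos m with h | h
      · subst h; omega
      · exact h
    exact ⟨hm, le_trans (Nat.le_mul_of_pos_left m hd) hn.1.2⟩
  refine (Finset.sum_le_sum_of_subset_of_nonneg hsub fun _ _ _ => by positivity).trans ?_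
  rw [Finset.sum_image (by
    intro x _ y _ hxy
    exact Nat.eq_of_mul_eq_mul_left hd hxy)]
  unfold Hz
  rw [Finset.mul_sum]
  apply le_of_eq
  refine Finset.sum_congr rfl fun m _ => ?_
  push_cast
  rw [mul_inv]

lemma exists_split {s g a c : ℕ} (hs : 0 < s) (h : s ∣ g * a * c) :
    ∃ s1 s2 s3 : ℕ, s1 * s2 * s3 = s ∧ s1 ∣ g ∧ s2 ∣ a ∧ s3 ∣ c := by
  obtain ⟨u, s3, hu, hs3, rfl⟩ := exists_dvd_and_dvd_of_dvd_mul h
  obtain ⟨s1, s2, hs1, hs2, rfl⟩ := exists_dvd_and_dvd_of_dvd_mul hu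
  exact ⟨s1, s2, s3, rfl, hs1, hs2, hs3⟩

lemma triple_sum (z s : ℕ) (hs : 0 < s) :
    ∑ g ∈ Finset.Icc 1 z, ∑ a ∈ Finset.Icc 1 z, ∑ c ∈ Finset.Icc 1 z,
      (if s ∣ g * a * c then ((g : ℝ) * a * c)⁻¹ else 0) ≤
      (s.divisors.card : ℝ) ^ 2 * ((s : ℝ)⁻¹ * Hz z ^ 3) := by
  classical
  set E := (s.divisors ×ˢ s.divisors).filter (fun p => p.1 * p.2 ∣ s) with hE
  have h1 : ∀ g ∈ Finset.Icc 1 z, ∀ a ∈ Finset.Icc 1 z, ∀ c ∈ Finset.Icc 1 z,
      (if s ∣ g * a * c then ((g : ℝ) * a * c)⁻¹ else 0) ≤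
      ∑ p ∈ E, (if p.1 ∣ g then (g : ℝ)⁻¹ else 0) * (if p.2 ∣ a then (a : ℝ)⁻¹ else 0) *
        (if s / (p.1 * p.2) ∣ c then (c : ℝ)⁻¹ else 0) := by
    intro g _ a _ c _
    have hnn : ∀ p ∈ E, 0 ≤ (if p.1 ∣ g then (g : ℝ)⁻¹ else 0) * (if p.2 ∣ a then (a : ℝ)⁻¹ else 0) *
        (if s / (p.1 * p.2) ∣ c then (c : ℝ)⁻¹ else 0) := by
      intro p _
      apply mul_nonneg (mul_nonneg _ _)
      all_goals (split_ifs <;> positivity)
    split_ifs with h
    · obtain ⟨s1, s2, s3, h123, hs1, hs2, hs3⟩ := exists_split hs h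
      have hmem : (s1, s2) ∈ E := by
        rw [hE, Finset.mem_filter, Finset.mem_product, Nat.mem_divisors, Nat.mem_divisors]
        refine ⟨⟨⟨⟨s2 * s3, by rw [← h123]; ring⟩, hs.ne'⟩, ⟨⟨s1 * s3, by rw [← h123]; ring⟩, hs.ne'⟩⟩,
          ⟨s3, by rw [← h123]⟩⟩
      refine le_trans ?_ (Finset.single_le_sum hnn hmem)
      have h12 : 0 < s1 * s2 := by
        rcases Nat.eq_zero_or_pos (s1 * s2) with h0 | h0
        · rw [h0] at h123; omega
        · exact h0
      have hdiv : s / (s1 * s2) = s3 := by rw [← h123]; exact Nat.mul_div_cancel_left s3 h12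
      simp only [hdiv, if_pos hs1, if_pos hs2, if_pos hs3]
      rw [mul_inv, mul_inv]
    · exact Finset.sum_nonneg hnn
  refine (Finset.sum_le_sum fun g hg => Finset.sum_le_sum fun a ha => Finset.sum_le_sum fun c hc =>
    h1 g hg a ha c hc).trans ?_
  have h2 : ∑ g ∈ Finset.Icc 1 z, ∑ a ∈ Finset.Icc 1 z, ∑ c ∈ Finset.Icc 1 z,
      ∑ p ∈ E, (if p.1 ∣ g then (g : ℝ)⁻¹ else 0) * (if p.2 ∣ a then (a : ℝ)⁻¹ else 0) *
        (if s / (p.1 * p.2) ∣ c then (c : ℝ)⁻¹ else 0) =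
      ∑ p ∈ E, (∑ g ∈ Finset.Icc 1 z, (if p.1 ∣ g then (g : ℝ)⁻¹ else 0)) *
        (∑ a ∈ Finset.Icc 1 z, (if p.2 ∣ a then (a : ℝ)⁻¹ else 0)) *
        (∑ c ∈ Finset.Icc 1 z, (if s / (p.1 * p.2) ∣ c then (c : ℝ)⁻¹ else 0)) := by
    simp_rw [Finset.sum_comm (t := E)]
    refine Finset.sum_congr rfl fun p _ => ?_
    rw [Finset.sum_mul_sum, Finset.sum_mul]
    refine Finset.sum_congr rfl fun g _ => ?_
    rw [Finset.sum_mul]
    refine Finset.sum_congr rfl fun a _ => ?_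
    rw [Finset.mul_sum]
  rw [h2]
  have h3 : ∀ p ∈ E, (∑ g ∈ Finset.Icc 1 z, (if p.1 ∣ g then (g : ℝ)⁻¹ else 0)) *
        (∑ a ∈ Finset.Icc 1 z, (if p.2 ∣ a then (a : ℝ)⁻¹ else 0)) *
        (∑ c ∈ Finset.Icc 1 z, (if s / (p.1 * p.2) ∣ c then (c : ℝ)⁻¹ else 0)) ≤
        (s : ℝ)⁻¹ * Hz z ^ 3 := by
    intro p hp
    rw [hE, Finset.mem_filter, Finset.mem_product] at hp
    obtain ⟨⟨hp1, hp2⟩, hp3⟩ := hp
    have hp10 : 0 < p.1 := Nat.pos_of_mem_divisors hp1
    have hp20 : 0 < p.2 := Nat.pos_of_mem_divisors hp2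
    obtain ⟨t, ht⟩ := hp3
    have hp120 : 0 < p.1 * p.2 := Nat.mul_pos hp10 hp20
    have htt : s / (p.1 * p.2) = t := by rw [ht]; exact Nat.mul_div_cancel_left t hp120
    have ht0 : 0 < t := by
      rcases Nat.eq_zero_or_pos t with h0 | h0
      · rw [h0] at ht; omega
      · exact h0
    rw [htt]
    simp_rw [← Finset.sum_filter]
    have a1 := sum_dvd_le z p.1 hp10
    have a2 := sum_dvd_le z p.2 hp20
    have a3 := sum_dvd_le z t ht0
    have hH := Hz_nonneg z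
    have n1 : 0 ≤ ∑ g ∈ (Finset.Icc 1 z).filter (fun g => p.1 ∣ g), (g : ℝ)⁻¹ :=
      Finset.sum_nonneg fun _ _ => by positivity
    have n2 : 0 ≤ ∑ g ∈ (Finset.Icc 1 z).filter (fun g => p.2 ∣ g), (g : ℝ)⁻¹ :=
      Finset.sum_nonneg fun _ _ => by positivity
    have n3 : 0 ≤ ∑ g ∈ (Finset.Icc 1 z).filter (fun g => t ∣ g), (g : ℝ)⁻¹ :=
      Finset.sum_nonneg fun _ _ => by positivity
    calc _ ≤ ((p.1 : ℝ)⁻¹ * Hz z) * ((p.2 : ℝ)⁻¹ * Hz z) * ((t : ℝ)⁻¹ * Hz z) := by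
          apply mul_le_mul (mul_le_mul a1 a2 n2 (by positivity)) a3 n3 (by positivity)
      _ = (s : ℝ)⁻¹ * Hz z ^ 3 := by
          rw [ht]
          push_cast
          rw [mul_inv, mul_inv]
          ring
  refine (Finset.sum_le_sum h3).trans ?_
  rw [Finset.sum_const, nsmul_eq_mul]
  have hH := Hz_nonneg z
  apply mul_le_mul_of_nonneg_right _ (by positivity)
  have : E.card ≤ s.divisors.card * s.divisors.card := by
    rw [← Finset.card_product]
    exact Finset.card_filter_le _ _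
  rw [pow_two]
  exact_mod_cast this

lemma lcm_sum (z s : ℕ) (hs : 0 < s) :
    ∑ d1 ∈ Finset.Icc 1 z, ∑ d2 ∈ Finset.Icc 1 z,
      (if s ∣ Nat.lcm d1 d2 then ((Nat.lcm d1 d2 : ℕ) : ℝ)⁻¹ else 0) ≤
      (s.divisors.card : ℝ) ^ 2 * ((s : ℝ)⁻¹ * Hz z ^ 3) := by
  classical
  refine le_trans ?_ (triple_sum z s hs)
  set f : ℕ × ℕ → ℕ × ℕ × ℕ := fun p => (Nat.gcd p.1 p.2, p.1 / Nat.gcd p.1 p.2, p.2 / Nat.gcd p.1 p.2)
    with hf
  set X := (Finset.Icc 1 z) ×ˢ (Finset.Icc 1 z) with hX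
  set W : ℕ × ℕ × ℕ → ℝ := fun t => if s ∣ t.1 * t.2.1 * t.2.2 then ((t.1 : ℝ) * t.2.1 * t.2.2)⁻¹ else 0
    with hW
  have hWnn : ∀ t, 0 ≤ W t := by
    intro t
    rw [hW]
    simp only
    split_ifs <;> positivity
  have hlcm : ∀ p ∈ X, (if s ∣ Nat.lcm p.1 p.2 then ((Nat.lcm p.1 p.2 : ℕ) : ℝ)⁻¹ else 0) = W (f p) := by
    intro p hp
    rw [hX, Finset.mem_product, Finset.mem_Icc, Finset.mem_Icc] at hp
    have hg : 0 < Nat.gcd p.1 p.2 := Nat.gcd_pos_of_pos_left _ (by omega)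
    obtain ⟨a, ha⟩ := Nat.gcd_dvd_left p.1 p.2
    obtain ⟨c, hc⟩ := Nat.gcd_dvd_right p.1 p.2
    have h1 : p.1 / Nat.gcd p.1 p.2 = a := by
      conv_lhs => rw [ha]
      rw [← ha]
      exact Nat.div_eq_of_eq_mul_right hg ha
    have h2 : p.2 / Nat.gcd p.1 p.2 = c := Nat.div_eq_of_eq_mul_right hg hc
    have h3 : Nat.lcm p.1 p.2 = Nat.gcd p.1 p.2 * a * c := by
      have h4 := Nat.gcd_mul_lcm p.1 p.2
      generalize Nat.gcd p.1 p.2 = g at *
      apply Nat.eq_of_mul_eq_mul_left hg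
      rw [h4, ha, hc]
      ring
    rw [hW, hf]
    simp only [h1, h2, h3]
    push_cast
    rfl
  rw [← Finset.sum_product', ← hX]
  rw [Finset.sum_congr rfl hlcm]
  have hinj : Set.InjOn f (X : Set (ℕ × ℕ)) := by
    rintro ⟨x, y⟩ hp ⟨x', y'⟩ hp' h
    rw [hf] at h
    simp only [Prod.mk.injEq] at h
    obtain ⟨h1, h2, h3⟩ := h
    have e1 := Nat.div_mul_cancel (Nat.gcd_dvd_left x y)
    have e2 := Nat.div_mul_cancel (Nat.gcd_dvd_left x' y')
    have e3 := Nat.div_mul_cancel (Nat.gcd_dvd_right x y)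
    have e4 := Nat.div_mul_cancel (Nat.gcd_dvd_right x' y')
    ext
    · simp only
      rw [← e1, ← e2, h2, h1]
    · simp only
      rw [← e3, ← e4, h3, h1]
  rw [← Finset.sum_image (f := W) hinj]
  have hsub : X.image f ⊆ (Finset.Icc 1 z) ×ˢ ((Finset.Icc 1 z) ×ˢ (Finset.Icc 1 z)) := by
    intro t ht
    obtain ⟨p, hp, rfl⟩ := Finset.mem_image.1 ht
    rw [hX, Finset.mem_product, Finset.mem_Icc, Finset.mem_Icc] at hp
    have hg : 0 < Nat.gcd p.1 p.2 := Nat.gcd_pos_of_pos_left _ (by omega)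
    have hg1 : Nat.gcd p.1 p.2 ≤ p.1 := Nat.gcd_le_left _ (by omega)
    have hg2 : Nat.gcd p.1 p.2 ≤ p.2 := Nat.gcd_le_right _ (by omega)
    rw [hf, Finset.mem_product, Finset.mem_product, Finset.mem_Icc, Finset.mem_Icc, Finset.mem_Icc]
    refine ⟨⟨hg, hg1.trans hp.1.2⟩, ⟨Nat.div_pos hg1 hg, ?_⟩, ⟨Nat.div_pos hg2 hg, ?_⟩⟩
    · exact (Nat.div_le_self _ _).trans hp.1.2
    · exact (Nat.div_le_self _ _).trans hp.2.2
  refine (Finset.sum_le_sum_of_subset_of_nonneg hsub fun t _ _ => hWnn t).trans ?_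
  rw [Finset.sum_product]
  apply le_of_eq
  refine Finset.sum_congr rfl fun g _ => ?_
  rw [Finset.sum_product]

/-- the weighted sum over the multiples of `s` -/
lemma rho_sum (S : BoundingSieve) (z : ℕ) (hz : 1 ≤ z) (s : ℕ) (hs : 0 < s) :
    ∑ q ∈ (divisors S.prodPrimes).filter (fun q => s ∣ q),
      |lambdaSquared (selW S z) q| * (q : ℝ)⁻¹ ≤
      (s.divisors.card : ℝ) ^ 2 * ((s : ℝ)⁻¹ * Hz z ^ 3) := by
  classical
  refine le_trans ?_ (lcm_sum z s hs)
  have hz' : (1 : ℝ) ≤ z := by exact_mod_cast hz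
  set D := divisors S.prodPrimes with hD
  have h1 : ∀ q ∈ D.filter (fun q => s ∣ q), |lambdaSquared (selW S z) q| * (q : ℝ)⁻¹ ≤
      ∑ d1 ∈ Finset.Icc 1 z, ∑ d2 ∈ Finset.Icc 1 z, (if q = Nat.lcm d1 d2 then (q : ℝ)⁻¹ else 0) := by
    intro q hq
    rw [Finset.mem_filter, hD, Nat.mem_divisors] at hq
    obtain ⟨⟨hqP, hP0⟩, hsq⟩ := hq
    have hq0 : 0 < q := Nat.pos_of_ne_zero (ne_zero_of_dvd_ne_zero hP0 hqP)
    unfold lambdaSquared
    have a1 : |∑ d1 ∈ q.divisors, ∑ d2 ∈ q.divisors,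
        (if q = Nat.lcm d1 d2 then selW S z d1 * selW S z d2 else 0)| ≤
        ∑ d1 ∈ q.divisors.filter (fun d => d ≤ z), ∑ d2 ∈ q.divisors.filter (fun d => d ≤ z),
          (if q = Nat.lcm d1 d2 then (1 : ℝ) else 0) := by
      rw [Finset.sum_filter]
      refine (Finset.abs_sum_le_sum_abs _ _).trans (Finset.sum_le_sum fun d1 hd1 => ?_)
      split_ifs with hz1
      · rw [Finset.sum_filter]
        refine (Finset.abs_sum_le_sum_abs _ _).trans (Finset.sum_le_sum fun d2 hd2 => ?_)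
        split_ifs with hz2 h12 h12
        · rw [abs_mul]
          have b1 := abs_selW_le_one S hz' ((Nat.dvd_of_mem_divisors hd1).trans hqP)
          have b2 := abs_selW_le_one S hz' ((Nat.dvd_of_mem_divisors hd2).trans hqP)
          calc _ ≤ (1 : ℝ) * 1 := mul_le_mul b1 b2 (abs_nonneg _) zero_le_one
            _ = 1 := one_mul 1
        · have : selW S z d2 = 0 := selW_eq_zero S z (by exact_mod_cast not_le.1 h12)
          rw [this]; simp
        · simp
        · simp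
      · have h0 : selW S z d1 = 0 := selW_eq_zero S z (by exact_mod_cast not_le.1 hz1)
        rw [Finset.sum_eq_zero]
        · simp
        · intro d2 _
          rw [h0]; simp
    have a2 : ∑ d1 ∈ q.divisors.filter (fun d => d ≤ z), ∑ d2 ∈ q.divisors.filter (fun d => d ≤ z),
          (if q = Nat.lcm d1 d2 then (1 : ℝ) else 0) ≤
        ∑ d1 ∈ Finset.Icc 1 z, ∑ d2 ∈ Finset.Icc 1 z, (if q = Nat.lcm d1 d2 then (1 : ℝ) else 0) := by
      have hsub : q.divisors.filter (fun d => d ≤ z) ⊆ Finset.Icc 1 z := by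
        intro d hd
        rw [Finset.mem_filter] at hd
        rw [Finset.mem_Icc]
        exact ⟨Nat.pos_of_mem_divisors hd.1, hd.2⟩
      calc _ ≤ ∑ d1 ∈ q.divisors.filter (fun d => d ≤ z), ∑ d2 ∈ Finset.Icc 1 z,
            (if q = Nat.lcm d1 d2 then (1 : ℝ) else 0) := by
            refine Finset.sum_le_sum fun d1 _ => ?_
            refine Finset.sum_le_sum_of_subset_of_nonneg hsub fun d2 _ _ => ?_
            split_ifs <;> norm_num
        _ ≤ _ := by
            refine Finset.sum_le_sum_of_subset_of_nonneg hsub fun d1 _ _ => ?_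
            refine Finset.sum_nonneg fun d2 _ => ?_
            split_ifs <;> norm_num
    have hqi : (0 : ℝ) ≤ (q : ℝ)⁻¹ := by positivity
    calc _ ≤ (∑ d1 ∈ Finset.Icc 1 z, ∑ d2 ∈ Finset.Icc 1 z,
          (if q = Nat.lcm d1 d2 then (1 : ℝ) else 0)) * (q : ℝ)⁻¹ :=
          mul_le_mul_of_nonneg_right (a1.trans a2) hqi
      _ = _ := by
          rw [Finset.sum_mul]
          refine Finset.sum_congr rfl fun d1 _ => ?_
          rw [Finset.sum_mul]
          refine Finset.sum_congr rfl fun d2 _ => ?_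
          split_ifs <;> simp
  refine (Finset.sum_le_sum h1).trans ?_
  rw [Finset.sum_comm]
  refine Finset.sum_le_sum fun d1 _ => ?_
  rw [Finset.sum_comm]
  refine Finset.sum_le_sum fun d2 _ => ?_
  rw [Finset.sum_ite_eq']
  split_ifs with h1 h2 h2
  · exact le_rfl
  · exfalso
    exact h2 (Finset.mem_filter.1 h1).2
  · positivity
  · exact le_rfl

end Pool.Agent.V11294.RP
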