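import Mathlib
import Pool.Agent.V11294.RP.Sel

set_option autoImplicit false

/-! The Selberg majorant, packaged. -/

namespace Pool.Agent.V11294.RP

open Finset Nat ArithmeticFunction BoundingSieve
open Pool.Agent.Helper601

lemma lambdaSquared_eq_zero {w : ℕ → ℝ} {z : ℕ} (hw : ∀ d, z < d → w d = 0) {q : ℕ}
    (hq : z ^ 2 < q) : lambdaSquared w q = 0 := by
  unfold lambdaSquared
  refine Finset.sum_eq_zero fun d1 _ => Finset.sum_eq_zero fun d2 _ => ?_
  split_ifs with h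
  · by_cases h1 : z < d1
    · rw [hw d1 h1, zero_mul]
    · by_cases h2 : z < d2
      · rw [hw d2 h2, mul_zero]
      · exfalso
        have h3 : Nat.lcm d1 d2 ≤ d1 * d2 := by
          unfold Nat.lcm
          exact Nat.div_le_self _ _
        have h4 : d1 * d2 ≤ z * z := Nat.mul_le_mul (not_lt.1 h1) (not_lt.1 h2)
        rw [← h] at h3
        nlinarith
  · rfl

/-- the Selberg majorant -/
theorem majorant (B z : ℕ) (hz : 1 ≤ z) : ∃ (P : ℕ) (ρ : ℕ → ℝ) (G : ℝ), P ≠ 0 ∧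
    (∀ n, 0 ≤ ∑ q ∈ (Nat.gcd P n).divisors, ρ q) ∧
    (∀ n, Nat.Coprime P n → 1 ≤ ∑ q ∈ (Nat.gcd P n).divisors, ρ q) ∧
    0 < G ∧
    (∑ n ∈ (Finset.Icc 1 z).filter (fun n => Nat.Coprime n B), (n : ℝ)⁻¹) ≤ 2 * G ∧
    ∑ q ∈ P.divisors, ρ q * (q : ℝ)⁻¹ = G⁻¹ ∧
    (∀ s, 0 < s → ∑ q ∈ P.divisors.filter (fun q => s ∣ q), |ρ q| * (q : ℝ)⁻¹ ≤
      (s.divisors.card : ℝ) ^ 2 * ((s : ℝ)⁻¹ * Hz z ^ 3)) ∧
    (∀ q, z ^ 2 < q → ρ q = 0) ∧
    (∀ p, p.Prime → z < p → Nat.Coprime P p) ∧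
    (∀ q, q ∣ P → Nat.Coprime q B) := by
  have hz' : (1 : ℝ) ≤ z := by exact_mod_cast hz
  set S := apSieve 0 B 1 z with hS
  have hup := upperMoebius_lambdaSquared (selW S z) (selW_one S z hz')
  have hup' : ∀ n, (if n = 1 then (1 : ℝ) else 0) ≤
    ∑ d ∈ n.divisors, lambdaSquared (selW S z) d := hup
  have hPP : S.prodPrimes = PP B z := rfl
  refine ⟨PP B z, lambdaSquared (selW S z), selS S z, (PP_squarefree B z).ne_zero, ?_, ?_,
    selS_pos S z hz', ?_, ?_, ?_, ?_, ?_, ?_⟩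
  · intro n
    refine le_trans ?_ (hup' _)
    split_ifs <;> norm_num
  · intro n hn
    have h1 : Nat.gcd (PP B z) n = 1 := hn
    have h2 := hup' 1
    rw [h1]
    simpa using h2
  · have h1 := sum_inv_le_two_mul B z
    have h2 := selS_ge 0 B 1 z
    rw [← hS] at h2
    linarith
  · have := mainSum_selW S z hz'
    rw [← this]
    rfl
  · intro s hs
    exact rho_sum S z hz s hs
  · intro q hq
    exact lambdaSquared_eq_zero (fun d hd => selW_eq_zero S z (by exact_mod_cast hd)) hq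
  · intro p hp hzp
    rw [Nat.coprime_comm, Nat.Prime.coprime_iff_not_dvd hp, prime_dvd_PP hp]
    intro h
    omega
  · intro q hq
    exact coprime_of_dvd_PP hq

end Pool.Agent.V11294.RP
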