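import Mathlib
import Pool.Agent.V11294.RP.Maj
import Pool.Agent.V11294.RP.B3

set_option autoImplicit false

/-! Expansion of the majorant sum and the bound for the error. -/

namespace Pool.Agent.V11294.RP

open Finset

/-- sums over a residue class and multiples of `q` -/
lemma class_expand {b : ℕ} (L : ℕ) {B q : ℕ} (hB : 0 < B) (hq : 0 < q) (c : ℕ) (α : ℝ) :
    ∑ n ∈ range (b ^ L), (if q ∣ n ∧ n ≡ c [MOD B] then e (α * revL b L n) else 0) =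
      ((q : ℂ)⁻¹ * (B : ℂ)⁻¹) * ∑ g ∈ range B, e (-((g : ℝ) * c / B)) *
        ∑ a ∈ range q, F b L α ((a : ℝ) / q + (g : ℝ) / B) := by
  have hqC : (q : ℂ) ≠ 0 := by exact_mod_cast hq.ne'
  have hBC : (B : ℂ) ≠ 0 := by exact_mod_cast hB.ne'
  have h1 : ∀ n ∈ range (b ^ L), (if q ∣ n ∧ n ≡ c [MOD B] then e (α * revL b L n) else 0) =
      ((q : ℂ)⁻¹ * (B : ℂ)⁻¹) * ∑ g ∈ range B, ∑ a ∈ range q,
        e (-((g : ℝ) * c / B)) * e (α * revL b L n + ((a : ℝ) / q + (g : ℝ) / B) * n) := by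
    intro n _
    have e1 := sum_e q hq (n : ℤ)
    have e2 := sum_e B hB ((n : ℤ) - c)
    have e3 : ∀ g ∈ range B, ∀ a ∈ range q,
        e (-((g : ℝ) * c / B)) * e (α * revL b L n + ((a : ℝ) / q + (g : ℝ) / B) * n) =
        e (α * revL b L n) * (e ((((n : ℤ) - c : ℤ) : ℝ) * g / B) * e (((n : ℤ) : ℝ) * a / q)) := by
      intro g _ a _
      rw [← e_add, ← e_add, ← e_add]
      congr 1
      push_cast
      ring
    rw [sum_congr rfl fun g hg => sum_congr rfl fun a ha => e3 g hg a ha]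
    have e4 : ∑ g ∈ range B, ∑ a ∈ range q,
        e (α * revL b L n) * (e ((((n : ℤ) - c : ℤ) : ℝ) * g / B) * e (((n : ℤ) : ℝ) * a / q)) =
        e (α * revL b L n) * ((∑ g ∈ range B, e ((((n : ℤ) - c : ℤ) : ℝ) * g / B)) *
          ∑ a ∈ range q, e (((n : ℤ) : ℝ) * a / q)) := by
      rw [Finset.sum_mul_sum, mul_sum]
      refine sum_congr rfl fun g _ => ?_
      rw [mul_sum]
    rw [e4, e1, e2]
    have h5 : (q : ℤ) ∣ (n : ℤ) ↔ q ∣ n := Int.natCast_dvd_natCast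
    have h6 : (B : ℤ) ∣ ((n : ℤ) - c) ↔ n ≡ c [MOD B] := by
      rw [← Nat.modEq_iff_dvd]
      exact ⟨fun h => h.symm, fun h => h.symm⟩
    by_cases hq' : q ∣ n
    · by_cases hB' : n ≡ c [MOD B]
      · rw [if_pos ⟨hq', hB'⟩, if_pos (h5.2 hq'), if_pos (h6.2 hB')]
        field_simp
      · rw [if_neg (fun h => hB' h.2), if_neg (fun h => hB' (h6.1 h))]
        ring
    · rw [if_neg (fun h => hq' h.1), if_neg (fun h => hq' (h5.1 h))]
      ring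
  rw [sum_congr rfl h1, ← mul_sum]
  congr 1
  rw [sum_comm]
  refine sum_congr rfl fun g _ => ?_
  rw [sum_comm, mul_sum]
  refine sum_congr rfl fun a _ => ?_
  unfold F
  rw [mul_sum]

/-- the exponential sum of the majorant -/
noncomputable def Sw (b L B c P : ℕ) (ρ : ℕ → ℝ) (α : ℝ) : ℂ :=
  ∑ n ∈ range (b ^ L), ((if n ≡ c [MOD B] then ∑ q ∈ (Nat.gcd P n).divisors, ρ q else 0 : ℝ) : ℂ)
    * e (α * revL b L n)

/-- the exponential sum of the residue class -/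
noncomputable def SU (b L B c : ℕ) (α : ℝ) : ℂ :=
  ∑ n ∈ range (b ^ L), (if n ≡ c [MOD B] then e (α * revL b L n) else 0)

lemma divisors_gcd {P n : ℕ} (hP : P ≠ 0) :
    (Nat.gcd P n).divisors = P.divisors.filter (fun q => q ∣ n) := by
  ext q
  rw [Nat.mem_divisors, mem_filter, Nat.mem_divisors, Nat.dvd_gcd_iff]
  constructor
  · rintro ⟨⟨h1, h2⟩, _⟩
    exact ⟨⟨h1, hP⟩, h2⟩
  · rintro ⟨⟨h1, _⟩, h2⟩
    refine ⟨⟨h1, h2⟩, ?_⟩
    intro h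
    exact hP (Nat.gcd_eq_zero_iff.1 h).1

lemma Sw_expand {b : ℕ} (L : ℕ) {B P : ℕ} (hB : 0 < B) (hP : P ≠ 0) (c : ℕ) (ρ : ℕ → ℝ) (α : ℝ) :
    Sw b L B c P ρ α = ∑ q ∈ P.divisors, (ρ q : ℂ) * (((q : ℂ)⁻¹ * (B : ℂ)⁻¹) *
      ∑ g ∈ range B, e (-((g : ℝ) * c / B)) *
        ∑ a ∈ range q, F b L α ((a : ℝ) / q + (g : ℝ) / B)) := by
  have h1 : ∀ q ∈ P.divisors, (ρ q : ℂ) * (((q : ℂ)⁻¹ * (B : ℂ)⁻¹) *
      ∑ g ∈ range B, e (-((g : ℝ) * c / B)) *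
        ∑ a ∈ range q, F b L α ((a : ℝ) / q + (g : ℝ) / B)) =
      ∑ n ∈ range (b ^ L), (ρ q : ℂ) * (if q ∣ n ∧ n ≡ c [MOD B] then e (α * revL b L n) else 0) := by
    intro q hq
    rw [← class_expand L hB (Nat.pos_of_mem_divisors hq) c α, mul_sum]
  rw [sum_congr rfl h1, sum_comm]
  unfold Sw
  refine sum_congr rfl fun n _ => ?_
  rw [divisors_gcd hP]
  split_ifs with hn
  · push_cast
    rw [sum_mul, sum_filter]
    refine sum_congr rfl fun q _ => ?_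
    split_ifs with h1 h2 h2
    · rfl
    · exact absurd ⟨h1, hn⟩ h2
    · exact absurd h2.1 h1
    · simp
  · rw [Complex.ofReal_zero, zero_mul]
    symm
    refine sum_eq_zero fun q _ => ?_
    rw [if_neg (fun h => hn h.2), mul_zero]

lemma SU_expand {b : ℕ} (L : ℕ) {B : ℕ} (hB : 0 < B) (c : ℕ) (α : ℝ) :
    SU b L B c α = (B : ℂ)⁻¹ * ∑ g ∈ range B, e (-((g : ℝ) * c / B)) * F b L α ((g : ℝ) / B) := by
  have h := class_expand (b := b) L hB one_pos c α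
  unfold SU
  simp only [one_dvd, true_and] at h
  rw [h]
  simp

/-- the error of the majorant sum -/
lemma Sw_sub {b : ℕ} (L : ℕ) {B P : ℕ} (hB : 0 < B) (hP : P ≠ 0) (c : ℕ) (ρ : ℕ → ℝ) (α : ℝ) {G : ℝ}
    (hG : ∑ q ∈ P.divisors, ρ q * (q : ℝ)⁻¹ = G⁻¹) :
    ‖Sw b L B c P ρ α - (G⁻¹ : ℝ) * SU b L B c α‖ ≤
      (B : ℝ)⁻¹ * ∑ g ∈ range B, ∑ q ∈ P.divisors, |ρ q| * (q : ℝ)⁻¹ *
        ∑ a ∈ Ico 1 q, ‖F b L α ((a : ℝ) / q + (g : ℝ) / B)‖ := by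
  have h1 : Sw b L B c P ρ α - (G⁻¹ : ℝ) * SU b L B c α =
      ∑ q ∈ P.divisors, (ρ q : ℂ) * (((q : ℂ)⁻¹ * (B : ℂ)⁻¹) *
      ∑ g ∈ range B, e (-((g : ℝ) * c / B)) *
        ∑ a ∈ Ico 1 q, F b L α ((a : ℝ) / q + (g : ℝ) / B)) := by
    rw [Sw_expand L hB hP, SU_expand L hB, ← hG]
    push_cast
    rw [sum_mul, ← sum_sub_distrib]
    refine sum_congr rfl fun q hq => ?_
    have hq0 := Nat.pos_of_mem_divisors hq
    have h2 : ∀ g ∈ range B, e (-((g : ℝ) * c / B)) *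
        ∑ a ∈ range q, F b L α ((a : ℝ) / q + (g : ℝ) / B) =
        e (-((g : ℝ) * c / B)) * F b L α ((g : ℝ) / B) +
        e (-((g : ℝ) * c / B)) * ∑ a ∈ Ico 1 q, F b L α ((a : ℝ) / q + (g : ℝ) / B) := by
      intro g _
      rw [range_eq_Ico, sum_eq_sum_Ico_succ_bot hq0]
      simp
      ring
    rw [sum_congr rfl h2, sum_add_distrib]
    ring
  rw [h1]
  refine (norm_sum_le _ _).trans ?_
  rw [mul_sum]
  rw [show ∑ g ∈ range B, (B : ℝ)⁻¹ * ∑ q ∈ P.divisors, |ρ q| * (q : ℝ)⁻¹ *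
        ∑ a ∈ Ico 1 q, ‖F b L α ((a : ℝ) / q + (g : ℝ) / B)‖ =
      ∑ q ∈ P.divisors, ∑ g ∈ range B, (B : ℝ)⁻¹ * (|ρ q| * (q : ℝ)⁻¹ *
        ∑ a ∈ Ico 1 q, ‖F b L α ((a : ℝ) / q + (g : ℝ) / B)‖) from by
    rw [sum_comm]
    refine sum_congr rfl fun g _ => ?_
    rw [mul_sum]]
  refine sum_le_sum fun q _ => ?_
  rw [norm_mul, norm_mul, norm_mul, norm_inv, norm_inv, Complex.norm_natCast, Complex.norm_natCast,
    Complex.norm_real, Real.norm_eq_abs]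
  have h3 : ‖∑ g ∈ range B, e (-((g : ℝ) * c / B)) *
        ∑ a ∈ Ico 1 q, F b L α ((a : ℝ) / q + (g : ℝ) / B)‖ ≤
      ∑ g ∈ range B, ∑ a ∈ Ico 1 q, ‖F b L α ((a : ℝ) / q + (g : ℝ) / B)‖ := by
    refine (norm_sum_le _ _).trans (sum_le_sum fun g _ => ?_)
    rw [norm_mul, norm_e, one_mul]
    exact norm_sum_le _ _
  calc |ρ q| * ((q : ℝ)⁻¹ * (B : ℝ)⁻¹ * ‖∑ g ∈ range B, e (-((g : ℝ) * c / B)) *
        ∑ a ∈ Ico 1 q, F b L α ((a : ℝ) / q + (g : ℝ) / B)‖)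
      ≤ |ρ q| * ((q : ℝ)⁻¹ * (B : ℝ)⁻¹ *
        ∑ g ∈ range B, ∑ a ∈ Ico 1 q, ‖F b L α ((a : ℝ) / q + (g : ℝ) / B)‖) := by
        apply mul_le_mul_of_nonneg_left _ (abs_nonneg _)
        exact mul_le_mul_of_nonneg_left h3 (by positivity)
    _ = ∑ g ∈ range B, (B : ℝ)⁻¹ * (|ρ q| * (q : ℝ)⁻¹ *
        ∑ a ∈ Ico 1 q, ‖F b L α ((a : ℝ) / q + (g : ℝ) / B)‖) := by
        rw [mul_sum, mul_sum]
        refine sum_congr rfl fun g _ => ?_
        ring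

/-- all reduced fractions with denominator dividing `P` -/
def ALL (P : ℕ) : Finset (ℕ × ℕ) :=
  (P.divisors ×ˢ range P).filter (fun p => 1 < p.1 ∧ p.2 < p.1 ∧ Nat.Coprime p.2 p.1)

lemma regroup {P q : ℕ} (hP : P ≠ 0) (hq : q ∣ P) (h : ℝ → ℝ) (hh : ∀ x, 0 ≤ h x) :
    ∑ a ∈ Ico 1 q, h ((a : ℝ) / q) ≤
      ∑ p ∈ (ALL P).filter (fun p => p.1 ∣ q), h ((p.2 : ℝ) / p.1) := by
  have hq0 : 0 < q := Nat.pos_of_ne_zero (ne_zero_of_dvd_ne_zero hP hq)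
  set f : ℕ → ℕ × ℕ := fun a => (q / Nat.gcd a q, a / Nat.gcd a q) with hf
  have h1 : ∀ a ∈ Ico 1 q, h ((a : ℝ) / q) = h (((f a).2 : ℝ) / (f a).1) := by
    intro a ha
    rw [hf]
    simp only
    have hg : 0 < Nat.gcd a q := Nat.gcd_pos_of_pos_right _ hq0
    rw [Nat.cast_div (Nat.gcd_dvd_left a q) (by exact_mod_cast hg.ne'),
      Nat.cast_div (Nat.gcd_dvd_right a q) (by exact_mod_cast hg.ne')]
    congr 1
    have : ((Nat.gcd a q : ℕ) : ℝ) ≠ 0 := by exact_mod_cast hg.ne'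
    have hqR : (q : ℝ) ≠ 0 := by exact_mod_cast hq0.ne'
    field_simp
  rw [sum_congr rfl h1]
  have hinj : Set.InjOn f (Ico 1 q : Finset ℕ) := by
    intro a ha a' ha' haa
    simp only [hf, Prod.mk.injEq] at haa
    have hg : 0 < Nat.gcd a q := Nat.gcd_pos_of_pos_right _ hq0
    have hg' : 0 < Nat.gcd a' q := Nat.gcd_pos_of_pos_right _ hq0
    obtain ⟨s, hs⟩ := Nat.gcd_dvd_right a q
    obtain ⟨s', hs'⟩ := Nat.gcd_dvd_right a' q
    have e1 : q / Nat.gcd a q = s := Nat.div_eq_of_eq_mul_right hg hs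
    have e2 : q / Nat.gcd a' q = s' := Nat.div_eq_of_eq_mul_right hg' hs'
    have e3 : s = s' := by rw [← e1, ← e2, haa.1]
    have hs0 : 0 < s := by
      rcases Nat.eq_zero_or_pos s with h0 | h0
      · rw [h0, mul_zero] at hs; omega
      · exact h0
    have e4 : Nat.gcd a q = Nat.gcd a' q := by
      apply Nat.eq_of_mul_eq_mul_right hs0
      rw [← hs, e3, ← hs']
    have e5 := Nat.div_mul_cancel (Nat.gcd_dvd_left a q)
    have e6 := Nat.div_mul_cancel (Nat.gcd_dvd_left a' q)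
    rw [← e5, ← e6, haa.2, e4]
  rw [← Finset.sum_image (f := fun p : ℕ × ℕ => h ((p.2 : ℝ) / p.1)) hinj]
  apply sum_le_sum_of_subset_of_nonneg
  · intro p hp
    obtain ⟨a, ha, rfl⟩ := mem_image.1 hp
    rw [mem_Ico] at ha
    have hg : 0 < Nat.gcd a q := Nat.gcd_pos_of_pos_right _ hq0
    have hcop : Nat.Coprime (a / Nat.gcd a q) (q / Nat.gcd a q) := Nat.coprime_div_gcd_div_gcd hg
    have hlt : a / Nat.gcd a q < q / Nat.gcd a q :=
      Nat.div_lt_div_of_lt_of_dvd (Nat.gcd_dvd_right a q) ha.2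
    have hpos : 0 < a / Nat.gcd a q :=
      Nat.div_pos (Nat.le_of_dvd ha.1 (Nat.gcd_dvd_left a q)) hg
    have hdq : q / Nat.gcd a q ∣ q := Nat.div_dvd_of_dvd (Nat.gcd_dvd_right a q)
    have hle : q / Nat.gcd a q ≤ P := Nat.le_of_dvd (Nat.pos_of_ne_zero hP) (hdq.trans hq)
    rw [mem_filter, ALL, mem_filter, mem_product, Nat.mem_divisors, mem_range]
    simp only [hf]
    exact ⟨⟨⟨⟨hdq.trans hq, hP⟩, lt_of_lt_of_le hlt hle⟩, by omega, hlt, hcop⟩, hdq⟩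
  · intro p _ _
    exact hh _

end Pool.Agent.V11294.RP
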