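import Mathlib
import Pool.Agent.V11294.RP.Rb

set_option autoImplicit false

/-! Blocks of denominators. -/

namespace Pool.Agent.V11294.RP

open Finset

lemma err_blocks {b : ℕ} (hb : 2 ≤ b) {P z : ℕ} (hP : P ≠ 0) (ρ : ℕ → ℝ)
    (hρ0 : ∀ q, z ^ 2 < q → ρ q = 0) (hcop : ∀ q, q ∣ P → Nat.Coprime q (b * (b ^ 2 - 1)))
    (K : ℕ) (hK : z ^ 2 < b ^ K) (h : ℝ → ℝ) (hh : ∀ x, 0 ≤ h x) :
    ∑ q ∈ P.divisors, |ρ q| * (q : ℝ)⁻¹ * ∑ a ∈ Ico 1 q, h ((a : ℝ) / q) ≤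
      ∑ k ∈ Icc 1 K, ∑ p ∈ PT b k, (∑ q ∈ P.divisors.filter (fun q => p.1 ∣ q), |ρ q| * (q : ℝ)⁻¹) *
        h ((p.2 : ℝ) / p.1) := by
  set c : ℕ → ℝ := fun s => ∑ q ∈ P.divisors.filter (fun q => s ∣ q), |ρ q| * (q : ℝ)⁻¹ with hc
  have hcnn : ∀ s, 0 ≤ c s := fun s => sum_nonneg fun _ _ => by positivity
  have h1 : ∑ q ∈ P.divisors, |ρ q| * (q : ℝ)⁻¹ * ∑ a ∈ Ico 1 q, h ((a : ℝ) / q) ≤
      ∑ p ∈ ALL P, c p.1 * h ((p.2 : ℝ) / p.1) := by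
    calc _ ≤ ∑ q ∈ P.divisors, |ρ q| * (q : ℝ)⁻¹ *
          ∑ p ∈ (ALL P).filter (fun p => p.1 ∣ q), h ((p.2 : ℝ) / p.1) := by
          refine sum_le_sum fun q hq => ?_
          exact mul_le_mul_of_nonneg_left (regroup hP (Nat.dvd_of_mem_divisors hq) h hh) (by positivity)
      _ = ∑ q ∈ P.divisors, ∑ p ∈ ALL P,
          (if p.1 ∣ q then |ρ q| * (q : ℝ)⁻¹ * h ((p.2 : ℝ) / p.1) else 0) := by
          refine sum_congr rfl fun q _ => ?_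
          rw [mul_sum, sum_filter]
      _ = ∑ p ∈ ALL P, c p.1 * h ((p.2 : ℝ) / p.1) := by
          rw [sum_comm]
          refine sum_congr rfl fun p _ => ?_
          rw [hc]
          simp only
          rw [sum_mul, sum_filter]
  refine h1.trans ?_
  -- drop the large denominators
  have hc0 : ∀ s, z ^ 2 < s → c s = 0 := by
    intro s hs
    rw [hc]
    refine sum_eq_zero fun q hq => ?_
    rw [mem_filter, Nat.mem_divisors] at hq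
    have hq0 : 0 < q := Nat.pos_of_ne_zero (ne_zero_of_dvd_ne_zero hP hq.1.1)
    have : s ≤ q := Nat.le_of_dvd hq0 hq.2
    rw [hρ0 q (lt_of_lt_of_le hs this)]
    simp
  have h2 : ∑ p ∈ ALL P, c p.1 * h ((p.2 : ℝ) / p.1) =
      ∑ p ∈ (ALL P).filter (fun p => p.1 ≤ z ^ 2), c p.1 * h ((p.2 : ℝ) / p.1) := by
    rw [sum_filter]
    refine sum_congr rfl fun p _ => ?_
    split_ifs with hp
    · rfl
    · rw [hc0 p.1 (not_le.1 hp), zero_mul]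
  rw [h2]
  set Y := (ALL P).filter (fun p => p.1 ≤ z ^ 2) with hY
  have hb1 : 1 < b := by omega
  have hmaps : ∀ p ∈ Y, Nat.log b p.1 + 1 ∈ Icc 1 K := by
    intro p hp
    rw [hY, mem_filter, ALL, mem_filter] at hp
    rw [mem_Icc]
    refine ⟨by omega, ?_⟩
    have : Nat.log b p.1 < K := Nat.log_lt_of_lt_pow (by omega) (lt_of_le_of_lt hp.2 hK)
    omega
  rw [← sum_fiberwise_of_maps_to hmaps]
  refine sum_le_sum fun k hk => ?_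
  apply sum_le_sum_of_subset_of_nonneg
  · intro p hp
    rw [mem_filter, hY, mem_filter, ALL, mem_filter, mem_product, Nat.mem_divisors] at hp
    obtain ⟨⟨⟨⟨⟨h1, _⟩, _⟩, h3, h4, h5⟩, _⟩, h7⟩ := hp
    rw [PT, mem_filter, mem_product, mem_Ico, mem_range]
    have hlo : b ^ (k - 1) ≤ p.1 := by
      have : k - 1 = Nat.log b p.1 := by omega
      rw [this]
      exact Nat.pow_log_le_self b (by omega)
    have hhi : p.1 < b ^ k := by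
      rw [← h7]
      exact Nat.lt_pow_succ_log_self hb1 p.1
    exact ⟨⟨⟨hlo, hhi⟩, by omega⟩, h3, h4, h5, hcop p.1 h1⟩
  · intro p _ _
    exact mul_nonneg (hcnn _) (hh _)

/-- the bound for one block -/
lemma one_block {b : ℕ} (hb : 2 ≤ b) {P z : ℕ} (ρ : ℕ → ℝ)
    (hρ : ∀ s, 0 < s → ∑ q ∈ P.divisors.filter (fun q => s ∣ q), |ρ q| * (q : ℝ)⁻¹ ≤
      (s.divisors.card : ℝ) ^ 2 * ((s : ℝ)⁻¹ * Hz z ^ 3))
    {C D : ℝ} (hC : 0 < C) (hD : 1 ≤ D)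
    (hdiv : ∀ k s : ℕ, 0 < s → s < b ^ k → (s.divisors.card : ℝ) ^ 2 ≤ C * D ^ k)
    {k L v : ℕ} (hk : 1 ≤ k) (hv : 2 * k + v * (k + 2) ≤ L)
    (α γ : ℝ) (hγ : ∃ m : ℤ, (b : ℝ) * (b ^ 2 - 1) * γ = m) :
    ∑ p ∈ PT b k, (∑ q ∈ P.divisors.filter (fun q => p.1 ∣ q), |ρ q| * (q : ℝ)⁻¹) *
        ‖F b L α ((p.2 : ℝ) / p.1 + γ)‖ ≤
      (C * b * Real.exp (70 * b ^ 4)) * Hz z ^ 3 * b ^ L *
        ((D * (1 - 1 / (16 * (b : ℝ) ^ 3))) ^ k * (1 - 1 / (4 * (b : ℝ) ^ 5)) ^ v) := by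
  have hb' : (2 : ℝ) ≤ b := by exact_mod_cast hb
  have hb0 : (0 : ℝ) < b := by linarith
  have hH : 0 ≤ Hz z := Hz_nonneg z
  have h1 : ∀ p ∈ PT b k, (∑ q ∈ P.divisors.filter (fun q => p.1 ∣ q), |ρ q| * (q : ℝ)⁻¹) *
        ‖F b L α ((p.2 : ℝ) / p.1 + γ)‖ ≤
      (C * D ^ k * (((b : ℝ) ^ (k - 1))⁻¹ * Hz z ^ 3)) * ‖F b L α ((p.2 : ℝ) / p.1 + γ)‖ := by
    intro p hp
    rw [PT, mem_filter, mem_product, mem_Ico] at hp
    obtain ⟨⟨⟨h2, h3⟩, _⟩, h4, _⟩ := hp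
    apply mul_le_mul_of_nonneg_right _ (norm_nonneg _)
    refine (hρ p.1 (by omega)).trans ?_
    have h5 : (b : ℝ) ^ (k - 1) ≤ p.1 := by exact_mod_cast h2
    have h6 : ((p.1 : ℕ) : ℝ)⁻¹ ≤ ((b : ℝ) ^ (k - 1))⁻¹ := inv_anti₀ (by positivity) h5
    apply mul_le_mul (hdiv k p.1 (by omega) h3) _ (by positivity) (by positivity)
    exact mul_le_mul_of_nonneg_right h6 (by positivity)
  refine (sum_le_sum h1).trans ?_
  rw [← mul_sum]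
  refine (mul_le_mul_of_nonneg_left (block_sum hb hk hv α γ hγ) (by positivity)).trans ?_
  apply le_of_eq
  have h7 : (b : ℝ) ^ 3 - 1 / 16 = (b : ℝ) ^ 3 * (1 - 1 / (16 * (b : ℝ) ^ 3)) := by
    field_simp
  rw [h7, mul_pow, mul_pow, ← pow_mul]
  have h8 : (b : ℝ) ^ L = b ^ (L - 2 * k) * b ^ (2 * k) := by
    rw [← pow_add]
    congr 1
    omega
  have h9 : ((b : ℝ) ^ (k - 1))⁻¹ * (b : ℝ) ^ (3 * k) = b * b ^ (2 * k) := by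
    have : (b : ℝ) ^ (3 * k) = b ^ (k - 1) * (b * b ^ (2 * k)) := by
      rw [← pow_succ', ← pow_add]
      congr 1
      omega
    rw [this, ← mul_assoc, inv_mul_cancel₀ (by positivity), one_mul]
  rw [h8]
  calc C * D ^ k * (((b : ℝ) ^ (k - 1))⁻¹ * Hz z ^ 3) *
      (Real.exp (70 * b ^ 4) * ((b : ℝ) ^ (3 * k) * (1 - 1 / (16 * (b : ℝ) ^ 3)) ^ k) *
        ((b : ℝ) ^ (L - 2 * k) * (1 - 1 / (4 * (b : ℝ) ^ 5)) ^ v))
      = C * D ^ k * ((((b : ℝ) ^ (k - 1))⁻¹ * (b : ℝ) ^ (3 * k)) * Hz z ^ 3) *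
      (Real.exp (70 * b ^ 4) * ((1 - 1 / (16 * (b : ℝ) ^ 3)) ^ k) *
        ((b : ℝ) ^ (L - 2 * k) * (1 - 1 / (4 * (b : ℝ) ^ 5)) ^ v)) := by ring
    _ = _ := by
      rw [h9]
      ring

end Pool.Agent.V11294.RP
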