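import Mathlib
import Pool.Agent.V11294.RP.Basic

set_option autoImplicit false

/-! Reversal: injectivity, leading digits, and the link with the digit lists. -/

namespace Pool.Agent.V11294.RP

open Finset

lemma revL_inj {b : ℕ} (hb : 0 < b) : ∀ L n m, n < b ^ L → m < b ^ L →
    revL b L n = revL b L m → n = m
  | 0, n, m, hn, hm, _ => by
    rw [pow_zero] at hn hm
    omega
  | L + 1, n, m, hn, hm, h => by
    rw [revL, revL] at h
    have h1 := revL_lt hb L (n / b)
    have h2 := revL_lt hb L (m / b)
    have hpos : 0 < b ^ L := Nat.pow_pos hb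
    have e1 : (n % b * b ^ L + revL b L (n / b)) / b ^ L = n % b := by
      rw [mul_comm, Nat.mul_add_div hpos, Nat.div_eq_of_lt h1, add_zero]
    have e2 : (m % b * b ^ L + revL b L (m / b)) / b ^ L = m % b := by
      rw [mul_comm, Nat.mul_add_div hpos, Nat.div_eq_of_lt h2, add_zero]
    have h3 : n % b = m % b := by rw [← e1, ← e2, h]
    have h4 : revL b L (n / b) = revL b L (m / b) := by
      rw [h3] at h
      omega
    have h5 : n / b = m / b := by
      refine revL_inj hb L _ _ ?_ ?_ h4
      · apply Nat.div_lt_of_lt_mul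
        rw [mul_comm, ← pow_succ]; exact hn
      · apply Nat.div_lt_of_lt_mul
        rw [mul_comm, ← pow_succ]; exact hm
    rw [← Nat.div_add_mod n b, ← Nat.div_add_mod m b, h3, h5]

/-- the leading digit of the reversal -/
lemma revL_lead {b : ℕ} (hb : 0 < b) {L n d : ℕ} (hL : 1 ≤ L) (hd : n % b = d) :
    d * b ^ (L - 1) ≤ revL b L n ∧ revL b L n < (d + 1) * b ^ (L - 1) := by
  obtain ⟨M, rfl⟩ : ∃ M, L = M + 1 := ⟨L - 1, by omega⟩
  rw [revL, hd]
  have h1 := revL_lt hb M (n / b)
  simp only [Nat.add_sub_cancel]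
  constructor
  · omega
  · rw [add_mul, one_mul]; omega

/-- reversal of digit strings -/
def rev (b n : ℕ) : ℕ := Nat.ofDigits b (Nat.digits b n).reverse

lemma ofDigits_reverse {b : ℕ} (hb : 0 < b) : ∀ l : List ℕ, (∀ d ∈ l, d < b) →
    Nat.ofDigits b l.reverse = revL b l.length (Nat.ofDigits b l)
  | [], _ => by simp [revL]
  | d :: l, h => by
    have hd : d < b := h d (by simp)
    have ih := ofDigits_reverse hb l (fun x hx => h x (by simp [hx]))
    have h0 : Nat.ofDigits b (d :: l) = d + b * Nat.ofDigits b l := by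
      rw [Nat.ofDigits_cons]
    rw [List.reverse_cons, Nat.ofDigits_append, List.length_cons, revL, ih, h0]
    have h1 : (d + b * Nat.ofDigits b l) % b = d := by
      rw [Nat.add_mul_mod_self_left, Nat.mod_eq_of_lt hd]
    have h2 : (d + b * Nat.ofDigits b l) / b = Nat.ofDigits b l := by
      rw [Nat.add_mul_div_left _ _ hb, Nat.div_eq_of_lt hd, zero_add]
    rw [h1, h2]
    simp
    ring

lemma rev_eq {b : ℕ} (hb : 2 ≤ b) {L n : ℕ} (hL : 1 ≤ L) (h1 : b ^ (L - 1) ≤ n) (h2 : n < b ^ L) :
    rev b n = revL b L n := by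
  have hn : n ≠ 0 := by
    have : 0 < b ^ (L - 1) := Nat.pow_pos (by omega)
    omega
  have hlen : (Nat.digits b n).length = L := by
    rw [Nat.length_digits b n (by omega) hn]
    have : Nat.log b n = L - 1 := by
      rw [Nat.log_eq_iff]
      · refine ⟨h1, ?_⟩
        rwa [Nat.sub_add_cancel hL]
      · right
        exact ⟨by omega, hn⟩
    omega
  unfold rev
  rw [ofDigits_reverse (by omega) _ (fun d hd => Nat.digits_lt_base (by omega) hd), hlen,
    Nat.ofDigits_digits]

end Pool.Agent.V11294.RP
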