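import Mathlib
import Pool.Agent.V11294.RP.Rc
import Pool.Agent.V11294.RP.Rv

set_option autoImplicit false

/-! Energy via the discrete Fourier transform. -/

namespace Pool.Agent.V11294.RP

open Finset

/-- Parseval -/
lemma parseval {T : ℕ} (hT : 0 < T) (r : ℕ → ℝ) :
    ∑ j ∈ range T, ‖∑ m ∈ range T, (r m : ℂ) * e ((j : ℝ) / T * m)‖ ^ 2 =
      T * ∑ m ∈ range T, r m ^ 2 := by
  have h1 : ∀ j ∈ range T, ((‖∑ m ∈ range T, (r m : ℂ) * e ((j : ℝ) / T * m)‖ ^ 2 : ℝ) : ℂ) =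
      ∑ m ∈ range T, ∑ n ∈ range T, (r m : ℂ) * (r n : ℂ) * e ((((m : ℤ) - n : ℤ) : ℝ) * j / T) := by
    intro j _
    have h2 : ((‖∑ m ∈ range T, (r m : ℂ) * e ((j : ℝ) / T * m)‖ ^ 2 : ℝ) : ℂ) =
        (∑ m ∈ range T, (r m : ℂ) * e ((j : ℝ) / T * m)) *
        (starRingEnd ℂ) (∑ m ∈ range T, (r m : ℂ) * e ((j : ℝ) / T * m)) := by
      rw [Complex.mul_conj, Complex.normSq_eq_norm_sq]
    rw [h2, map_sum, sum_mul_sum]
    refine sum_congr rfl fun m _ => sum_congr rfl fun n _ => ?_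
    rw [map_mul, ← e_neg, Complex.conj_ofReal]
    have h3 : e ((((m : ℤ) - n : ℤ) : ℝ) * j / T) = e ((j : ℝ) / T * m) * e (-((j : ℝ) / T * n)) := by
      rw [← e_add]
      congr 1
      push_cast
      ring
    rw [h3]
    ring
  have h4 : ((∑ j ∈ range T, ‖∑ m ∈ range T, (r m : ℂ) * e ((j : ℝ) / T * m)‖ ^ 2 : ℝ) : ℂ) =
      ((T * ∑ m ∈ range T, r m ^ 2 : ℝ) : ℂ) := by
    rw [Complex.ofReal_sum, sum_congr rfl h1, sum_comm]
    have h5 : ∀ m ∈ range T, ∑ j ∈ range T, ∑ n ∈ range T,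
        (r m : ℂ) * (r n : ℂ) * e ((((m : ℤ) - n : ℤ) : ℝ) * j / T) = T * (r m : ℂ) ^ 2 := by
      intro m hm
      rw [sum_comm]
      have h6 : ∀ n ∈ range T, ∑ j ∈ range T,
          (r m : ℂ) * (r n : ℂ) * e ((((m : ℤ) - n : ℤ) : ℝ) * j / T) =
          if n = m then T * (r m : ℂ) ^ 2 else 0 := by
        intro n hn
        rw [← mul_sum, sum_e T hT]
        rw [mem_range] at hm hn
        by_cases hmn : n = m
        · subst hmn
          rw [if_pos rfl, if_pos (by simp)]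
          ring
        · rw [if_neg hmn, if_neg, mul_zero]
          intro hd
          have := Int.eq_zero_of_abs_lt_dvd hd (by
            rw [abs_lt]; constructor <;> omega)
          omega
      rw [sum_congr rfl h6, sum_ite_eq' (range T) m]
      rw [if_pos hm]
    rw [sum_congr rfl h5]
    push_cast
    rw [mul_sum]
  exact_mod_cast h4

/-- the exponential sum of a set -/
noncomputable def EA (A : Finset ℕ) (α : ℝ) : ℂ := ∑ a ∈ A, e (α * a)

/-- number of representations as the sum of an element of `A` and a reversed integer, weighted -/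
noncomputable def rW (b L : ℕ) (A : Finset ℕ) (w : ℕ → ℝ) (m : ℕ) : ℝ :=
  ∑ a ∈ A, ∑ n ∈ range (b ^ L), if a + revL b L n = m then w n else 0

lemma rW_fourier {b L T : ℕ} (A : Finset ℕ) (w : ℕ → ℝ)
    (hT : ∀ a ∈ A, ∀ n ∈ range (b ^ L), a + revL b L n < T) (α : ℝ) :
    ∑ m ∈ range T, (rW b L A w m : ℂ) * e (α * m) =
      EA A α * ∑ n ∈ range (b ^ L), (w n : ℂ) * e (α * revL b L n) := by
  unfold rW EA
  have h1 : ∀ m ∈ range T, ((∑ a ∈ A, ∑ n ∈ range (b ^ L),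
      if a + revL b L n = m then w n else 0 : ℝ) : ℂ) * e (α * m) =
      ∑ a ∈ A, ∑ n ∈ range (b ^ L), if a + revL b L n = m then (w n : ℂ) * e (α * m) else 0 := by
    intro m _
    push_cast
    rw [sum_mul]
    refine sum_congr rfl fun a _ => ?_
    rw [sum_mul]
    refine sum_congr rfl fun n _ => ?_
    split_ifs <;> simp
  rw [sum_congr rfl h1, sum_comm, sum_mul_sum]
  refine sum_congr rfl fun a ha => ?_
  rw [sum_comm]
  refine sum_congr rfl fun n hn => ?_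
  rw [sum_ite_eq, if_pos (mem_range.2 (hT a ha n hn))]
  have : α * ((a + revL b L n : ℕ) : ℝ) = α * a + α * revL b L n := by push_cast; ring
  rw [this, e_add]
  ring

/-- the indicator weights of a class -/
noncomputable def indU (B c : ℕ) (n : ℕ) : ℝ := if n ≡ c [MOD B] then 1 else 0

lemma rW_le_card {b : ℕ} (hb : 0 < b) (L : ℕ) (A : Finset ℕ) (B c m : ℕ) :
    rW b L A (indU B c) m ≤ A.card := by
  unfold rW
  rw [card_eq_sum_ones, Nat.cast_sum]
  refine sum_le_sum fun a _ => ?_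
  rw [← sum_filter]
  have hcard : ((range (b ^ L)).filter (fun n => a + revL b L n = m)).card ≤ 1 := by
    rw [card_le_one]
    intro x hx y hy
    rw [mem_filter, mem_range] at hx hy
    exact revL_inj hb L x y hx.1 hy.1 (by omega)
  calc ∑ n ∈ (range (b ^ L)).filter (fun n => a + revL b L n = m), indU B c n
      ≤ ∑ n ∈ (range (b ^ L)).filter (fun n => a + revL b L n = m), (1 : ℝ) := by
        refine sum_le_sum fun n _ => ?_
        unfold indU
        split_ifs <;> norm_num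
    _ = (((range (b ^ L)).filter (fun n => a + revL b L n = m)).card : ℝ) := by simp
    _ ≤ ((1 : ℕ) : ℝ) := by exact_mod_cast hcard

lemma sum_rW {b L T : ℕ} (A : Finset ℕ) (w : ℕ → ℝ)
    (hT : ∀ a ∈ A, ∀ n ∈ range (b ^ L), a + revL b L n < T) :
    ∑ m ∈ range T, rW b L A w m = A.card * ∑ n ∈ range (b ^ L), w n := by
  unfold rW
  rw [sum_comm, card_eq_sum_ones, Nat.cast_sum, sum_mul]
  refine sum_congr rfl fun a ha => ?_
  rw [sum_comm, Nat.cast_one, one_mul]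
  refine sum_congr rfl fun n hn => ?_
  rw [sum_ite_eq, if_pos (mem_range.2 (hT a ha n hn))]

lemma rW_nonneg {b L : ℕ} (A : Finset ℕ) (w : ℕ → ℝ) (hw : ∀ n, 0 ≤ w n) (m : ℕ) :
    0 ≤ rW b L A w m := by
  unfold rW
  refine sum_nonneg fun a _ => sum_nonneg fun n _ => ?_
  split_ifs
  · exact hw n
  · exact le_rfl

/-- the energy bound -/
lemma energy {b : ℕ} (hb : 2 ≤ b) (L B c : ℕ) (A : Finset ℕ) (hA : ∀ a ∈ A, a < b ^ L)
    (w : ℕ → ℝ) {g δ : ℝ} (hδ : 0 ≤ δ)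
    (hR : ∀ α : ℝ, ‖∑ n ∈ range (b ^ L), (w n : ℂ) * e (α * revL b L n) -
      (g : ℂ) * SU b L B c α‖ ≤ δ) :
    ∑ m ∈ range (2 * b ^ L), rW b L A w m ^ 2 ≤
      2 * g ^ 2 * (A.card ^ 2 * ∑ n ∈ range (b ^ L), indU B c n) + 2 * δ ^ 2 * A.card := by
  set T := 2 * b ^ L with hT
  have hT0 : 0 < T := by rw [hT]; have : 0 < b ^ L := Nat.pow_pos (by omega); omega
  have hTR : (0 : ℝ) < T := by exact_mod_cast hT0
  have hTA : ∀ a ∈ A, ∀ n ∈ range (b ^ L), a + revL b L n < T := by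
    intro a ha n _
    have h1 := hA a ha
    have h2 := revL_lt (show 0 < b by omega) L n
    omega
  have p1 := parseval hT0 (rW b L A w)
  have p2 := parseval hT0 (rW b L A (indU B c))
  have p3 := parseval hT0 (fun m => if m ∈ A then (1 : ℝ) else 0)
  have f1 : ∀ j ∈ range T, ‖∑ m ∈ range T, (rW b L A w m : ℂ) * e ((j : ℝ) / T * m)‖ ^ 2 =
      ‖EA A ((j : ℝ) / T)‖ ^ 2 *
        ‖∑ n ∈ range (b ^ L), (w n : ℂ) * e ((j : ℝ) / T * revL b L n)‖ ^ 2 := by
    intro j _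
    rw [rW_fourier A w hTA, norm_mul, mul_pow]
  have f2 : ∀ j ∈ range T, ‖∑ m ∈ range T, (rW b L A (indU B c) m : ℂ) * e ((j : ℝ) / T * m)‖ ^ 2 =
      ‖EA A ((j : ℝ) / T)‖ ^ 2 * ‖SU b L B c ((j : ℝ) / T)‖ ^ 2 := by
    intro j _
    rw [rW_fourier A (indU B c) hTA, norm_mul, mul_pow]
    congr 3
    unfold SU indU
    refine sum_congr rfl fun n _ => ?_
    split_ifs <;> simp
  have f3 : ∀ j ∈ range T, ‖∑ m ∈ range T, ((if m ∈ A then (1 : ℝ) else 0 : ℝ) : ℂ) *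
      e ((j : ℝ) / T * m)‖ ^ 2 = ‖EA A ((j : ℝ) / T)‖ ^ 2 := by
    intro j _
    congr 2
    unfold EA
    have hAT : A = (range T).filter (fun m => m ∈ A) := by
      ext a
      rw [mem_filter, mem_range]
      constructor
      · intro ha
        refine ⟨?_, ha⟩
        have := hA a ha
        omega
      · exact fun h => h.2
    conv_rhs => rw [hAT]
    rw [sum_filter]
    refine sum_congr rfl fun m _ => ?_
    split_ifs <;> simp
  rw [sum_congr rfl f1] at p1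
  rw [sum_congr rfl f2] at p2
  rw [sum_congr rfl f3] at p3
  have hA1 : ∑ m ∈ range T, (if m ∈ A then (1 : ℝ) else 0) ^ 2 = A.card := by
    have hAT : A = (range T).filter (fun m => m ∈ A) := by
      ext a
      rw [mem_filter, mem_range]
      constructor
      · intro ha
        refine ⟨?_, ha⟩
        have := hA a ha
        omega
      · exact fun h => h.2
    conv_rhs => rw [hAT]
    rw [card_filter]
    push_cast
    refine sum_congr rfl fun m _ => ?_
    split_ifs <;> norm_num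
  rw [hA1] at p3
  have hU : ∑ m ∈ range T, rW b L A (indU B c) m ^ 2 ≤
      A.card ^ 2 * ∑ n ∈ range (b ^ L), indU B c n := by
    have h1 : ∀ m ∈ range T, rW b L A (indU B c) m ^ 2 ≤ A.card * rW b L A (indU B c) m := by
      intro m _
      rw [sq]
      apply mul_le_mul_of_nonneg_right (rW_le_card (by omega) L A B c m)
      apply rW_nonneg
      intro n
      unfold indU
      split_ifs <;> norm_num
    refine (sum_le_sum h1).trans ?_
    rw [← mul_sum, sum_rW A (indU B c) hTA]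
    apply le_of_eq
    ring
  have hle : T * ∑ m ∈ range T, rW b L A w m ^ 2 ≤
      2 * g ^ 2 * (T * ∑ m ∈ range T, rW b L A (indU B c) m ^ 2) + 2 * δ ^ 2 * (T * A.card) := by
    rw [← p1, ← p2, ← p3, mul_sum, mul_sum, ← sum_add_distrib]
    refine sum_le_sum fun j _ => ?_
    have h1 := hR ((j : ℝ) / T)
    set X := ∑ n ∈ range (b ^ L), (w n : ℂ) * e ((j : ℝ) / T * revL b L n) with hX
    set Y := SU b L B c ((j : ℝ) / T) with hY
    have h2 : ‖X‖ ≤ |g| * ‖Y‖ + δ := by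
      have : X = (g : ℂ) * Y + (X - (g : ℂ) * Y) := by ring
      calc ‖X‖ = ‖(g : ℂ) * Y + (X - (g : ℂ) * Y)‖ := by rw [← this]
        _ ≤ ‖(g : ℂ) * Y‖ + ‖X - (g : ℂ) * Y‖ := norm_add_le _ _
        _ ≤ |g| * ‖Y‖ + δ := by
          rw [norm_mul, Complex.norm_real, Real.norm_eq_abs]
          linarith
    have h3 : ‖X‖ ^ 2 ≤ 2 * g ^ 2 * ‖Y‖ ^ 2 + 2 * δ ^ 2 := by
      have h4 : ‖X‖ ^ 2 ≤ (|g| * ‖Y‖ + δ) ^ 2 := by
        apply pow_le_pow_left₀ (norm_nonneg _) h2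
      have h5 : (|g| * ‖Y‖ + δ) ^ 2 ≤ 2 * (|g| * ‖Y‖) ^ 2 + 2 * δ ^ 2 := by
        nlinarith [sq_nonneg (|g| * ‖Y‖ - δ)]
      have h6 : (|g| * ‖Y‖) ^ 2 = g ^ 2 * ‖Y‖ ^ 2 := by rw [mul_pow, sq_abs]
      rw [h6] at h5
      linarith
    have h7 : 0 ≤ ‖EA A ((j : ℝ) / T)‖ ^ 2 := by positivity
    calc ‖EA A ((j : ℝ) / T)‖ ^ 2 * ‖X‖ ^ 2
        ≤ ‖EA A ((j : ℝ) / T)‖ ^ 2 * (2 * g ^ 2 * ‖Y‖ ^ 2 + 2 * δ ^ 2) :=
          mul_le_mul_of_nonneg_left h3 h7
      _ = _ := by ring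
  have hle2 : ∑ m ∈ range T, rW b L A w m ^ 2 ≤
      2 * g ^ 2 * (∑ m ∈ range T, rW b L A (indU B c) m ^ 2) + 2 * δ ^ 2 * A.card := by
    have h1 : T * ∑ m ∈ range T, rW b L A w m ^ 2 ≤
      T * (2 * g ^ 2 * (∑ m ∈ range T, rW b L A (indU B c) m ^ 2) + 2 * δ ^ 2 * A.card) := by
      refine hle.trans (le_of_eq ?_)
      ring
    exact le_of_mul_le_mul_left h1 hTR
  refine hle2.trans ?_
  have := mul_le_mul_of_nonneg_left hU (show 0 ≤ 2 * g ^ 2 by positivity)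
  linarith

end Pool.Agent.V11294.RP
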