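import Mathlib
import Pool.Agent.V11294.RP.Sel
import Pool.Agent.TH423.SH.PAIP

set_option autoImplicit false

/-! Lower bounds for the Selberg sum and for the number of primes in a class. -/

namespace Pool.Agent.V11294.RP

open Finset

lemma sum_coprime_ge (B : ℕ) (hB : 0 < B) : ∀ J : ℕ,
    (B.totient : ℝ) / B * ∑ j ∈ Icc 1 J, (j : ℝ)⁻¹ ≤
      ∑ n ∈ (Ico 1 (J * B + 1)).filter (fun n => Nat.Coprime n B), (n : ℝ)⁻¹
  | 0 => by simp
  | J + 1 => by
    have ih := sum_coprime_ge B hB J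
    have hB' : (0 : ℝ) < B := by exact_mod_cast hB
    rw [sum_Icc_succ_top (by omega), mul_add]
    have hsplit : ∑ n ∈ (Ico 1 ((J + 1) * B + 1)).filter (fun n => Nat.Coprime n B), (n : ℝ)⁻¹ =
        ∑ n ∈ (Ico 1 (J * B + 1)).filter (fun n => Nat.Coprime n B), (n : ℝ)⁻¹ +
        ∑ n ∈ (Ico (J * B + 1) ((J + 1) * B + 1)).filter (fun n => Nat.Coprime n B), (n : ℝ)⁻¹ := by
      rw [← sum_union, ← filter_union, Ico_union_Ico_eq_Ico (by omega)]
      · have : J * B ≤ (J + 1) * B := Nat.mul_le_mul_right _ (by omega)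
        omega
      · rw [disjoint_left]
        intro n h1 h2
        rw [mem_filter, mem_Ico] at h1 h2
        omega
    rw [hsplit]
    have hcard : ((Ico (J * B + 1) ((J + 1) * B + 1)).filter (fun n => Nat.Coprime n B)).card =
        B.totient := by
      have h := Nat.filter_coprime_Ico_eq_totient B (J * B + 1)
      rw [← h]
      congr 1
      have e1 : (J + 1) * B + 1 = J * B + 1 + B := by ring
      rw [e1]
      apply filter_congr
      intro n _
      exact Nat.coprime_comm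
    have hlow : (B.totient : ℝ) / B * (((J + 1 : ℕ) : ℝ))⁻¹ ≤
        ∑ n ∈ (Ico (J * B + 1) ((J + 1) * B + 1)).filter (fun n => Nat.Coprime n B), (n : ℝ)⁻¹ := by
      have h1 : ∀ n ∈ (Ico (J * B + 1) ((J + 1) * B + 1)).filter (fun n => Nat.Coprime n B),
          (((J + 1 : ℕ) : ℝ) * B)⁻¹ ≤ (n : ℝ)⁻¹ := by
        intro n hn
        rw [mem_filter, mem_Ico] at hn
        apply inv_anti₀
        · have : 0 < n := by omega
          exact_mod_cast this
        · have : n ≤ (J + 1) * B := by omega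
          exact_mod_cast this
      have h2 := card_nsmul_le_sum _ _ _ h1
      rw [hcard, nsmul_eq_mul] at h2
      refine le_trans (le_of_eq ?_) h2
      rw [mul_inv]
      field_simp
    linarith

lemma G_lower {b : ℕ} (hb : 2 ≤ b) {L : ℕ} (hL : 126 ≤ L) :
    ((b * (b ^ 2 - 1)).totient : ℝ) / (b * (b ^ 2 - 1) : ℕ) * (L * Real.log b / 32) ≤
      ∑ n ∈ (Icc 1 (b ^ (L / 16))).filter (fun n => Nat.Coprime n (b * (b ^ 2 - 1))), (n : ℝ)⁻¹ := by
  set B := b * (b ^ 2 - 1) with hB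
  have hB0 : 0 < B := by
    have : 4 ≤ b ^ 2 := by nlinarith
    apply Nat.mul_pos (by omega) (by omega)
  have hBR : (0 : ℝ) < B := by exact_mod_cast hB0
  have hB3 : B ≤ b ^ 3 := by
    rw [hB]
    calc b * (b ^ 2 - 1) ≤ b * b ^ 2 := Nat.mul_le_mul_left _ (Nat.sub_le _ _)
      _ = b ^ 3 := by ring
  set z := b ^ (L / 16) with hz
  set J := z / B with hJ
  have h1 := sum_coprime_ge B hB0 J
  have hsub : (Ico 1 (J * B + 1)).filter (fun n => Nat.Coprime n B) ⊆
      (Icc 1 z).filter (fun n => Nat.Coprime n B) := by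
    intro n hn
    rw [mem_filter, mem_Ico] at hn
    rw [mem_filter, mem_Icc]
    have : J * B ≤ z := Nat.div_mul_le_self z B
    exact ⟨⟨hn.1.1, by omega⟩, hn.2⟩
  have h2 := sum_le_sum_of_subset_of_nonneg (f := fun n : ℕ => (n : ℝ)⁻¹) hsub
    (fun _ _ _ => by positivity)
  refine le_trans ?_ (h1.trans h2)
  apply mul_le_mul_of_nonneg_left _ (by positivity)
  have h3 := log_add_one_le_harmonic J
  rw [harmonic_eq_sum_Icc] at h3
  push_cast at h3
  refine le_trans ?_ h3
  have hbR : (0 : ℝ) < b := by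
    have : 0 < b := by omega
    exact_mod_cast this
  have hlogb : 0 ≤ Real.log b := Real.log_natCast_nonneg b
  have h4 : (z : ℝ) / B ≤ (J : ℝ) + 1 := by
    rw [div_le_iff₀ hBR]
    have h5 : z < (J + 1) * B := by
      have := Nat.lt_div_mul_add (a := z) hB0
      rw [add_mul, one_mul]
      omega
    exact_mod_cast h5.le
  have h5 : (b : ℝ) ^ (L / 16) / (b : ℝ) ^ 3 ≤ (J : ℝ) + 1 := by
    refine le_trans ?_ h4
    rw [hz]
    push_cast
    have : (B : ℝ) ≤ (b : ℝ) ^ 3 := by exact_mod_cast hB3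
    exact div_le_div_of_nonneg_left (by positivity) hBR this
  have h6 : Real.log ((b : ℝ) ^ (L / 16) / (b : ℝ) ^ 3) ≤ Real.log ((J : ℝ) + 1) :=
    Real.log_le_log (by positivity) h5
  refine le_trans ?_ h6
  rw [Real.log_div (by positivity) (by positivity), Real.log_pow, Real.log_pow]
  have h7 : (L : ℝ) / 32 ≤ ((L / 16 : ℕ) : ℝ) - (3 : ℕ) := by
    have h8 : (L : ℝ) ≤ 16 * ((L / 16 : ℕ) : ℝ) + 15 := by
      have : L ≤ 16 * (L / 16) + 15 := by omega
      exact_mod_cast this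
    have h9 : (126 : ℝ) ≤ L := by exact_mod_cast hL
    push_cast
    linarith
  calc (L : ℝ) * Real.log b / 32 = (L : ℝ) / 32 * Real.log b := by ring
    _ ≤ (((L / 16 : ℕ) : ℝ) - (3 : ℕ)) * Real.log b := mul_le_mul_of_nonneg_right h7 hlogb
    _ = _ := by ring

open Pool.Agent.TH423.SH.PAIP in
/-- primes with `L` digits in a residue class -/
theorem primes_class {b : ℕ} (hb : 2 ≤ b) (m : ℕ) (hm : 1 ≤ m) : ∃ L0 : ℕ, 2 ≤ L0 ∧ ∀ L ≥ L0, ∀ a : ℕ,
    a.Coprime m → (b : ℝ) ^ L / (4 * m.totient * (L * Real.log b)) ≤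
      (((Ioc (b ^ (L - 1)) (b ^ L)).filter (fun q => q.Prime ∧ q % m = a % m)).card : ℝ) := by
  have hφ : (0 : ℝ) < (Nat.totient m : ℝ) := by
    exact_mod_cast Nat.totient_pos.2 (by omega : 0 < m)
  set φ : ℝ := (Nat.totient m : ℝ) with hφdef
  obtain ⟨y0, hy0⟩ := evt m hm (1 / (12 * φ)) (by positivity)
  obtain ⟨L1, hL1⟩ := exists_nat_ge y0
  refine ⟨L1 + 2, by omega, ?_⟩
  intro L hL a ha
  have hb' : (2 : ℝ) ≤ b := by exact_mod_cast hb
  have hb0 : (0 : ℝ) < b := by linarith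
  have hlogb : 0 < Real.log b := Real.log_pos (by linarith)
  have hLR : (0 : ℝ) < L := by
    have : 0 < L := by omega
    exact_mod_cast this
  set u := b ^ (L - 1) with hu
  set v := b ^ L with hv
  have huv : 2 * u ≤ v := by
    have : v = b * u := by rw [hv, hu, ← pow_succ']; congr 1; omega
    rw [this]
    exact Nat.mul_le_mul_right _ hb
  have huL : L - 1 ≤ u := (Nat.lt_pow_self (by omega)).le
  have hu0 : 0 < u := Nat.pow_pos (by omega)
  have h1 : y0 ≤ (u : ℝ) := by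
    refine hL1.trans ?_
    have : L1 ≤ u := by omega
    exact_mod_cast this
  have h2 : y0 ≤ (v : ℝ) := by
    refine h1.trans ?_
    have : u ≤ v := by omega
    exact_mod_cast this
  obtain ⟨p1, p2⟩ := hy0 u h1
  obtain ⟨p3, p4⟩ := hy0 v h2
  have q1 := abs_le.1 (p1 a ha)
  have q2 := abs_le.1 (p3 a ha)
  obtain ⟨s1, s2⟩ := split m a u v (by omega)
  obtain ⟨t1, t2⟩ := card_bounds m a u v hu0
  have huvR : 2 * (u : ℝ) ≤ v := by exact_mod_cast huv
  have hlogv : Real.log v = L * Real.log b := by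
    rw [hv]; push_cast; rw [Real.log_pow]
  rw [hlogv] at t2
  have hvR : (v : ℝ) = (b : ℝ) ^ L := by rw [hv]; push_cast; rfl
  rw [← hvR]
  rw [div_le_iff₀ (by positivity)]
  have h3 : (v : ℝ) / (4 * φ) ≤ (((Ioc u v).filter (fun q => q.Prime ∧ q % m = a % m)).card : ℝ) *
      (L * Real.log b) := by
    refine le_trans ?_ t2
    have h4 : (v : ℝ) / (4 * φ) = v / φ - v / (2 * φ) - v / (4 * φ) := by
      field_simp
      norm_num
    have h5 : (u : ℝ) / φ ≤ v / (2 * φ) := by
      rw [div_le_div_iff₀ hφ (by positivity)]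
      nlinarith
    have h6 : 1 / (12 * φ) * (u : ℝ) ≤ v / (24 * φ) := by
      rw [div_mul_eq_mul_div, one_mul, div_le_div_iff₀ (by positivity) (by positivity)]
      nlinarith
    have h7 : 1 / (12 * φ) * (v : ℝ) = v / (12 * φ) := by ring
    have h8 : (v : ℝ) / (24 * φ) + v / (12 * φ) + v / (12 * φ) ≤ v / (4 * φ) := by
      have : (v : ℝ) / (24 * φ) + v / (12 * φ) + v / (12 * φ) = (5 / 6) * (v / (4 * φ)) := by
        field_simp; ring
      rw [this]
      have h9 : 0 ≤ (v : ℝ) / (4 * φ) := by positivity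
      linarith
    rw [h7] at q2 p4
    linarith [q1.1, q1.2, q2.1, q2.2]
  rw [div_le_iff₀ (by positivity)] at h3
  calc (v : ℝ) ≤ _ := h3
    _ = _ := by ring

end Pool.Agent.V11294.RP
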