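import Mathlib
import Pool.Agent.V11294.RP.Rc
import Pool.Agent.H510R2.Div

set_option autoImplicit false

/-! The uniform bound for the error term. -/

namespace Pool.Agent.V11294.RP

open Finset Filter Topology

lemma Hz_le {b l : ℕ} (hb : 2 ≤ b) : Hz (b ^ l) ≤ 1 + l * b := by
  have hb' : (2 : ℝ) ≤ b := by exact_mod_cast hb
  have h1 := harmonic_le_one_add_log (b ^ l)
  have h2 : ((harmonic (b ^ l) : ℚ) : ℝ) = Hz (b ^ l) := by
    rw [harmonic_eq_sum_Icc, Hz]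
    push_cast
    rfl
  rw [h2] at h1
  refine h1.trans ?_
  push_cast
  rw [Real.log_pow]
  have h3 : Real.log b ≤ b := (Real.log_le_sub_one_of_pos (by linarith)).trans (by linarith)
  have h4 : (l : ℝ) * Real.log b ≤ l * b := mul_le_mul_of_nonneg_left h3 (by positivity)
  linarith

lemma divisor_sq {b : ℕ} (hb : 2 ≤ b) {D : ℝ} (hD : 1 < D) : ∃ C : ℝ, 0 < C ∧
    ∀ k s : ℕ, 0 < s → s < b ^ k → (s.divisors.card : ℝ) ^ 2 ≤ C * D ^ k := by
  have hb' : (1 : ℝ) < b := by exact_mod_cast hb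
  have hlogb : 0 < Real.log b := Real.log_pos hb'
  have hlogD : 0 < Real.log D := Real.log_pos hD
  set η := Real.log D / (2 * Real.log b) with hη
  have hη0 : 0 < η := by positivity
  obtain ⟨C, hC0, hC⟩ := Pool.Agent.H510R2.divisor_bound η hη0
  refine ⟨C ^ 2, by positivity, ?_⟩
  intro k s hs hsk
  have h1 := hC s (by omega)
  have h2 : (s : ℝ) ^ η ≤ ((b : ℝ) ^ k) ^ η := by
    apply Real.rpow_le_rpow (by positivity) _ hη0.le
    exact_mod_cast hsk.le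
  have h3 : (((b : ℝ) ^ k) ^ η) ^ 2 = D ^ k := by
    rw [← Real.rpow_natCast (((b : ℝ) ^ k) ^ η) 2, ← Real.rpow_mul (by positivity),
      ← Real.rpow_natCast (b : ℝ) k, ← Real.rpow_mul (by positivity),
      ← Real.rpow_natCast D k]
    rw [Real.rpow_def_of_pos (by linarith), Real.rpow_def_of_pos (by linarith)]
    congr 1
    rw [hη]
    push_cast
    field_simp
  have h4 : (s.divisors.card : ℝ) ≤ C * ((b : ℝ) ^ k) ^ η := h1.trans (by gcongr)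
  calc (s.divisors.card : ℝ) ^ 2 ≤ (C * ((b : ℝ) ^ k) ^ η) ^ 2 := by gcongr
    _ = C ^ 2 * D ^ k := by rw [mul_pow, h3]

theorem R_bound {b : ℕ} (hb : 2 ≤ b) : ∃ L0 : ℕ, ∀ L ≥ L0, ∀ (P : ℕ) (ρ : ℕ → ℝ) (G : ℝ), P ≠ 0 →
    (∑ q ∈ P.divisors, ρ q * (q : ℝ)⁻¹ = G⁻¹) →
    (∀ s, 0 < s → ∑ q ∈ P.divisors.filter (fun q => s ∣ q), |ρ q| * (q : ℝ)⁻¹ ≤
      (s.divisors.card : ℝ) ^ 2 * ((s : ℝ)⁻¹ * Hz (b ^ (L / 16)) ^ 3)) →
    (∀ q, (b ^ (L / 16)) ^ 2 < q → ρ q = 0) →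
    (∀ q, q ∣ P → Nat.Coprime q (b * (b ^ 2 - 1))) →
    ∀ (c : ℕ) (α : ℝ), ‖Sw b L (b * (b ^ 2 - 1)) c P ρ α -
      (G⁻¹ : ℝ) * SU b L (b * (b ^ 2 - 1)) c α‖ ≤ (b : ℝ) ^ L / (L : ℝ) ^ 2 := by
  have hb' : (2 : ℝ) ≤ b := by exact_mod_cast hb
  have hb0 : (0 : ℝ) < b := by linarith
  set x : ℝ := 1 / (16 * (b : ℝ) ^ 3) with hx
  have hx0 : 0 < x := by positivity
  have hx1 : x < 1 := by
    rw [hx, div_lt_one (by positivity)]
    have : (2 : ℝ) ^ 3 ≤ (b : ℝ) ^ 3 := by gcongr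
    linarith
  set D : ℝ := 1 + x / 2 with hD
  have hD1 : 1 < D := by rw [hD]; linarith
  obtain ⟨C, hC0, hC⟩ := divisor_sq hb hD1
  set θ : ℝ := D * (1 - x) with hθ
  set lam : ℝ := 1 - 1 / (4 * (b : ℝ) ^ 5) with hlam
  have hθ0 : 0 ≤ θ := by
    rw [hθ]
    apply mul_nonneg (by linarith) (by linarith)
  have hθ1 : θ < 1 := by
    rw [hθ, hD]
    nlinarith
  have hlam0 : 0 ≤ lam := by
    rw [hlam, sub_nonneg, div_le_one (by positivity)]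
    have : (2 : ℝ) ^ 5 ≤ (b : ℝ) ^ 5 := by gcongr
    linarith
  have hlam1 : lam < 1 := by
    rw [hlam]
    have : 0 < 1 / (4 * (b : ℝ) ^ 5) := by positivity
    linarith
  set μ : ℝ := max θ lam with hμ
  have hμ0 : 0 ≤ μ := hθ0.trans (le_max_left _ _)
  have hμ1 : μ < 1 := max_lt hθ1 hlam1
  set C1 : ℝ := C * b * Real.exp (70 * b ^ 4) with hC1
  have hC10 : 0 < C1 := by positivity
  -- eventual smallness
  set C2 : ℝ := C1 * (8 * b ^ 3) * 4 ^ 12 with hC2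
  have hC20 : 0 < C2 := by positivity
  have hlim : Tendsto (fun n : ℕ => C2 * ((n : ℝ) ^ 12 * μ ^ n)) atTop (𝓝 0) := by
    have := (tendsto_pow_const_mul_const_pow_of_abs_lt_one 12
      (show |μ| < 1 by rwa [abs_of_nonneg hμ0])).const_mul C2
    rwa [mul_zero] at this
  have hev := (hlim.eventually (gt_mem_nhds (show (0 : ℝ) < 1 by norm_num)))
  obtain ⟨n0, hn0⟩ := eventually_atTop.1 hev
  refine ⟨max ((2 * n0) ^ 2) 36, ?_⟩
  intro L hL P ρ G hP hG hρ hρ0 hcop c α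
  have hL1 : (2 * n0) ^ 2 ≤ L := (le_max_left _ _).trans hL
  have hL2 : 36 ≤ L := (le_max_right _ _).trans hL
  set M := Nat.sqrt L with hM
  have hM6 : 6 ≤ M := by rw [hM, Nat.le_sqrt]; omega
  have hMn : 2 * n0 ≤ M := by
    rw [hM, Nat.le_sqrt']
    exact hL1
  have hMM : M * M ≤ L := Nat.sqrt_le L
  have hMM' : L < (M + 1) * (M + 1) := Nat.lt_succ_sqrt L
  set n := M / 2 with hn
  have hnn0 : n0 ≤ n := by omega
  have hsm := hn0 n hnn0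
  set K := 2 * (L / 16) + 1 with hK
  have hKz : (b ^ (L / 16)) ^ 2 < b ^ K := by
    rw [← pow_mul]
    apply Nat.pow_lt_pow_right (by omega)
    omega
  have hB0 : 0 < b * (b ^ 2 - 1) := by
    have : 4 ≤ b ^ 2 := by nlinarith
    apply Nat.mul_pos (by omega) (by omega)
  have hBcast : ((b * (b ^ 2 - 1) : ℕ) : ℝ) = (b : ℝ) * (b ^ 2 - 1) := by
    have : 1 ≤ b ^ 2 := Nat.one_le_pow _ _ (by omega)
    push_cast [Nat.cast_sub this]
    ring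
  refine (Sw_sub L hB0 hP c ρ α hG).trans ?_
  have hHz : 0 ≤ Hz (b ^ (L / 16)) := Hz_nonneg _
  have hg : ∀ g ∈ range (b * (b ^ 2 - 1)), ∑ q ∈ P.divisors, |ρ q| * (q : ℝ)⁻¹ *
        ∑ a ∈ Ico 1 q, ‖F b L α ((a : ℝ) / q + (g : ℝ) / (b * (b ^ 2 - 1) : ℕ))‖ ≤
      K * (C1 * Hz (b ^ (L / 16)) ^ 3 * b ^ L * μ ^ n) := by
    intro g _
    refine (err_blocks hb hP ρ hρ0 hcop K hKz
      (fun y => ‖F b L α (y + (g : ℝ) / (b * (b ^ 2 - 1) : ℕ))‖) (fun _ => norm_nonneg _)).trans ?_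
    have hγ : ∃ m : ℤ, (b : ℝ) * (b ^ 2 - 1) * ((g : ℝ) / (b * (b ^ 2 - 1) : ℕ)) = m := by
      refine ⟨g, ?_⟩
      rw [← hBcast]
      have : ((b * (b ^ 2 - 1) : ℕ) : ℝ) ≠ 0 := by exact_mod_cast hB0.ne'
      rw [mul_comm, div_mul_cancel₀ _ this]
      simp
    have hk : ∀ k ∈ Icc 1 K, ∑ p ∈ PT b k,
        (∑ q ∈ P.divisors.filter (fun q => p.1 ∣ q), |ρ q| * (q : ℝ)⁻¹) *
        ‖F b L α ((p.2 : ℝ) / p.1 + (g : ℝ) / (b * (b ^ 2 - 1) : ℕ))‖ ≤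
        C1 * Hz (b ^ (L / 16)) ^ 3 * b ^ L * μ ^ n := by
      intro k hk
      rw [mem_Icc] at hk
      have hpre : 0 ≤ C1 * Hz (b ^ (L / 16)) ^ 3 * b ^ L := by positivity
      by_cases hkM : M ≤ k
      · have hv0 : 2 * k + 0 * (k + 2) ≤ L := by
          have := hk.2
          rw [zero_mul, add_zero]
          omega
        have h1 := one_block hb ρ hρ hC0 hD1.le hC (v := 0) hk.1 hv0 α _ hγ
        refine h1.trans (mul_le_mul_of_nonneg_left ?_ hpre)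
        rw [pow_zero, mul_one]
        calc θ ^ k ≤ μ ^ k := pow_le_pow_left₀ hθ0 (le_max_left _ _) k
          _ ≤ μ ^ n := pow_le_pow_of_le_one hμ0 hμ1.le (by omega)
      · have hv : 2 * k + n * (k + 2) ≤ L := by
          have h2 : k + 1 ≤ M := by omega
          have h3 : n * (k + 2) ≤ n * (M + 1) := Nat.mul_le_mul_left _ (by omega)
          have h4 : 2 * n ≤ M := by omega
          nlinarith
        have h1 := one_block hb ρ hρ hC0 hD1.le hC (v := n) hk.1 hv α _ hγ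
        refine h1.trans (mul_le_mul_of_nonneg_left ?_ hpre)
        calc θ ^ k * lam ^ n ≤ 1 * μ ^ n := by
              apply mul_le_mul (pow_le_one₀ hθ0 hθ1.le) (pow_le_pow_left₀ hlam0 (le_max_right _ _) n)
                (by positivity) zero_le_one
          _ = μ ^ n := one_mul _
    refine (sum_le_sum hk).trans ?_
    rw [sum_const, Nat.card_Icc, nsmul_eq_mul]
    simp
  have hBpos : (0 : ℝ) < ((b * (b ^ 2 - 1) : ℕ) : ℝ) := by exact_mod_cast hB0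
  have h10 : (((b * (b ^ 2 - 1) : ℕ) : ℝ))⁻¹ * ∑ g ∈ range (b * (b ^ 2 - 1)),
      ∑ q ∈ P.divisors, |ρ q| * (q : ℝ)⁻¹ *
        ∑ a ∈ Ico 1 q, ‖F b L α ((a : ℝ) / q + (g : ℝ) / (b * (b ^ 2 - 1) : ℕ))‖ ≤
      K * (C1 * Hz (b ^ (L / 16)) ^ 3 * b ^ L * μ ^ n) := by
    refine (mul_le_mul_of_nonneg_left (sum_le_sum hg) (by positivity)).trans ?_
    rw [sum_const, card_range, nsmul_eq_mul, ← mul_assoc, inv_mul_cancel₀ hBpos.ne', one_mul]
  refine h10.trans ?_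
  have hLR : (36 : ℝ) ≤ L := by exact_mod_cast hL2
  have h11 : Hz (b ^ (L / 16)) ≤ 2 * b * L := by
    refine (Hz_le hb).trans ?_
    have : ((L / 16 : ℕ) : ℝ) ≤ L := by exact_mod_cast Nat.div_le_self L 16
    have h12 : ((L / 16 : ℕ) : ℝ) * b ≤ L * b := mul_le_mul_of_nonneg_right this hb0.le
    nlinarith
  have h12 : (K : ℝ) ≤ L := by
    have : K ≤ L := by omega
    exact_mod_cast this
  have h13 : (L : ℝ) ≤ (4 * n) ^ 2 := by
    have : L ≤ (4 * n) ^ 2 := by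
      have h14 : M + 1 ≤ 4 * n := by omega
      calc L ≤ (M + 1) * (M + 1) := hMM'.le
        _ ≤ (4 * n) * (4 * n) := Nat.mul_le_mul h14 h14
        _ = (4 * n) ^ 2 := by ring
    exact_mod_cast this
  have hL0 : (0 : ℝ) < L := by linarith
  calc (K : ℝ) * (C1 * Hz (b ^ (L / 16)) ^ 3 * b ^ L * μ ^ n)
      ≤ L * (C1 * (2 * b * L) ^ 3 * b ^ L * μ ^ n) := by gcongr
    _ = (C1 * (8 * b ^ 3)) * L ^ 4 * μ ^ n * b ^ L := by ring
    _ ≤ (b : ℝ) ^ L / (L : ℝ) ^ 2 := by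
        rw [le_div_iff₀ (by positivity)]
        have h15 : (L : ℝ) ^ 6 ≤ 4 ^ 12 * (n : ℝ) ^ 12 := by
          calc (L : ℝ) ^ 6 ≤ ((4 * (n : ℝ)) ^ 2) ^ 6 := by gcongr
            _ = _ := by ring
        calc C1 * (8 * (b : ℝ) ^ 3) * L ^ 4 * μ ^ n * b ^ L * L ^ 2
            = (C1 * (8 * (b : ℝ) ^ 3) * L ^ 6 * μ ^ n) * b ^ L := by ring
          _ ≤ (C1 * (8 * (b : ℝ) ^ 3) * (4 ^ 12 * (n : ℝ) ^ 12) * μ ^ n) * b ^ L := by gcongr
          _ = (C2 * ((n : ℝ) ^ 12 * μ ^ n)) * b ^ L := by rw [hC2]; ring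
          _ ≤ 1 * b ^ L := by gcongr
          _ = b ^ L := one_mul _

end Pool.Agent.V11294.RP
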