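import Mathlib
import Pool.Agent.V11294.RP.En
import Pool.Agent.V11294.RP.Gl
import Pool.Agent.V11294.RP.Rd

set_option autoImplicit false

/-! The sumset of two sets of reversed primes is large. -/

namespace Pool.Agent.V11294.RP

open Finset

/-- primes with `L` digits in a residue class modulo `b (b² - 1)` -/
def QL (b L c : ℕ) : Finset ℕ :=
  (Ioc (b ^ (L - 1)) (b ^ L)).filter (fun q => q.Prime ∧ q % (b * (b ^ 2 - 1)) = c % (b * (b ^ 2 - 1)))

lemma QL_lt {b L c : ℕ} (hL : 2 ≤ L) {q : ℕ} (hq : q ∈ QL b L c) : q < b ^ L := by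
  rw [QL, mem_filter, mem_Ioc] at hq
  rcases lt_or_eq_of_le hq.1.2 with h | h
  · exact h
  · exfalso
    have h1 := hq.2.1
    rw [h] at h1
    exact Nat.Prime.not_prime_pow hL h1

lemma sumset_card {b : ℕ} (L : ℕ) (A Q : Finset ℕ) (hA : ∀ a ∈ A, a < b ^ L) (hb : 0 < b)
    (hQ : ∀ q ∈ Q, q < b ^ L) (w : ℕ → ℝ) (hw : ∀ n, 0 ≤ w n) (hw1 : ∀ q ∈ Q, 1 ≤ w q) :
    ((A.card : ℝ) * Q.card) ^ 2 ≤ ((A ×ˢ Q).image (fun p => p.1 + revL b L p.2)).card *
      ∑ m ∈ range (2 * b ^ L), rW b L A w m ^ 2 := by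
  set S := (A ×ˢ Q).image (fun p => p.1 + revL b L p.2) with hS
  have h1 : (A.card : ℝ) * Q.card ≤ ∑ m ∈ S, rW b L A w m := by
    have h2 : ((A ×ˢ Q).card : ℝ) = ∑ m ∈ S, (((A ×ˢ Q).filter (fun p => p.1 + revL b L p.2 = m)).card : ℝ) := by
      rw [card_eq_sum_card_image (fun p : ℕ × ℕ => p.1 + revL b L p.2) (A ×ˢ Q)]
      push_cast
      rfl
    rw [card_product] at h2
    push_cast at h2
    rw [h2]
    refine sum_le_sum fun m _ => ?_
    rw [card_filter, sum_product]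
    push_cast
    unfold rW
    refine sum_le_sum fun a _ => ?_
    have hsub : Q ⊆ range (b ^ L) := fun q hq => mem_range.2 (hQ q hq)
    calc ∑ q ∈ Q, (if a + revL b L q = m then (1 : ℝ) else 0)
        ≤ ∑ q ∈ Q, (if a + revL b L q = m then w q else 0) := by
          refine sum_le_sum fun q hq => ?_
          split_ifs
          · exact hw1 q hq
          · exact le_rfl
      _ ≤ _ := by
          refine sum_le_sum_of_subset_of_nonneg hsub fun n _ _ => ?_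
          split_ifs
          · exact hw n
          · exact le_rfl
  have h3 : (∑ m ∈ S, rW b L A w m) ^ 2 ≤ S.card * ∑ m ∈ S, rW b L A w m ^ 2 :=
    sq_sum_le_card_mul_sum_sq
  have hsub : S ⊆ range (2 * b ^ L) := by
    intro m hm
    obtain ⟨p, hp, rfl⟩ := mem_image.1 hm
    rw [mem_product] at hp
    have h4 := hA p.1 hp.1
    have h5 := revL_lt hb L p.2
    rw [mem_range]
    omega
  have h6 : ∑ m ∈ S, rW b L A w m ^ 2 ≤ ∑ m ∈ range (2 * b ^ L), rW b L A w m ^ 2 :=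
    sum_le_sum_of_subset_of_nonneg hsub fun _ _ _ => sq_nonneg _
  calc ((A.card : ℝ) * Q.card) ^ 2 ≤ (∑ m ∈ S, rW b L A w m) ^ 2 :=
        pow_le_pow_left₀ (by positivity) h1 2
    _ ≤ S.card * ∑ m ∈ S, rW b L A w m ^ 2 := h3
    _ ≤ _ := mul_le_mul_of_nonneg_left h6 (by positivity)

lemma count_class {B N : ℕ} (hB : 0 < B) (hN : B ≤ N) (c : ℕ) :
    ∑ n ∈ range N, indU B c n ≤ 2 * N / B := by
  unfold indU
  have h1 : ∑ n ∈ range N, (if n ≡ c [MOD B] then (1 : ℝ) else 0) =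
      (((range N).filter (fun n => n ≡ c [MOD B])).card : ℝ) := by
    rw [card_filter]; push_cast; rfl
  rw [h1]
  have h2 : ((range N).filter (fun n => n ≡ c [MOD B])).card ≤ N / B + 1 := by
    have := Nat.count_modEq_card N hB c
    rw [Nat.count_eq_card_filter_range] at this
    rw [this]
    split_ifs <;> omega
  have hBR : (0 : ℝ) < B := by exact_mod_cast hB
  have hNR : (B : ℝ) ≤ N := by exact_mod_cast hN
  calc (((range N).filter (fun n => n ≡ c [MOD B])).card : ℝ) ≤ ((N / B + 1 : ℕ) : ℝ) := by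
        exact_mod_cast h2
    _ ≤ (N : ℝ) / B + 1 := by
        push_cast
        have := Nat.cast_div_le (α := ℝ) (m := N) (n := B)
        linarith
    _ ≤ 2 * N / B := by
        have : 1 ≤ (N : ℝ) / B := by rwa [one_le_div hBR]
        rw [mul_div_assoc]
        linarith

lemma numeric {N B φ l L a q s g U E : ℝ} (hN : 0 < N) (hB : 1 ≤ B) (hφ : 0 < φ) (hl : 0 < l)
    (hL : 0 < L) (hLφ : φ ^ 3 * l ^ 3 ≤ L) (ha : N / (4 * φ * (L * l)) ≤ a)
    (hq : N / (4 * φ * (L * l)) ≤ q) (hg0 : 0 < g) (hg : g ≤ 64 * B / (φ * (L * l))) (hU0 : 0 ≤ U)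
    (hU : U ≤ 2 * N / B) (hs0 : 0 ≤ s)
    (hE : E ≤ 2 * g ^ 2 * (a ^ 2 * U) + 2 * (N / L ^ 2) ^ 2 * a) (hS : (a * q) ^ 2 ≤ s * E) :
    N / (2 ^ 19 * B) ≤ s := by
  have hB0 : 0 < B := by linarith
  set X : ℝ := N / (4 * φ * (L * l)) with hX
  have hX0 : 0 < X := by positivity
  have ha0 : 0 < a := lt_of_lt_of_le hX0 ha
  have hq0 : 0 < q := lt_of_lt_of_le hX0 hq
  have hterm1 : 2 * g ^ 2 * (a ^ 2 * U) ≤ a ^ 2 * (2 ^ 18 * B * X ^ 2 / N) := by
    have h1 : g ^ 2 ≤ (64 * B / (φ * (L * l))) ^ 2 := pow_le_pow_left₀ hg0.le hg 2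
    calc 2 * g ^ 2 * (a ^ 2 * U)
        ≤ 2 * (64 * B / (φ * (L * l))) ^ 2 * (a ^ 2 * (2 * N / B)) := by
          apply mul_le_mul (by linarith) (by gcongr) (by positivity) (by positivity)
      _ = a ^ 2 * (2 ^ 18 * B * X ^ 2 / N) := by
          rw [hX]
          field_simp
          ring
  have hterm2 : 2 * (N / L ^ 2) ^ 2 * a ≤ a ^ 2 * (2 ^ 18 * B * X ^ 2 / N) := by
    have h1 : 2 * (N / L ^ 2) ^ 2 ≤ X * (2 ^ 18 * B * X ^ 2 / N) := by
      have h2 : X * (2 ^ 18 * B * X ^ 2 / N) = 2 ^ 12 * B * N ^ 2 / (φ ^ 3 * l ^ 3 * L ^ 3) := by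
        rw [hX]
        field_simp
        ring
      rw [h2]
      rw [le_div_iff₀ (by positivity)]
      calc 2 * (N / L ^ 2) ^ 2 * (φ ^ 3 * l ^ 3 * L ^ 3)
          = 2 * N ^ 2 * (φ ^ 3 * l ^ 3) / L := by field_simp
        _ ≤ 2 * N ^ 2 * L / L := by gcongr
        _ = 2 * N ^ 2 := by field_simp
        _ ≤ 2 ^ 12 * B * N ^ 2 := by
            apply mul_le_mul_of_nonneg_right _ (by positivity)
            linarith
    calc 2 * (N / L ^ 2) ^ 2 * a ≤ X * (2 ^ 18 * B * X ^ 2 / N) * a :=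
          mul_le_mul_of_nonneg_right h1 ha0.le
      _ ≤ a * (2 ^ 18 * B * X ^ 2 / N) * a := by gcongr
      _ = _ := by ring
  have hE2 : E ≤ a ^ 2 * (2 ^ 19 * B * X ^ 2 / N) := by
    refine hE.trans ?_
    have : a ^ 2 * (2 ^ 19 * B * X ^ 2 / N) =
      a ^ 2 * (2 ^ 18 * B * X ^ 2 / N) + a ^ 2 * (2 ^ 18 * B * X ^ 2 / N) := by ring
    rw [this]
    exact add_le_add hterm1 hterm2
  have hfin : (a * q) ^ 2 ≤ s * (a ^ 2 * (2 ^ 19 * B * X ^ 2 / N)) :=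
    hS.trans (mul_le_mul_of_nonneg_left hE2 hs0)
  have h4 : q ^ 2 ≤ s * (2 ^ 19 * B / N) * X ^ 2 := by
    have h5 : a ^ 2 * q ^ 2 ≤ a ^ 2 * (s * (2 ^ 19 * B / N) * X ^ 2) := by
      calc a ^ 2 * q ^ 2 = (a * q) ^ 2 := by ring
        _ ≤ _ := hfin
        _ = _ := by ring
    exact le_of_mul_le_mul_left h5 (by positivity)
  have h6 : X ^ 2 ≤ q ^ 2 := pow_le_pow_left₀ hX0.le hq 2
  have h7 : 1 * X ^ 2 ≤ s * (2 ^ 19 * B / N) * X ^ 2 := by
    rw [one_mul]; exact h6.trans h4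
  have h8 : 1 ≤ s * (2 ^ 19 * B / N) := le_of_mul_le_mul_right h7 (by positivity)
  rw [div_le_iff₀ (by positivity)]
  have h9 : s * (2 ^ 19 * B / N) = s * (2 ^ 19 * B) / N := by ring
  rw [h9, one_le_div hN] at h8
  exact h8

theorem sumset_big {b : ℕ} (hb : 2 ≤ b) : ∃ L0 : ℕ, 2 ≤ L0 ∧ ∀ L ≥ L0, ∀ c1 c2 : ℕ,
    c1.Coprime (b * (b ^ 2 - 1)) → c2.Coprime (b * (b ^ 2 - 1)) →
    (b : ℝ) ^ L / (2 ^ 19 * (b * (b ^ 2 - 1) : ℕ)) ≤
      (((QL b L c1 ×ˢ QL b L c2).image (fun p => revL b L p.1 + revL b L p.2)).card : ℝ) := by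
  have hb' : (2 : ℝ) ≤ b := by exact_mod_cast hb
  have hb0 : (0 : ℝ) < b := by linarith
  obtain ⟨L1, hL1⟩ := R_bound hb
  have hB0 : 0 < b * (b ^ 2 - 1) := by
    have : 4 ≤ b ^ 2 := by nlinarith
    apply Nat.mul_pos (by omega) (by omega)
  obtain ⟨L2, hL22, hL2⟩ := primes_class hb (b * (b ^ 2 - 1)) hB0
  set B := b * (b ^ 2 - 1) with hB
  have hBR : (0 : ℝ) < B := by exact_mod_cast hB0
  have hB1 : (1 : ℝ) ≤ B := by exact_mod_cast hB0
  set φ : ℝ := (B.totient : ℝ) with hφ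
  have hφ0 : 0 < φ := by
    rw [hφ]
    exact_mod_cast Nat.totient_pos.2 hB0
  set l : ℝ := Real.log b with hl
  have hl0 : 0 < l := Real.log_pos (by linarith)
  obtain ⟨L3, hL3⟩ := exists_nat_ge (φ ^ 3 * l ^ 3)
  refine ⟨max (max L1 L2) (max L3 (max 126 B)), by omega, ?_⟩
  intro L hL c1 c2 hc1 hc2
  have hLL1 : L1 ≤ L := by omega
  have hLL2 : L2 ≤ L := by omega
  have hLL3 : L3 ≤ L := by omega
  have hL126 : 126 ≤ L := by omega
  have hLB : B ≤ L := by omega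
  have hLR : (0 : ℝ) < L := by
    have : 0 < L := by omega
    exact_mod_cast this
  set N : ℝ := (b : ℝ) ^ L with hN
  have hN0 : 0 < N := by positivity
  have hNnat : ((b ^ L : ℕ) : ℝ) = N := by push_cast; rfl
  have hBN : B ≤ b ^ L := hLB.trans (Nat.lt_pow_self (by omega)).le
  -- the majorant
  set z := b ^ (L / 16) with hz
  have hz1 : 1 ≤ z := Nat.pow_pos (by omega)
  obtain ⟨P, ρ, G, hP, hnn, hone, hG0, hGl, hGs, hρ, hρ0, hpz, hcop⟩ := majorant B z hz1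
  set w : ℕ → ℝ := fun n => if n ≡ c2 [MOD B] then ∑ q ∈ (Nat.gcd P n).divisors, ρ q else 0 with hw
  have hwnn : ∀ n, 0 ≤ w n := by
    intro n
    rw [hw]
    simp only
    split_ifs
    · exact hnn n
    · exact le_rfl
  have hR : ∀ α : ℝ, ‖∑ n ∈ range (b ^ L), (w n : ℂ) * e (α * revL b L n) -
      ((G⁻¹ : ℝ) : ℂ) * SU b L B c2 α‖ ≤ N / (L : ℝ) ^ 2 :=
    fun α => hL1 L hLL1 P ρ G hP hGs hρ hρ0 hcop c2 α
  -- the sets
  set Q1 := QL b L c1 with hQ1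
  set Q2 := QL b L c2 with hQ2
  have hQ1lt : ∀ q ∈ Q1, q < b ^ L := fun q hq => QL_lt (by omega) hq
  have hQ2lt : ∀ q ∈ Q2, q < b ^ L := fun q hq => QL_lt (by omega) hq
  set A := Q1.image (revL b L) with hA
  have hAcard : A.card = Q1.card := by
    rw [hA]
    apply card_image_of_injOn
    intro x hx y hy hxy
    exact revL_inj (by omega) L x y (hQ1lt x hx) (hQ1lt y hy) hxy
  have hAlt : ∀ a ∈ A, a < b ^ L := by
    intro a ha
    obtain ⟨q, _, rfl⟩ := mem_image.1 ha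
    exact revL_lt (by omega) L q
  have hzlt : z ≤ b ^ (L - 1) := Nat.pow_le_pow_right (by omega) (by omega)
  have hw1 : ∀ q ∈ Q2, 1 ≤ w q := by
    intro q hq
    have hq' := hq
    rw [hQ2, QL, mem_filter, mem_Ioc] at hq'
    rw [hw]
    simp only
    rw [if_pos (show q ≡ c2 [MOD B] from hq'.2.2)]
    exact hone q (hpz q hq'.2.1 (by omega))
  have hE := energy hb L B c2 A hAlt w (g := G⁻¹) (δ := N / (L : ℝ) ^ 2) (by positivity) hR
  have hS := sumset_card L A Q2 hAlt (by omega) hQ2lt w hwnn hw1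
  have hSeq : (A ×ˢ Q2).image (fun p => p.1 + revL b L p.2) =
      (Q1 ×ˢ Q2).image (fun p => revL b L p.1 + revL b L p.2) := by
    rw [hA]
    ext m
    simp only [mem_image, mem_product, Prod.exists]
    constructor
    · rintro ⟨a, q, ⟨⟨p, hp, rfl⟩, hq⟩, rfl⟩
      exact ⟨p, q, ⟨hp, hq⟩, rfl⟩
    · rintro ⟨p, q, ⟨hp, hq⟩, rfl⟩
      exact ⟨revL b L p, q, ⟨⟨p, hp, rfl⟩, hq⟩, rfl⟩
  rw [hSeq] at hS
  set S := ((Q1 ×ˢ Q2).image (fun p => revL b L p.1 + revL b L p.2)) with hSdef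
  set s : ℝ := (S.card : ℝ) with hs
  set X : ℝ := N / (4 * φ * (L * l)) with hX
  have hX0 : 0 < X := by positivity
  have hAX : X ≤ A.card := by
    rw [hAcard]
    exact hL2 L hLL2 c1 hc1
  have hQX : X ≤ Q2.card := hL2 L hLL2 c2 hc2
  set a : ℝ := (A.card : ℝ) with ha
  set q : ℝ := (Q2.card : ℝ) with hq
  have ha0 : 0 < a := lt_of_lt_of_le hX0 hAX
  have hq0 : 0 < q := lt_of_lt_of_le hX0 hQX
  have hcnt := count_class hB0 hBN c2
  rw [hNnat] at hcnt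
  have hGlow : φ / B * (L * l / 64) ≤ G := by
    have h1 := G_lower hb hL126
    rw [← hB] at h1
    have h2 := h1.trans hGl
    have h3 : φ / B * (L * l / 64) = φ / B * (L * l / 32) / 2 := by ring
    rw [h3]
    linarith
  have hg : G⁻¹ ≤ 64 * B / (φ * (L * l)) := by
    have h1 : G⁻¹ ≤ (φ / B * (L * l / 64))⁻¹ := inv_anti₀ (by positivity) hGlow
    refine h1.trans (le_of_eq ?_)
    field_simp
  have hgi0 : 0 < G⁻¹ := inv_pos.2 hG0
  have hU0 : 0 ≤ ∑ n ∈ range (b ^ L), indU B c2 n := by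
    refine sum_nonneg fun n _ => ?_
    unfold indU
    split_ifs <;> norm_num
  have h3 : φ ^ 3 * l ^ 3 ≤ L := by
    refine hL3.trans ?_
    exact_mod_cast hLL3
  exact numeric hN0 hB1 hφ0 hl0 hLR h3 hAX hQX hgi0 hg hU0 hcnt (by positivity) hE hS

end Pool.Agent.V11294.RP
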