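import Mathlib
import Pool.Agent.V11294.RP.Big

set_option autoImplicit false

/-! The union over the residue classes. -/

namespace Pool.Agent.V11294.RP

open Finset

/-- `2 s` is a sum of two units modulo `m` -/
lemma two_units {m : ℕ} (hm : 1 ≤ m) (s : ℕ) : ∃ u v : ℕ, u.Coprime m ∧ v.Coprime m ∧
    u + v ≡ 2 * s [MOD m] := by
  set x := ∏ p ∈ m.primeFactors.filter (fun p => ¬ p ∣ s), p with hx
  have hxdvd : ∀ p, p.Prime → p ∣ m → (p ∣ x ↔ ¬ p ∣ s) := by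
    intro p hp hpm
    rw [hx, Prime.dvd_finsetProd_iff hp.prime]
    constructor
    · rintro ⟨q, hq, hpq⟩
      rw [mem_filter, Nat.mem_primeFactors] at hq
      have : p = q := (Nat.prime_dvd_prime_iff_eq hp hq.1.1).1 hpq
      rw [this]; exact hq.2
    · intro h
      exact ⟨p, mem_filter.2 ⟨Nat.mem_primeFactors.2 ⟨hp, hpm, by omega⟩, h⟩, dvd_rfl⟩
  refine ⟨s + x, s + (m - 1) * x, ?_, ?_, ?_⟩
  · apply Nat.coprime_of_dvd
    intro p hp h1 h2
    by_cases hs : p ∣ s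
    · have : p ∣ x := (Nat.dvd_add_right hs).1 h1
      exact ((hxdvd p hp h2).1 this) hs
    · have : p ∣ x := (hxdvd p hp h2).2 hs
      exact hs ((Nat.dvd_add_left this).1 h1)
  · apply Nat.coprime_of_dvd
    intro p hp h1 h2
    by_cases hs : p ∣ s
    · have h3 : p ∣ (m - 1) * x := (Nat.dvd_add_right hs).1 h1
      have h4 : p ∣ m * x := Dvd.dvd.mul_right h2 x
      have h5 : m * x = (m - 1) * x + x := by
        obtain ⟨k, rfl⟩ : ∃ k, m = k + 1 := ⟨m - 1, by omega⟩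
        simp
        ring
      rw [h5] at h4
      have : p ∣ x := (Nat.dvd_add_right h3).1 h4
      exact ((hxdvd p hp h2).1 this) hs
    · have h3 : p ∣ x := (hxdvd p hp h2).2 hs
      have h4 : p ∣ (m - 1) * x := Dvd.dvd.mul_left h3 _
      exact hs ((Nat.dvd_add_left h4).1 h1)
  · have h5 : s + x + (s + (m - 1) * x) = m * x + 2 * s := by
      obtain ⟨k, rfl⟩ : ∃ k, m = k + 1 := ⟨m - 1, by omega⟩
      simp
      ring
    rw [h5]
    unfold Nat.ModEq
    simp [Nat.add_mod]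

/-- the primes with `L` digits that are `1` modulo `b` -/
def P1 (b L : ℕ) : Finset ℕ :=
  (Ioc (b ^ (L - 1)) (b ^ L)).filter (fun q => q.Prime ∧ q % b = 1 % b)

/-- sums of two reversed primes with `L` digits and leading digit `1` -/
def AA (b L : ℕ) : Finset ℕ :=
  (P1 b L ×ˢ P1 b L).image (fun p => revL b L p.1 + revL b L p.2)

lemma cop_b {b : ℕ} (hb : 2 ≤ b) : Nat.Coprime b (b ^ 2 - 1) := by
  have h1 : 1 ≤ b ^ 2 := Nat.one_le_pow _ _ (by omega)
  apply Nat.coprime_of_dvd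
  intro p hp h2 h3
  have h4 : p ∣ b ^ 2 := Dvd.dvd.pow h2 (by norm_num)
  have h5 : p ∣ 1 := by
    have : b ^ 2 = (b ^ 2 - 1) + 1 := by omega
    rw [this] at h4
    exact (Nat.dvd_add_right h3).1 h4
  exact hp.one_lt.ne' (Nat.dvd_one.1 h5)

lemma lift_class {b : ℕ} (hb : 2 ≤ b) {u : ℕ} (hu : u.Coprime (b ^ 2 - 1)) :
    ∃ c : ℕ, c ≡ 1 [MOD b] ∧ c ≡ u [MOD (b ^ 2 - 1)] ∧ c.Coprime (b * (b ^ 2 - 1)) := by
  obtain ⟨c, hc1, hc2⟩ := Nat.chineseRemainder (cop_b hb) 1 u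
  refine ⟨c, hc1, hc2, ?_⟩
  apply Nat.Coprime.mul_right
  · have := hc1.gcd_eq
    rw [Nat.gcd_one_left] at this
    exact this
  · have := hc2.gcd_eq
    unfold Nat.Coprime
    rw [this]
    exact hu

theorem AA_card {b : ℕ} (hb : 2 ≤ b) : ∃ L0 : ℕ, 2 ≤ L0 ∧ ∀ L ≥ L0,
    (b : ℝ) ^ (L - 1) / 2 ^ 20 ≤ ((AA b L).card : ℝ) := by
  obtain ⟨L0, hL02, hL0⟩ := sumset_big hb
  refine ⟨L0, hL02, ?_⟩
  intro L hL
  set m := b ^ 2 - 1 with hm
  have hm3 : 3 ≤ m := by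
    have : 4 ≤ b ^ 2 := by nlinarith
    omega
  have hex : ∀ s : ℕ, ∃ c1 c2 : ℕ, c1 ≡ 1 [MOD b] ∧ c2 ≡ 1 [MOD b] ∧ c1 + c2 ≡ 2 * s [MOD m] ∧
      c1.Coprime (b * m) ∧ c2.Coprime (b * m) := by
    intro s
    obtain ⟨u, v, hu, hv, huv⟩ := two_units (show 1 ≤ m by omega) s
    obtain ⟨c1, h1, h2, h3⟩ := lift_class hb hu
    obtain ⟨c2, h4, h5, h6⟩ := lift_class hb hv
    exact ⟨c1, c2, h1, h4, (h2.add h5).trans huv, h3, h6⟩
  choose c1 c2 hc1 hc2 hc12 hcc1 hcc2 using hex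
  set W : ℕ → Finset ℕ := fun s =>
    (QL b L (c1 s) ×ˢ QL b L (c2 s)).image (fun p => revL b L p.1 + revL b L p.2) with hW
  -- congruence
  have hcong : ∀ s, ∀ x ∈ W s, b * x ≡ b ^ L * (2 * s) [MOD m] := by
    intro s x hx
    rw [hW] at hx
    obtain ⟨p, hp, rfl⟩ := mem_image.1 hx
    rw [mem_product] at hp
    have h1 := revL_modEq (show 1 ≤ b by omega) L p.1 (QL_lt (by omega) hp.1)
    have h2 := revL_modEq (show 1 ≤ b by omega) L p.2 (QL_lt (by omega) hp.2)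
    have h3 : p.1 ≡ c1 s [MOD m] := by
      have := hp.1
      rw [QL, mem_filter] at this
      exact Nat.ModEq.of_dvd (Dvd.intro_left b rfl) this.2.2
    have h4 : p.2 ≡ c2 s [MOD m] := by
      have := hp.2
      rw [QL, mem_filter] at this
      exact Nat.ModEq.of_dvd (Dvd.intro_left b rfl) this.2.2
    have h5 : b * (revL b L p.1 + revL b L p.2) ≡ b ^ L * (p.1 + p.2) [MOD m] := by
      rw [mul_add, mul_add]
      exact h1.add h2
    refine h5.trans ?_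
    exact ((h3.add h4).trans (hc12 s)).mul_left _
  have hdisj : Set.PairwiseDisjoint ((range ((m + 1) / 2) : Finset ℕ) : Set ℕ) W := by
    intro s hs s' hs' hne
    rw [Function.onFun, disjoint_left]
    intro x hx hx'
    have h1 := hcong s x hx
    have h2 := hcong s' x hx'
    have h3 : b ^ L * (2 * s) ≡ b ^ L * (2 * s') [MOD m] := h1.symm.trans h2
    have h4 : 2 * s ≡ 2 * s' [MOD m] := by
      apply Nat.ModEq.cancel_left_of_coprime _ h3
      exact Nat.Coprime.pow_right L (cop_b hb).symm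
    rw [mem_coe, mem_range] at hs hs'
    have h5 : 2 * s < m := by omega
    have h6 : 2 * s' < m := by omega
    have h7 := Nat.ModEq.eq_of_lt_of_lt h4 h5 h6
    omega
  have hsub : (range ((m + 1) / 2)).biUnion W ⊆ AA b L := by
    intro x hx
    rw [mem_biUnion] at hx
    obtain ⟨s, _, hx⟩ := hx
    rw [hW] at hx
    obtain ⟨p, hp, rfl⟩ := mem_image.1 hx
    rw [mem_product, QL, QL, mem_filter, mem_filter] at hp
    refine mem_image.2 ⟨p, ?_, rfl⟩
    rw [mem_product, P1, mem_filter, mem_filter]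
    refine ⟨⟨hp.1.1, hp.1.2.1, ?_⟩, ⟨hp.2.1, hp.2.2.1, ?_⟩⟩
    · have : p.1 ≡ c1 s [MOD b] := Nat.ModEq.of_dvd (Dvd.intro m rfl) hp.1.2.2
      exact this.trans (hc1 s)
    · have : p.2 ≡ c2 s [MOD b] := Nat.ModEq.of_dvd (Dvd.intro m rfl) hp.2.2.2
      exact this.trans (hc2 s)
  have hcard := card_le_card hsub
  rw [card_biUnion hdisj] at hcard
  have hcard' : (∑ s ∈ range ((m + 1) / 2), ((W s).card : ℝ)) ≤ ((AA b L).card : ℝ) := by
    exact_mod_cast hcard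
  refine le_trans ?_ hcard'
  have hW1 : ∀ s ∈ range ((m + 1) / 2), (b : ℝ) ^ L / (2 ^ 19 * (b * m : ℕ)) ≤ ((W s).card : ℝ) :=
    fun s _ => hL0 L hL (c1 s) (c2 s) (hcc1 s) (hcc2 s)
  refine le_trans ?_ (sum_le_sum hW1)
  rw [sum_const, card_range, nsmul_eq_mul]
  have h8 : (m : ℝ) / 2 ≤ (((m + 1) / 2 : ℕ) : ℝ) := by
    have : m ≤ 2 * ((m + 1) / 2) := by omega
    have h9 : (m : ℝ) ≤ 2 * (((m + 1) / 2 : ℕ) : ℝ) := by exact_mod_cast this
    linarith
  have hb0 : (0 : ℝ) < b := by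
    have : 0 < b := by omega
    exact_mod_cast this
  have hm0 : (0 : ℝ) < m := by
    have : 0 < m := by omega
    exact_mod_cast this
  have h10 : (b : ℝ) ^ L = b * b ^ (L - 1) := by
    rw [← pow_succ']
    congr 1
    omega
  calc (b : ℝ) ^ (L - 1) / 2 ^ 20 = (m : ℝ) / 2 * ((b : ℝ) ^ L / (2 ^ 19 * (b * m : ℕ))) := by
        rw [h10]
        push_cast
        field_simp
    _ ≤ _ := by
        apply mul_le_mul_of_nonneg_right h8 (by positivity)

end Pool.Agent.V11294.RP
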