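import Mathlib
import Pool.Agent.V11294.RP.Un
import Pool.Agent.W851.Had.Schn

set_option autoImplicit false

/-! From density to an interval. -/

namespace Pool.Agent.V11294.RP

open Finset
open Pool.Agent.W851.Had

/-- sums of at most `K` elements -/
def SumLe (R : ℕ → Prop) (K n : ℕ) : Prop :=
  ∃ l : List ℕ, l.length ≤ K ∧ (∀ y ∈ l, R y) ∧ l.sum = n

lemma SumLe_mono {R : ℕ → Prop} {K K' n : ℕ} (h : SumLe R K n) (hK : K ≤ K') : SumLe R K' n := by
  obtain ⟨l, h1, h2, h3⟩ := h
  exact ⟨l, h1.trans hK, h2, h3⟩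

lemma SumLe_add {R : ℕ → Prop} {K K' n n' : ℕ} (h : SumLe R K n) (h' : SumLe R K' n') :
    SumLe R (K + K') (n + n') := by
  obtain ⟨l, h1, h2, h3⟩ := h
  obtain ⟨l', h1', h2', h3'⟩ := h'
  refine ⟨l ++ l', by rw [List.length_append]; omega, ?_, by rw [List.sum_append, h3, h3']⟩
  intro y hy
  rcases List.mem_append.1 hy with hy | hy
  · exact h2 y hy
  · exact h2' y hy

lemma SumLe_one {R : ℕ → Prop} {n : ℕ} (h : R n) : SumLe R 1 n :=
  ⟨[n], by simp, by simpa using h, by simp⟩

lemma SumLe_mul {R : ℕ → Prop} {K X N : ℕ} (h : ∀ n ≤ N, SumLe R K (X + n)) :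
    ∀ j, 1 ≤ j → ∀ n ≤ j * N, SumLe R (j * K) (j * X + n)
  | 0, h0, _, _ => by omega
  | 1, _, n, hn => by
    have := h n (by omega)
    simpa using this
  | j + 2, _, n, hn => by
    have ih := SumLe_mul h (j + 1) (by omega)
    by_cases h1 : n ≤ N
    · have h2 := SumLe_add (ih 0 (by omega)) (h n h1)
      have e1 : (j + 1) * K + K = (j + 2) * K := by ring
      have e2 : (j + 1) * X + 0 + (X + n) = (j + 2) * X + n := by ring
      rwa [e1, e2] at h2
    · have h3 : n - N ≤ (j + 1) * N := by
        have : (j + 2) * N = (j + 1) * N + N := by ring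
        omega
      have h2 := SumLe_add (ih (n - N) h3) (h N le_rfl)
      have e1 : (j + 1) * K + K = (j + 2) * K := by ring
      have e2 : (j + 1) * X + (n - N) + (X + N) = (j + 2) * X + n := by
        have : n - N + N = n := by omega
        have e3 : (j + 1) * X + (n - N) + (X + N) = (j + 2) * X + (n - N + N) := by ring
        rw [e3, this]
      rwa [e1, e2] at h2

/-- the sunrise lemma -/
lemma sunrise {M : ℕ} {S : Finset ℕ} (hM : 0 < M) (hS : S ⊆ range M) {δ : ℝ} (hδ : 0 < δ)
    (hcard : 2 * δ * M ≤ S.card) : ∃ x0 ∈ S,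
    (∀ x, x0 < x → x ≤ M → δ * ((x : ℝ) - x0) ≤ ((S.filter (fun y => x0 ≤ y ∧ y < x)).card : ℝ)) ∧
    δ * M ≤ (M : ℝ) - x0 := by
  set f : ℕ → ℝ := fun x => ((S.filter (fun y => y < x)).card : ℝ) - δ * x with hf
  obtain ⟨x0, hx0, hmin⟩ := exists_min_image (range (M + 1)) f ⟨0, by simp⟩
  rw [mem_range] at hx0
  have hMR : (0 : ℝ) < M := by exact_mod_cast hM
  have hfM : f M = S.card - δ * M := by
    rw [hf]
    simp only
    rw [filter_true_of_mem]
    intro y hy
    exact mem_range.1 (hS hy)
  have hf0 : f 0 = 0 := by rw [hf]; simp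
  have h1 : f x0 ≤ 0 := by rw [← hf0]; exact hmin 0 (by simp)
  have h2 : 0 < f M := by
    rw [hfM]
    have : 0 < δ * M := by positivity
    linarith
  have hx0M : x0 < M := by
    rcases lt_or_eq_of_le (Nat.lt_succ_iff.1 hx0) with h | h
    · exact h
    · exfalso
      rw [h] at h1
      linarith
  have hdiff : ∀ x, x0 < x → x ≤ M →
      δ * ((x : ℝ) - x0) ≤ ((S.filter (fun y => x0 ≤ y ∧ y < x)).card : ℝ) := by
    intro x hx hxM
    have h3 := hmin x (mem_range.2 (by omega))
    rw [hf] at h3
    simp only at h3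
    have h4 : (S.filter (fun y => y < x)).card =
        (S.filter (fun y => y < x0)).card + (S.filter (fun y => x0 ≤ y ∧ y < x)).card := by
      rw [← card_union_of_disjoint]
      · congr 1
        ext y
        simp only [mem_union, mem_filter]
        constructor
        · rintro ⟨h5, h6⟩
          by_cases h7 : y < x0
          · exact Or.inl ⟨h5, h7⟩
          · exact Or.inr ⟨h5, by omega, h6⟩
        · rintro (⟨h5, h6⟩ | ⟨h5, h6, h7⟩)
          · exact ⟨h5, by omega⟩
          · exact ⟨h5, h7⟩
      · rw [disjoint_left]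
        intro y h5 h6
        rw [mem_filter] at h5 h6
        omega
    rw [h4] at h3
    push_cast at h3
    linarith
  refine ⟨x0, ?_, hdiff, ?_⟩
  · have h3 := hdiff (x0 + 1) (by omega) (by omega)
    push_cast at h3
    have h4 : 0 < (S.filter (fun y => x0 ≤ y ∧ y < x0 + 1)).card := by
      have : (0 : ℝ) < ((S.filter (fun y => x0 ≤ y ∧ y < x0 + 1)).card : ℝ) := by linarith
      exact_mod_cast this
    obtain ⟨y, hy⟩ := card_pos.1 h4
    rw [mem_filter] at hy
    have : y = x0 := by omega
    rw [← this]; exact hy.1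
  · rw [hf] at h1
    simp only at h1
    have h4 : S.card ≤ (S.filter (fun y => y < x0)).card + (M - x0) := by
      have h5 : S ⊆ S.filter (fun y => y < x0) ∪ Ico x0 M := by
        intro y hy
        rw [mem_union, mem_filter, mem_Ico]
        have := mem_range.1 (hS hy)
        by_cases h7 : y < x0
        · exact Or.inl ⟨hy, h7⟩
        · exact Or.inr ⟨by omega, this⟩
      calc S.card ≤ (S.filter (fun y => y < x0) ∪ Ico x0 M).card := card_le_card h5
        _ ≤ (S.filter (fun y => y < x0)).card + (Ico x0 M).card := card_union_le _ _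
        _ = _ := by rw [Nat.card_Ico]
    have h5 : (S.card : ℝ) ≤ ((S.filter (fun y => y < x0)).card : ℝ) + ((M : ℝ) - x0) := by
      have : (S.card : ℝ) ≤ (((S.filter (fun y => y < x0)).card + (M - x0) : ℕ) : ℝ) := by
        exact_mod_cast h4
      rwa [Nat.cast_add, Nat.cast_sub hx0M.le] at this
    have h6 : δ * x0 ≤ δ * M := by
      apply mul_le_mul_of_nonneg_left _ hδ.le
      exact_mod_cast hx0M.le
    linarith

/-- an interval from a dense set of sums of two elements -/
lemma interval_of_dense {R : ℕ → Prop} {M : ℕ} {S : Finset ℕ} (hM : 0 < M) (hS : S ⊆ range M)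
    (hSR : ∀ x ∈ S, SumLe R 2 x) (hsmall : ∀ r, 2 ≤ r → SumLe R r r)
    (h : ℕ) (hh : 1 ≤ h) (hcard : 4 * (1 / (h : ℝ)) * M ≤ S.card) :
    ∃ X N : ℕ, X ≤ 2 * h * (M + 2) ∧ 2 * (1 / (h : ℝ)) * M ≤ (N : ℝ) + 1 ∧
      ∀ n ≤ N, SumLe R (2 * h * (h + 4)) (X + n) := by
  have hhR : (0 : ℝ) < h := by exact_mod_cast hh
  set ε : ℝ := 1 / (h : ℝ) with hε
  have hε0 : 0 < ε := by positivity
  have hε1 : ε ≤ 1 := by
    rw [hε, div_le_one hhR]
    exact_mod_cast hh
  have hεh : ε * h = 1 := by rw [hε]; field_simp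
  obtain ⟨x0, hx0S, hx0, hx0M⟩ := sunrise hM hS (δ := 2 * ε) (by positivity)
    (by linarith)
  have hx0lt : x0 < M := mem_range.1 (hS hx0S)
  set N := M - x0 - 1 with hN
  have hNR : (N : ℝ) + 1 = M - x0 := by
    have : N + 1 + x0 = M := by omega
    have h2 : ((N + 1 + x0 : ℕ) : ℝ) = M := by rw [this]
    push_cast at h2
    linarith
  obtain ⟨T, hT⟩ : ∃ T : ℕ → Prop, ∀ n, T n ↔ (n ≤ h ∨ (x0 + n ∈ S)) :=
    ⟨fun n => n ≤ h ∨ (x0 + n ∈ S), fun n => Iff.rfl⟩
  have hT0 : T 0 := (hT 0).2 (Or.inl (by omega))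
  have hcnt : ∀ n ≤ N, ε * n ≤ cnt T n := by
    intro n hn
    classical
    by_cases hnh : n ≤ h
    · have h1 : cnt T n = n := by
        unfold cnt
        rw [filter_true_of_mem]
        · simp
        · intro x hx
          rw [mem_Icc] at hx
          exact (hT x).2 (Or.inl (by omega))
      rw [h1]
      have : (0 : ℝ) ≤ n := Nat.cast_nonneg n
      nlinarith
    · have h1 := hx0 (x0 + n + 1) (by omega) (by omega)
      have h2 : (S.filter (fun y => x0 ≤ y ∧ y < x0 + n + 1)).card ≤ cnt T n + 1 := by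
        have h3 : S.filter (fun y => x0 ≤ y ∧ y < x0 + n + 1) ⊆
            insert x0 (((Icc 1 n).filter T).image (fun y => x0 + y)) := by
          intro y hy
          rw [mem_filter] at hy
          rw [mem_insert]
          by_cases hyx : y = x0
          · exact Or.inl hyx
          · right
            refine mem_image.2 ⟨y - x0, ?_, by omega⟩
            rw [mem_filter, mem_Icc]
            refine ⟨by omega, (hT _).2 (Or.inr ?_)⟩
            have : x0 + (y - x0) = y := by omega
            rw [this]; exact hy.1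
        refine (card_le_card h3).trans ((card_insert_le _ _).trans ?_)
        unfold cnt
        have := card_image_le (s := (Icc 1 n).filter T) (f := fun y => x0 + y)
        omega
      have h4 : ((S.filter (fun y => x0 ≤ y ∧ y < x0 + n + 1)).card : ℝ) ≤ (cnt T n : ℝ) + 1 := by
        exact_mod_cast h2
      push_cast at h1
      have h5 : 1 ≤ ε * n := by
        rw [← hεh]
        apply mul_le_mul_of_nonneg_left _ hε0.le
        exact_mod_cast (not_le.1 hnh).le
      nlinarith
  have hsch := schn T N h ε hε1 (by rw [hεh]) hT0 hcnt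
  have hTR : ∀ y, T y → SumLe R (h + 4) (x0 + 2 + y) := by
    intro y hy0
    rcases (hT y).1 hy0 with hy | hy
    · have h1 := SumLe_add (hSR x0 hx0S) (hsmall (2 + y) (by omega))
      have e : x0 + (2 + y) = x0 + 2 + y := by ring
      rw [e] at h1
      exact SumLe_mono h1 (by omega)
    · have h1 := SumLe_add (hSR _ hy) (hsmall 2 le_rfl)
      have e : x0 + y + 2 = x0 + 2 + y := by ring
      rw [e] at h1
      exact SumLe_mono h1 (by omega)
  refine ⟨(h + h) * (x0 + 2), N, ?_, ?_, ?_⟩
  · have : (h + h) * (x0 + 2) ≤ (h + h) * (M + 2) := Nat.mul_le_mul_left _ (by omega)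
    calc (h + h) * (x0 + 2) ≤ (h + h) * (M + 2) := this
      _ = 2 * h * (M + 2) := by ring
  · rw [hNR]; exact hx0M
  · intro n hn
    obtain ⟨l, hl1, hl2, hl3⟩ := hsch n hn
    have key : ∀ l : List ℕ, (∀ y ∈ l, T y) →
        SumLe R (l.length * (h + 4)) (l.length * (x0 + 2) + l.sum) := by
      intro l
      induction l with
      | nil =>
        intro _
        exact ⟨[], by simp, by simp, by simp⟩
      | cons a l ih =>
        intro hl
        have h1 := ih (fun y hy => hl y (by simp [hy]))
        have h2 := hTR a (hl a (by simp))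
        have h3 := SumLe_add h1 h2
        have e1 : l.length * (h + 4) + (h + 4) = (a :: l).length * (h + 4) := by
          rw [List.length_cons]; ring
        have e2 : l.length * (x0 + 2) + l.sum + (x0 + 2 + a) =
            (a :: l).length * (x0 + 2) + (a :: l).sum := by
          rw [List.length_cons, List.sum_cons]; ring
        rwa [e1, e2] at h3
    have h1 := key l hl2
    rw [hl1, hl3] at h1
    have e1 : (h + h) * (h + 4) = 2 * h * (h + 4) := by ring
    rwa [e1] at h1

end Pool.Agent.V11294.RP
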