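import Mathlib
import Pool.Agent.V11294.RP.Sch

set_option autoImplicit false

/-! Long intervals of sums of boundedly many reversed primes. -/

namespace Pool.Agent.V11294.RP

open Finset

/-- reversed primes -/
def RPr (b m : ℕ) : Prop := ∃ p : ℕ, p.Prime ∧ m = rev b p

lemma rev_small {b d : ℕ} (hd : 0 < d) (hdb : d < b) : rev b d = d := by
  unfold rev
  rw [Nat.digits_of_lt b d (by omega) hdb]
  simp

lemma rev_base {b : ℕ} (hb : 2 ≤ b) : rev b b = 1 := by
  have h1 : rev b b = revL b 2 b := rev_eq hb (L := 2) (by norm_num) (by simp) (by nlinarith)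
  rw [h1]
  simp only [revL]
  have h2 : b % b = 0 := Nat.mod_self b
  have h3 : b / b = 1 := Nat.div_self (by omega)
  have h4 : 1 % b = 1 := Nat.mod_eq_of_lt (by omega)
  rw [h2, h3, h4]
  simp

lemma small_sums {b : ℕ} (hb : 2 ≤ b) (r : ℕ) (hr : 2 ≤ r) : SumLe (RPr b) r r := by
  by_cases hb4 : 4 ≤ b
  · have r2 : RPr b 2 := ⟨2, Nat.prime_two, (rev_small (by norm_num) (by omega)).symm⟩
    have r3 : RPr b 3 := ⟨3, Nat.prime_three, (rev_small (by norm_num) (by omega)).symm⟩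
    rcases Nat.even_or_odd' r with ⟨k, hk | hk⟩
    · refine ⟨List.replicate k 2, by simp; omega, ?_, by simp; omega⟩
      intro y hy
      rw [List.eq_of_mem_replicate hy]; exact r2
    · refine ⟨3 :: List.replicate (k - 1) 2, by simp; omega, ?_, by simp; omega⟩
      intro y hy
      rcases List.mem_cons.1 hy with h | h
      · rw [h]; exact r3
      · rw [List.eq_of_mem_replicate h]; exact r2
  · have hbp : b.Prime := by
      interval_cases b
      · exact Nat.prime_two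
      · exact Nat.prime_three
    have r1 : RPr b 1 := ⟨b, hbp, (rev_base hb).symm⟩
    refine ⟨List.replicate r 1, by simp, ?_, by simp⟩
    intro y hy
    rw [List.eq_of_mem_replicate hy]; exact r1

lemma AA_sub {b L : ℕ} (hb : 2 ≤ b) (hL : 2 ≤ L) : AA b L ⊆ range (4 * b ^ (L - 1)) := by
  intro x hx
  obtain ⟨p, hp, rfl⟩ := mem_image.1 hx
  rw [mem_product, P1, mem_filter, mem_filter] at hp
  have h1 : 1 % b = 1 := Nat.mod_eq_of_lt (by omega)
  rw [h1] at hp
  have h2 := revL_lead (L := L) (show 0 < b by omega) (by omega) hp.1.2.2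
  have h3 := revL_lead (L := L) (show 0 < b by omega) (by omega) hp.2.2.2
  rw [mem_range]
  omega

lemma AA_sum {b L : ℕ} (hb : 2 ≤ b) (hL : 2 ≤ L) : ∀ x ∈ AA b L, SumLe (RPr b) 2 x := by
  intro x hx
  obtain ⟨p, hp, rfl⟩ := mem_image.1 hx
  rw [mem_product] at hp
  have key : ∀ q ∈ P1 b L, RPr b (revL b L q) := by
    intro q hq
    rw [P1, mem_filter, mem_Ioc] at hq
    refine ⟨q, hq.2.1, ?_⟩
    rw [rev_eq hb (L := L) (by omega) hq.1.1.le]
    rcases lt_or_eq_of_le hq.1.2 with h | h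
    · exact h
    · exfalso
      have h1 := hq.2.1
      rw [h] at h1
      exact Nat.Prime.not_prime_pow hL h1
  exact SumLe_add (SumLe_one (key p.1 hp.1)) (SumLe_one (key p.2 hp.2))

theorem intervals : ∃ K C : ℕ, 1 ≤ C ∧ ∀ b : ℕ, 2 ≤ b → ∃ L0 : ℕ, 2 ≤ L0 ∧ ∀ L ≥ L0,
    ∃ X : ℕ, X ≤ C * b ^ (L - 1) ∧ ∀ n ≤ 2 * b ^ (L - 1), SumLe (RPr b) K (X + n) := by
  obtain ⟨h, hh⟩ : ∃ h : ℕ, h = 2 ^ 24 := ⟨_, rfl⟩
  obtain ⟨j, hj⟩ : ∃ j : ℕ, j = 2 ^ 23 := ⟨_, rfl⟩
  have hh1 : 1 ≤ h := by rw [hh]; norm_num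
  refine ⟨j * (2 * h * (h + 4)), j * (12 * h), by rw [hj, hh]; norm_num, ?_⟩
  intro b hb
  obtain ⟨L1, hL12, hL1⟩ := AA_card hb
  refine ⟨max L1 25, by omega, ?_⟩
  intro L hL
  have hLL1 : L1 ≤ L := by omega
  have hL25 : 25 ≤ L := by omega
  set β := b ^ (L - 1) with hβ
  have hβ24 : 2 ^ 24 ≤ β := by
    calc 2 ^ 24 ≤ b ^ 24 := Nat.pow_le_pow_left hb 24
      _ ≤ b ^ (L - 1) := Nat.pow_le_pow_right (by omega) (by omega)
  have hβ0 : 0 < β := by omega
  have hβR : (0 : ℝ) < β := by exact_mod_cast hβ0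
  have hcard := hL1 L hLL1
  have hcard' : 4 * (1 / (h : ℝ)) * ((4 * β : ℕ) : ℝ) ≤ (AA b L).card := by
    refine le_trans (le_of_eq ?_) hcard
    rw [hh]
    push_cast
    rw [hβ]
    push_cast
    ring
  obtain ⟨X, N, hX, hN, hXN⟩ := interval_of_dense (show 0 < 4 * β by omega) (AA_sub hb (by omega))
    (AA_sum hb (by omega)) (small_sums hb) h hh1 hcard'
  have hNβ : 2 * β ≤ j * N := by
    have h1 : (2 * β : ℝ) ≤ j * N := by
      have h2 : 2 * (1 / (h : ℝ)) * ((4 * β : ℕ) : ℝ) = β / 2 ^ 21 := by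
        rw [hh]; push_cast; ring
      rw [h2] at hN
      have h3 : (2 : ℝ) ^ 24 ≤ β := by exact_mod_cast hβ24
      rw [hj]
      push_cast
      have h4 : (1 : ℝ) ≤ β / 2 ^ 22 := by
        rw [le_div_iff₀ (by positivity)]
        linarith [show (2 : ℝ) ^ 22 ≤ 2 ^ 24 by norm_num]
      have h5 : (β : ℝ) / 2 ^ 21 = β / 2 ^ 22 + β / 2 ^ 22 := by ring
      have h6 : (β : ℝ) / 2 ^ 22 ≤ N := by linarith
      have h7 : (β : ℝ) ≤ 2 ^ 22 * N := by
        rw [div_le_iff₀ (by positivity)] at h6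
        linarith
      norm_num at h7 ⊢
      linarith
    exact_mod_cast h1
  refine ⟨j * X, ?_, ?_⟩
  · rw [mul_assoc]
    apply Nat.mul_le_mul_left
    calc X ≤ 2 * h * (4 * β + 2) := hX
      _ ≤ 2 * h * (6 * β) := Nat.mul_le_mul_left _ (by omega)
      _ = 12 * h * β := by ring
  · intro n hn
    exact SumLe_mul hXN j (by rw [hj]; norm_num) n (hn.trans hNβ)

/-- reversed primes with given leading digit -/
lemma lead_digit {b : ℕ} (hb : 2 ≤ b) : ∃ L0 : ℕ, 2 ≤ L0 ∧ ∀ L ≥ L0, ∀ d, Nat.Coprime d b → d < b →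
    ∃ a, RPr b a ∧ d * b ^ (L - 1) ≤ a ∧ a < (d + 1) * b ^ (L - 1) := by
  obtain ⟨L0, hL02, hL0⟩ := primes_class hb b (by omega)
  refine ⟨L0, hL02, ?_⟩
  intro L hL d hd hdb
  have h1 := hL0 L hL d hd
  have hbR : (2 : ℝ) ≤ b := by exact_mod_cast hb
  have hφ : (0 : ℝ) < (Nat.totient b : ℝ) := by
    exact_mod_cast Nat.totient_pos.2 (by omega : 0 < b)
  have hLR : (0 : ℝ) < L := by
    have : 0 < L := by omega
    exact_mod_cast this
  have hl : 0 < Real.log b := Real.log_pos (by linarith)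
  have h2 : 0 < ((Ioc (b ^ (L - 1)) (b ^ L)).filter (fun q => q.Prime ∧ q % b = d % b)).card := by
    have : (0 : ℝ) < (((Ioc (b ^ (L - 1)) (b ^ L)).filter
        (fun q => q.Prime ∧ q % b = d % b)).card : ℝ) := by
      refine lt_of_lt_of_le ?_ h1
      positivity
    exact_mod_cast this
  obtain ⟨q, hq⟩ := card_pos.1 h2
  rw [mem_filter, mem_Ioc] at hq
  have hqlt : q < b ^ L := by
    rcases lt_or_eq_of_le hq.1.2 with h | h
    · exact h
    · exfalso
      have h1 := hq.2.1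
      rw [h] at h1
      exact Nat.Prime.not_prime_pow (by omega) h1
  have hrev := rev_eq hb (L := L) (by omega) hq.1.1.le hqlt
  refine ⟨revL b L q, ⟨q, hq.2.1, hrev.symm⟩, ?_⟩
  apply revL_lead (by omega) (by omega)
  rw [hq.2.2, Nat.mod_eq_of_lt hdb]

end Pool.Agent.V11294.RP
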