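import Mathlib
import Pool.Agent.V11294.RP.Int
import Pool.Agent.V11294.RP.Dig

set_option autoImplicit false

/-! The greedy descent and the final theorem. -/

namespace Pool.Agent.V11294.RP

open Finset

/-- the descent at one scale -/
lemma descent {R : ℕ → Prop} {b β X K I : ℕ} (hb : 2 ≤ b) (hβ : 0 < β) {ys : ℝ}
    (hI : ys ≤ I) (hys : 0 < ys)
    (hint : ∀ n ≤ 2 * β, SumLe R K (X + n))
    (hlead : ∀ d, Nat.Coprime d b → d < b → ∃ a, R a ∧ d * β ≤ a ∧ a < (d + 1) * β)
    (hdig : ∀ y : ℝ, ys < y → ∃ d : ℕ, d.Prime ∧ ¬ d ∣ b ∧ y / 3 ≤ d ∧ (d : ℝ) ≤ y - 1)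
    {J : ℕ} (hJ : (b : ℝ) ≤ (3 / 2) ^ J * ys) (C : ℕ) :
    ∀ n, X ≤ n → n ≤ C * (b * β) → SumLe R (K + I + J + 2 * C) n := by
  have hβR : (0 : ℝ) < β := by exact_mod_cast hβ
  have hbR : (2 : ℝ) ≤ b := by exact_mod_cast hb
  -- step 0
  obtain ⟨a1, ha1, ha1l, ha1u⟩ := hlead 1 (Nat.coprime_one_left b) (by omega)
  have s0 : ∀ i n, X ≤ n → n ≤ X + 2 * β + i * β → SumLe R (K + i) n := by
    intro i
    induction i with
    | zero =>
      intro n h1 h2
      have := hint (n - X) (by omega)
      have e : X + (n - X) = n := by omega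
      rw [e] at this
      exact this
    | succ i ih =>
      intro n h1 h2
      by_cases h3 : n ≤ X + 2 * β + i * β
      · exact SumLe_mono (ih n h1 h3) (by omega)
      · have h4 : (i + 1) * β = i * β + β := by ring
        have h5 := ih (n - a1) (by omega) (by omega)
        have h6 := SumLe_add h5 (SumLe_one ha1)
        have e : n - a1 + a1 = n := by omega
        rw [e] at h6
        exact SumLe_mono h6 (by omega)
  -- step 1
  have s1 : ∀ j n, X ≤ n → (n : ℝ) ≤ X + min (b : ℝ) ((3 / 2) ^ j * ys) * β →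
      SumLe R (K + I + j) n := by
    intro j
    induction j with
    | zero =>
      intro n h1 h2
      have h3 : (n : ℝ) ≤ X + I * β := by
        refine h2.trans ?_
        have : min (b : ℝ) ((3 / 2) ^ 0 * ys) ≤ I := (min_le_right _ _).trans (by simpa using hI)
        have h4 := mul_le_mul_of_nonneg_right this hβR.le
        linarith
      have h4 : n ≤ X + I * β := by exact_mod_cast h3
      exact SumLe_mono (s0 I n h1 (by omega)) (by omega)
    | succ j ih =>
      intro n h1 h2
      by_cases h3 : (n : ℝ) ≤ X + min (b : ℝ) ((3 / 2) ^ j * ys) * β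
      · exact SumLe_mono (ih n h1 h3) (by omega)
      · rw [not_le] at h3
        set y : ℝ := ((n : ℝ) - X) / β with hy
        have hyβ : y * β = (n : ℝ) - X := by rw [hy]; field_simp
        have hy1 : min (b : ℝ) ((3 / 2) ^ j * ys) < y := by
          rw [hy, lt_div_iff₀ hβR]; linarith
        have hy2 : y ≤ min (b : ℝ) ((3 / 2) ^ (j + 1) * ys) := by
          rw [hy, div_le_iff₀ hβR]; linarith
        have hyb : y ≤ b := hy2.trans (min_le_left _ _)
        have hy3 : y ≤ (3 / 2) ^ (j + 1) * ys := hy2.trans (min_le_right _ _)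
        have hy4 : (3 / 2 : ℝ) ^ j * ys < y := by
          rcases min_lt_iff.1 hy1 with h | h
          · linarith
          · exact h
        have hysy : ys < y := by
          have : 1 * ys ≤ (3 / 2 : ℝ) ^ j * ys :=
            mul_le_mul_of_nonneg_right (one_le_pow₀ (by norm_num)) hys.le
          linarith
        obtain ⟨d, hdp, hdb, hd1, hd2⟩ := hdig y hysy
        have hdlt : d < b := by
          have : (d : ℝ) < b := by linarith
          exact_mod_cast this
        obtain ⟨a, ha, hal, hau⟩ := hlead d ((Nat.Prime.coprime_iff_not_dvd hdp).2 hdb) hdlt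
        have halR : (d : ℝ) * β ≤ a := by exact_mod_cast hal
        have hauR : (a : ℝ) < (d + 1) * β := by exact_mod_cast hau
        have h5 : (X : ℝ) + a ≤ n := by
          have : ((d : ℝ) + 1) * β ≤ y * β := mul_le_mul_of_nonneg_right (by linarith) hβR.le
          linarith
        have h6 : X + a ≤ n := by exact_mod_cast h5
        have h7 : ((n - a : ℕ) : ℝ) = (n : ℝ) - a := by rw [Nat.cast_sub (by omega)]
        have h8 := ih (n - a) (by omega) (by
          rw [h7]
          have h9 : y - d ≤ min (b : ℝ) ((3 / 2) ^ j * ys) := by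
            apply le_min
            · have : (0 : ℝ) ≤ d := Nat.cast_nonneg d
              linarith
            · rw [pow_succ] at hy3
              linarith
          have h10 := mul_le_mul_of_nonneg_right h9 hβR.le
          nlinarith)
        have h11 := SumLe_add h8 (SumLe_one ha)
        have e : n - a + a = n := by omega
        rw [e] at h11
        exact SumLe_mono h11 (by omega)
  -- step 2
  have hbb : Nat.Coprime (b - 1) b := by
    have h1 : b = (b - 1) + 1 := by omega
    rw [h1]
    simp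
  obtain ⟨a2, ha2, ha2l, ha2u⟩ := hlead (b - 1) hbb (by omega)
  have e1 : b - 1 + 1 = b := by omega
  rw [e1] at ha2u
  have s2 : ∀ i n, X ≤ n → n ≤ X + b * β + i * ((b - 1) * β) → SumLe R (K + I + J + i) n := by
    intro i
    induction i with
    | zero =>
      intro n h1 h2
      apply s1 J n h1
      rw [min_eq_left hJ]
      have : n ≤ X + b * β := by omega
      exact_mod_cast this
    | succ i ih =>
      intro n h1 h2
      by_cases h3 : n ≤ X + b * β + i * ((b - 1) * β)
      · exact SumLe_mono (ih n h1 h3) (by omega)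
      · have h4 : (i + 1) * ((b - 1) * β) = i * ((b - 1) * β) + (b - 1) * β := by ring
        have h5 := ih (n - a2) (by omega) (by omega)
        have h6 := SumLe_add h5 (SumLe_one ha2)
        have e : n - a2 + a2 = n := by omega
        rw [e] at h6
        exact SumLe_mono h6 (by omega)
  intro n h1 h2
  apply s2 (2 * C) n h1
  have h3 : b * β ≤ 2 * ((b - 1) * β) := by
    rw [← mul_assoc]
    apply Nat.mul_le_mul_right
    omega
  have h4 : C * (b * β) ≤ C * (2 * ((b - 1) * β)) := Nat.mul_le_mul_left _ h3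
  have h5 : C * (2 * ((b - 1) * β)) = 2 * C * ((b - 1) * β) := by ring
  omega

/-- the main theorem -/
theorem main_thm : ∃ C : ℝ, 0 < C ∧ ∀ b : ℕ, 2 ≤ b → ∃ K : ℕ, 2 ≤ K ∧ (K : ℝ) ≤ C * Real.log b ∧
    ∃ N0 : ℕ, ∀ N ≥ N0, SumLe (RPr b) K N := by
  obtain ⟨K, C, hC1, hint⟩ := intervals
  obtain ⟨y0, hy03, hdig⟩ := exists_digit
  set D : ℝ := K + 2 * C + y0 + 4 with hD
  have hD0 : 0 < D := by
    have h1 : (0 : ℝ) ≤ K := Nat.cast_nonneg K
    have h2 : (0 : ℝ) ≤ C := Nat.cast_nonneg C
    linarith
  have hl2 : 0 < Real.log 2 := Real.log_pos (by norm_num)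
  refine ⟨D / Real.log 2 + 7, by positivity, ?_⟩
  intro b hb
  have hbR : (2 : ℝ) ≤ b := by exact_mod_cast hb
  have hlb : Real.log 2 ≤ Real.log b := Real.log_le_log (by norm_num) hbR
  have hlb0 : 0 < Real.log b := lt_of_lt_of_le hl2 hlb
  set ys : ℝ := y0 + 4 * Real.log b with hys
  have hys0 : 0 < ys := by rw [hys]; linarith
  set I := ⌈ys⌉₊ with hI
  set J := ⌈3 * Real.log b⌉₊ with hJ
  have hIle : ys ≤ I := Nat.le_ceil _
  have hIlt : (I : ℝ) < ys + 1 := Nat.ceil_lt_add_one hys0.le
  have hJle : 3 * Real.log b ≤ J := Nat.le_ceil _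
  have hJlt : (J : ℝ) < 3 * Real.log b + 1 := Nat.ceil_lt_add_one (by positivity)
  have hJb : (b : ℝ) ≤ (3 / 2) ^ J * ys := by
    have h1 : (1 : ℝ) / 3 ≤ Real.log (3 / 2) := by
      have h2 := Real.one_sub_inv_le_log_of_pos (show (0 : ℝ) < 3 / 2 by norm_num)
      norm_num at h2 ⊢
      linarith
    have h2 : Real.log b ≤ J * Real.log (3 / 2) := by
      have h3 : (J : ℝ) * (1 / 3) ≤ J * Real.log (3 / 2) :=
        mul_le_mul_of_nonneg_left h1 (Nat.cast_nonneg J)
      linarith
    have h3 : (b : ℝ) ≤ (3 / 2) ^ J := by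
      rw [← Real.log_pow] at h2
      exact (Real.log_le_log_iff (by linarith) (by positivity)).1 h2
    have h4 : (3 / 2 : ℝ) ^ J * 1 ≤ (3 / 2) ^ J * ys := by
      apply mul_le_mul_of_nonneg_left _ (by positivity)
      rw [hys]; linarith
    linarith
  refine ⟨K + I + J + 2 * C, by omega, ?_, ?_⟩
  · push_cast
    have h1 : D ≤ D / Real.log 2 * Real.log b := by
      rw [div_mul_eq_mul_div, le_div_iff₀ hl2]
      exact mul_le_mul_of_nonneg_left hlb hD0.le
    have h2 : (D / Real.log 2 + 7) * Real.log b = D / Real.log 2 * Real.log b + 7 * Real.log b := by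
      ring
    rw [h2]
    rw [hys] at hIlt
    linarith
  · obtain ⟨L1, hL12, hL1⟩ := hint b hb
    obtain ⟨L2, hL22, hL2⟩ := lead_digit hb
    set L0 := max L1 L2 with hL0
    refine ⟨C * b ^ (L0 - 1), ?_⟩
    intro N hN
    -- choose the scale
    have hC0 : 0 < C := hC1
    set t := Nat.log b (N / C) with ht
    have hNC : b ^ (L0 - 1) ≤ N / C := by
      rw [Nat.le_div_iff_mul_le hC0, mul_comm]
      exact hN
    have hNC0 : N / C ≠ 0 := by
      have : 0 < b ^ (L0 - 1) := Nat.pow_pos (by omega)
      omega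
    have ht1 : b ^ t ≤ N / C := Nat.pow_log_le_self b hNC0
    have ht2 : N / C < b ^ (t + 1) := Nat.lt_pow_succ_log_self (by omega) _
    have ht3 : L0 - 1 ≤ t := by
      rw [ht]
      exact Nat.le_log_of_pow_le (by omega) hNC
    have hL : L0 ≤ t + 1 := by omega
    obtain ⟨X, hX, hXn⟩ := hL1 (t + 1) (by omega)
    have hlead := hL2 (t + 1) (by omega)
    simp only [Nat.add_sub_cancel] at hX hXn hlead
    have hXN : X ≤ N := by
      refine hX.trans ?_
      rw [Nat.le_div_iff_mul_le hC0, mul_comm] at ht1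
      exact ht1
    have hNup : N ≤ C * (b * b ^ t) := by
      rw [Nat.div_lt_iff_lt_mul hC0] at ht2
      have : b ^ (t + 1) * C = C * (b * b ^ t) := by ring
      omega
    exact descent hb (Nat.pow_pos (by omega)) hIle hys0 hXn hlead
      (fun y hy => hdig b y (by omega) (by rw [hys] at hy; linarith) (by rw [hys] at hy; linarith))
      hJb C N hXN hNup

end Pool.Agent.V11294.RP
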